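import Pool.Agent.Lib.MP_17a322_ntBB.Defs
import Pool.Agent.Lib.MP_17a322_nt.VA.G25

/-!
LEAF B0: the abelian subvariety of dimension zero.

PROOF.  `I = {f | every homogeneous component of f vanishes at o}`, `o = A.x (0 : A.Pts K)` (`loc K o` in VA/G..), which is the kernel of `K[X] → K[T]`, `X i ↦ o i * T`.  A point of `I` over `L` is proportional to `o` (the forms `o i X j - o j X i` are in `I`), so
`Pt I L` has exactly one element, whose coordinates are proportional to those of `0 : A.Pts L` (`AV.zero_rep`).  `prime` over `L`: `I` is generated by the `o i X j - o j X i` (choose `i` with `o i ≠ 0`; modulo them every `X j` is `(o j / o i) X i`), and so is the kernel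
of `L[X] → L[T]`, `X i ↦ o i * T`: `I.map = ` this kernel, a prime ideal.  `grp`: the trivial group on a type with one element.  `functorial`: zero goes to zero (`AV.img_zero`, `img_eq_iff`).  `S := A.S`, `bihomog := A.bihomog`, `spec`: `A.spec` for the zero point (`0 + 0 = 0 = 0 - 0`).
Or: `exists_sub` of VA/G25 over the algebraic closure of `K` with `𝔟 = loc k (0)` (see there: `GrpI`, `ZP`), if that is shorter.
`tdeg`: the ratios `y p.1 / y p.2` of the coordinates of a point are in the range of `algebraMap K L`, so the adjoined field is `⊥` and its transcendence degree is `0`.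
-/

set_option autoImplicit false

universe u

namespace UVD

open MvPolynomial
open Pool.Agent.Lib.MP_17a322_nt.VA

/-- The linear forms `X j - (a j / a b) X b` (here `a b = 1`). -/
private noncomputable def B0_fm {k : Type u} [Field k] {n : ℕ} (a : Fin n → k) (b j : Fin n) :
    MvPolynomial (Fin n) k :=
  X j - C (a j) * X b

private theorem B0_fm_homog {k : Type u} [Field k] {n : ℕ} (a : Fin n → k) (b j : Fin n) :
    (B0_fm a b j).IsHomogeneous 1 := by
  have h1 : (C (a j) * X b : MvPolynomial (Fin n) k).IsHomogeneous 1 := by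
    have h2 := (isHomogeneous_C (Fin n) (a j)).mul (isHomogeneous_X k b)
    rwa [zero_add] at h2
  exact (isHomogeneous_X k j).sub h1

private theorem B0_fm_eval {k : Type u} [Field k] {n : ℕ} (a : Fin n → k) (b j : Fin n)
    {L : Type u} [Field L] [Algebra k L] (x : Fin n → L) :
    aeval x (B0_fm a b j) = x j - algebraMap k L (a j) * x b := by
  unfold B0_fm
  rw [map_sub, map_mul, aeval_X, aeval_X, aeval_C]

private theorem B0_mem {k : Type u} [Field k] {n : ℕ} (a : Fin n → k) (b j : Fin n)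
    {L : Type u} [Field L] [Algebra k L] (x : Fin n → L) :
    B0_fm a b j ∈ G.loc k x ↔ x j = algebraMap k L (a j) * x b := by
  rw [G.mem_loc_of_homog (B0_fm_homog a b j), B0_fm_eval, sub_eq_zero]

/-- The ideal of a rational point is generated by linear forms. -/
private theorem B0_gen {k : Type u} [Field k] {n : ℕ} (a : Fin n → k) {b : Fin n}
    {f : MvPolynomial (Fin n) k} (hf : f ∈ G.loc k a) :
    f ∈ Ideal.span (Set.range (B0_fm a b)) := by
  obtain ⟨J, hJ⟩ : ∃ J, J = Ideal.span (Set.range (B0_fm a b)) := ⟨_, rfl⟩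
  rw [← hJ]
  have h1 : (Ideal.Quotient.mkₐ k J) = (Ideal.Quotient.mkₐ k J).comp
      (aeval fun j => C (a j) * X b : MvPolynomial (Fin n) k →ₐ[k] MvPolynomial (Fin n) k) := by
    refine MvPolynomial.algHom_ext fun j => ?_
    rw [AlgHom.comp_apply, aeval_X, Ideal.Quotient.mkₐ_eq_mk, Ideal.Quotient.eq, hJ]
    exact Ideal.subset_span ⟨j, rfl⟩
  have h2 : (aeval fun j => C (a j) * X b : MvPolynomial (Fin n) k →ₐ[k] MvPolynomial (Fin n) k) =
      (Polynomial.aeval (X b : MvPolynomial (Fin n) k)).comp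
        (aeval fun i => Polynomial.C (a i) * Polynomial.X :
          MvPolynomial (Fin n) k →ₐ[k] Polynomial k) := by
    refine MvPolynomial.algHom_ext fun j => ?_
    rw [AlgHom.comp_apply, aeval_X, aeval_X, map_mul, Polynomial.aeval_C, Polynomial.aeval_X]
    rfl
  have h3 : (aeval fun i => Polynomial.C (a i) * Polynomial.X :
      MvPolynomial (Fin n) k →ₐ[k] Polynomial k) f = 0 := hf
  have h4 : (aeval fun j => C (a j) * X b : MvPolynomial (Fin n) k →ₐ[k] _) f = 0 := by
    rw [h2, AlgHom.comp_apply, h3, map_zero]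
  have h5 := congrArg (fun φ : MvPolynomial (Fin n) k →ₐ[k] MvPolynomial (Fin n) k ⧸ J => φ f) h1
  have h6 : (Ideal.Quotient.mkₐ k J) f = 0 := by
    refine h5.trans ?_
    change (Ideal.Quotient.mkₐ k J) ((aeval fun j => C (a j) * X b :
      MvPolynomial (Fin n) k →ₐ[k] _) f) = 0
    rw [h4, map_zero]
  rw [Ideal.Quotient.mkₐ_eq_mk, Ideal.Quotient.eq_zero_iff_mem] at h6
  exact h6

/-- A point whose coordinates satisfy the linear forms of the origin is the origin. -/
private theorem B0_zero {K : Type u} [Field K] {N : ℕ} (A : AV K N) {L : Type u} [Field L]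
    [Algebra K L] (P : A.Pts L)
    (h : ∀ j, A.x P j = algebraMap K L (G.o₀ A j) * A.x P A.b₀) : P = 0 ∧ A.x P A.b₀ ≠ 0 := by
  have hb : A.x P A.b₀ ≠ 0 := by
    intro h0
    refine Z_x_ne A P (funext fun j => ?_)
    rw [h j, h0, mul_zero]
    rfl
  obtain ⟨c, hc, hz⟩ := G.zero_rep A L
  refine ⟨Z_ext A (c := A.x P A.b₀ / c) (div_ne_zero hb hc) fun i => ?_, hb⟩
  have h1 : G.oL A L i = algebraMap K L (G.o₀ A i) := rfl
  rw [hz i, h1, h i]
  field_simp

theorem B0 {K : Type u} [Field K] {N : ℕ} (A : AV K N) :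
    ∃ (B : AV K N) (hB : IsSubAV B A),
      (∀ (L : Type u) [Field L] [Algebra K L] (b : B.Pts L), hB.inc L b = 0) ∧
      ∀ (L : Type u) [Field L] [Algebra K L] (b : B.Pts L), tdeg K (B.x b) = 0 := by
  have ha1 : G.o₀ A A.b₀ = 1 := G.o_b₀ A
  obtain ⟨k, ik, iKk, iac⟩ : ∃ (k : Type u) (_ : Field k) (_ : Algebra K k), IsAlgClosed k :=
    ⟨AlgebraicClosure K, inferInstance, inferInstance, inferInstance⟩
  obtain ⟨a, ha⟩ : ∃ a : Fin (N + 1) → k, a = fun i => algebraMap K k (G.o₀ A i) := ⟨_, rfl⟩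
  have hai : ∀ i, a i = algebraMap K k (G.o₀ A i) := fun i => by rw [ha]
  -- the ideal of the origin
  have hloc : ∀ (L : Type u) [Field L] [Algebra K L] [Algebra k L] [IsScalarTower K k L],
      G.loc k (A.x (0 : A.Pts L)) = G.loc k a := by
    intro L _ _ _ _
    obtain ⟨c, hc, hz⟩ := G.zero_rep A L
    have h1 : A.x (0 : A.Pts L) = fun i => c * algebraMap k L (a i) := by
      funext i
      rw [hz i, hai i, ← IsScalarTower.algebraMap_apply]
      rfl
    rw [h1, G.loc_smul hc]
    exact G.loc_map (Algebra.ofId k L)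
  have hfm : ∀ j, map (algebraMap K k) (B0_fm (G.o₀ A) A.b₀ j) = B0_fm a A.b₀ j := by
    intro j
    unfold B0_fm
    rw [map_sub, map_mul, map_X, map_X, map_C, hai]
  have hfa : ∀ j, B0_fm a A.b₀ j ∈ G.loc k a := by
    intro j
    rw [B0_mem, hai A.b₀, ha1, map_one, mul_one]
    rfl
  have hgrp : G.GrpI A (G.loc k a) := by
    refine ⟨?_, ?_⟩
    · change G.loc k a ≤ G.loc k (A.x (0 : A.Pts k))
      rw [hloc k]
    · intro L _ _ _ _ P Q hP hQ
      have h1 : ∀ R : A.Pts L, G.ZP A (G.loc k a) R → R = 0 := by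
        intro R hR
        refine (B0_zero A R fun j => ?_).1
        have h2 : B0_fm a A.b₀ j ∈ G.loc k (A.x R) := hR (hfa j)
        rw [B0_mem, hai, ← IsScalarTower.algebraMap_apply] at h2
        exact h2
      rw [h1 P hP, h1 Q hQ, sub_zero]
      change G.loc k a ≤ G.loc k (A.x (0 : A.Pts L))
      rw [hloc L]
  have hdesc : G.loc k a = ((G.loc k a).comap (map (algebraMap K k))).map
      (map (algebraMap K k)) := by
    refine le_antisymm ?_ Ideal.map_comap_le
    intro f hf
    have h1 := B0_gen a (b := A.b₀) hf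
    refine (Ideal.span_le.2 ?_) h1
    rintro _ ⟨j, rfl⟩
    rw [SetLike.mem_coe, ← hfm j]
    refine Ideal.mem_map_of_mem _ ?_
    rw [Ideal.mem_comap, hfm j]
    exact hfa j
  have hA : ∀ f ∈ A.I, map (algebraMap K k) f ∈ G.loc k a := by
    intro f hf
    rw [← hloc k, G.map_mem_loc, G.mem_loc]
    intro d
    exact Z_x_isPt A (0 : A.Pts k) _ (A.homog f hf d)
  obtain ⟨B, hB, hBI⟩ := G.exists_sub A hgrp (fun f hf d => G.comp_mem_loc hf d) hdesc hA
  have hco : ∀ (L : Type u) [Field L] [Algebra K L] (b : B.Pts L), ∀ j,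
      A.x (hB.inc L b) j = algebraMap K L (G.o₀ A j) * A.x (hB.inc L b) A.b₀ := by
    intro L _ _ b j
    have h1 : B0_fm (G.o₀ A) A.b₀ j ∈ B.I := by
      rw [hBI, Ideal.mem_comap, hfm j]
      exact hfa j
    have h2 : aeval (B.x b) (B0_fm (G.o₀ A) A.b₀ j) = 0 := b.2 _ h1
    rw [B0_fm_eval, sub_eq_zero] at h2
    exact h2
  refine ⟨B, hB, fun L _ _ b => (B0_zero A (hB.inc L b) (hco L b)).1, fun L _ _ b => ?_⟩
  have hb := (B0_zero A (hB.inc L b) (hco L b)).2
  have hbot : IntermediateField.adjoin K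
      (Set.range fun p : Fin (N + 1) × Fin (N + 1) => B.x b p.1 / B.x b p.2) = ⊥ := by
    rw [IntermediateField.adjoin_eq_bot_iff]
    rintro _ ⟨p, rfl⟩
    rw [SetLike.mem_coe, IntermediateField.mem_bot]
    refine ⟨G.o₀ A p.1 / G.o₀ A p.2, ?_⟩
    have h1 : B.x b p.1 = algebraMap K L (G.o₀ A p.1) * A.x (hB.inc L b) A.b₀ := hco L b p.1
    have h2 : B.x b p.2 = algebraMap K L (G.o₀ A p.2) * A.x (hB.inc L b) A.b₀ := hco L b p.2
    change algebraMap K L (G.o₀ A p.1 / G.o₀ A p.2) = B.x b p.1 / B.x b p.2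
    rw [h1, h2, map_div₀, mul_div_mul_right _ _ hb]
  unfold tdeg
  rw [hbot]
  exact trdeg_eq_zero

end UVD
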