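import Mathlib

/-!
Forms in three groups of variables: `y` (coordinates of `ℙ^m`), `x` (coordinates of `ℙ^N`) and the
parameter `t` (coordinates of `ℙ^M`).
-/

universe u

namespace UVD

open MvPolynomial

/-- Polynomials in the coordinates `y` of `ℙ^m`, `x` of `ℙ^N` and `t` of `ℙ^M`. -/
abbrev Fm (K : Type u) [Field K] (N m M : ℕ) : Type u :=
  MvPolynomial (Fin (m + 1) ⊕ (Fin (N + 1) ⊕ Fin (M + 1))) K

/-- All terms of `F` have degree `a` in `x`, degree `b` in `y` and degree `c` in `t`. -/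
def Tri {K : Type u} [Field K] {N m M : ℕ} (F : Fm K N m M) (a b c : ℕ) : Prop :=
  ∀ μ ∈ F.support, ∑ i, μ (Sum.inr (Sum.inl i)) = a ∧ ∑ l, μ (Sum.inl l) = b ∧
    ∑ k, μ (Sum.inr (Sum.inr k)) = c

/-- The value `F(x, y, t)`. -/
noncomputable def val {K : Type u} [Field K] {N m M : ℕ} (F : Fm K N m M) {L : Type u} [Field L]
    [Algebra K L] (x : Fin (N + 1) → L) (y : Fin (m + 1) → L) (t : Fin (M + 1) → L) : L :=
  aeval (Sum.elim y (Sum.elim x t)) F

end UVD
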