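import Pool.Agent.Lib.MP_17a322_nt.FU.Defs
import Pool.Agent.Lib.MP_17a322_ntBB.Defs0

/-!
Families of closed subschemes of `A × ℙ^m`: definitions.

Forms in three groups of variables: `y` (coordinates of `ℙ^m`), `x` (coordinates of `ℙ^N`) and the
parameter `t` (coordinates of `ℙ^M`).
-/

universe u

namespace UVD

open MvPolynomial Height
open Pool.Agent.Lib.MP_17a322_nt.VA

/-- The point `[x]` lies in the image under the projection to `ℙ^N` of the closed subset
`q = 0, e = 0` of `ℙ^N × ℙ^m` for the parameter `t`: there is a point `[y]` over the algebraic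
closure with `q(x, y, t) = 0` and `e(x, y, t) = 0`. -/
def Im {K : Type u} [Field K] {N m M κ r : ℕ} (q : Fin κ → Fm K N m M) (e : Fin r → Fm K N m M)
    {L : Type u} [Field L] [Algebra K L] (x : Fin (N + 1) → L) (t : Fin (M + 1) → L) : Prop :=
  ∃ y : Fin (m + 1) → AlgebraicClosure L, y ≠ 0 ∧
    (∀ j, val (q j) (fun i => algebraMap L (AlgebraicClosure L) (x i)) y
      (fun k => algebraMap L (AlgebraicClosure L) (t k)) = 0) ∧
    ∀ j, val (e j) (fun i => algebraMap L (AlgebraicClosure L) (x i)) y
      (fun k => algebraMap L (AlgebraicClosure L) (t k)) = 0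

/-- `P + B` is contained in the image of the closed subset `q = 0, f = 0` for the parameter `t`. -/
def TrX {K : Type u} [Field K] {N m M : ℕ} {A B : AV K N} (hB : IsSubAV B A) (P : A.Pts K)
    (t : Fin (M + 1) → K) {κ s : ℕ} (q : Fin κ → Fm K N m M) (f : Fin s → Fm K N m M) : Prop :=
  ∀ (L : Type u) [Field L] [Algebra K L] (b : B.Pts L),
    Im q f (A.x (A.img (Algebra.ofId K L) P + hB.inc L b)) fun k => algebraMap K L (t k)

/-- The intersection of `P + B` and of the image of the closed subset `q = 0, e = 0` for the
parameter `t` has codimension at most one in `P + B`: there is a point `b` of `B` over an extension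
field such that `P + b` lies in the image, and whose transcendence degree is at least the dimension
of `B` minus one. -/
def BadX {K : Type u} [Field K] {N m M : ℕ} {A B : AV K N} (hB : IsSubAV B A) (P : A.Pts K)
    (t : Fin (M + 1) → K) {κ r : ℕ} (q : Fin κ → Fm K N m M) (e : Fin r → Fm K N m M) : Prop :=
  ∃ (L : Type u) (_ : Field L) (_ : Algebra K L) (b : B.Pts L),
    Im q e (A.x (A.img (Algebra.ofId K L) P + hB.inc L b)) (fun k => algebraMap K L (t k)) ∧
    ∀ (L' : Type u) [Field L'] [Algebra K L'] (p : B.Pts L'),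
      tdeg K (B.x p) ≤ tdeg K (B.x b) + 1

/-- The exceptional points for the parameter `t`: the points `P = w + p`, `p` in `B_i(K)`,
`h(w) ≤ C (1 + h(t))`, such that `P + B_i` is contained in the image of `q = 0, f = 0`, or the image
of `q = 0, e = 0` has codimension at most one in `P + B_i`. -/
def Exc {K : Type u} [Field K] [NumberField K] {N m M : ℕ} {A : AV K N} {k : ℕ}
    (B : Fin k → AV K N) (hB : ∀ i, IsSubAV (B i) A) (C : ℝ) {κ r s : ℕ} (q : Fin κ → Fm K N m M)
    (e : Fin r → Fm K N m M) (f : Fin s → Fm K N m M) (t : Fin (M + 1) → K) (P : A.Pts K) : Prop :=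
  ∃ (i : Fin k) (w : A.Pts K) (p : (B i).Pts K), P = w + (hB i).inc K p ∧
    logHeight (A.x w) ≤ C * (1 + logHeight t) ∧ (TrX (hB i) P t q f ∨ BadX (hB i) P t q e)

/-- The image of the closed subset `q = 0, e = 0` for the parameter `t` has codimension at least two
in `A`: the transcendence degree of each of its points is smaller than the one of some point of `A`
minus one. -/
def Cod2 {K : Type u} [Field K] {N m M : ℕ} (A : AV K N) {κ r : ℕ} (q : Fin κ → Fm K N m M)
    (e : Fin r → Fm K N m M) (t : Fin (M + 1) → K) : Prop :=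
  ∀ (L : Type u) [Field L] [Algebra K L] (P : A.Pts L),
    Im q e (A.x P) (fun k => algebraMap K L (t k)) →
    ∃ (L' : Type u) (_ : Field L') (_ : Algebra K L') (Q : A.Pts L'),
      tdeg K (A.x P) + 1 < tdeg K (A.x Q)

/-- The image of the closed subset `q = 0, f = 0` for the parameter `t` is not all of `A`. -/
def NotAll {K : Type u} [Field K] {N m M : ℕ} (A : AV K N) {κ s : ℕ} (q : Fin κ → Fm K N m M)
    (f : Fin s → Fm K N m M) (t : Fin (M + 1) → K) : Prop :=
  ∃ (L : Type u) (_ : Field L) (_ : Algebra K L) (P : A.Pts L),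
    ¬ Im q f (A.x P) fun k => algebraMap K L (t k)

/-- The height of the point `(x, y)` with respect to the closed subscheme `e = 0` for the parameter
`t`. -/
noncomputable def hE {K : Type u} [Field K] [NumberField K] {N m M r : ℕ} (a b c : ℕ)
    (e : Fin r → Fm K N m M) (x : Fin (N + 1) → K) (y : Fin (m + 1) → K) (t : Fin (M + 1) → K) : ℝ :=
  a * logHeight x + b * logHeight y + c * logHeight t - logHeight fun j => val (e j) x y t

/-- The local height at `v` of the point `(x, y)` with respect to the closed subscheme `f = 0` for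
the parameter `t`. -/
noncomputable def lamX {K : Type u} [Field K] {N m M s : ℕ} (a b c : ℕ)
    (f : Fin s → Fm K N m M) (x : Fin (N + 1) → K) (y : Fin (m + 1) → K) (t : Fin (M + 1) → K)
    (v : AbsoluteValue K ℝ) : ℝ :=
  a * Real.log (⨆ i, v (x i)) + b * Real.log (⨆ l, v (y l)) + c * Real.log (⨆ k, v (t k)) -
    Real.log (⨆ j, v (val (f j) x y t))

/-- The proximity: the sum of the local heights over the infinite places (with multiplicity) and the
places in `S`. -/
noncomputable def prox {K : Type u} [Field K] [NumberField K] {N m M s : ℕ} (a b c : ℕ)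
    (f : Fin s → Fm K N m M) (S : Finset (NumberField.FinitePlace K)) (x : Fin (N + 1) → K)
    (y : Fin (m + 1) → K) (t : Fin (M + 1) → K) : ℝ :=
  (∑ v : NumberField.InfinitePlace K, (v.mult : ℝ) * lamX a b c f x y t v.val) +
    ∑ v ∈ S, lamX a b c f x y t v.val

end UVD
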