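import Mathlib

/-!
LEAF E1: elimination theory, the determinant.

PROOF.  Write `J = Ideal.span (range fun i => map φ (p i))` in `L[y]`, `y = (y_0, .., y_m)`.
(1) Nullstellensatz (`MvPolynomial.vanishingIdeal_zeroLocus_eq_radical`, `L` algebraically closed, `Fin (m + 1)` finite): by `h` every zero of `J` is `0`, so all `X l`
lie in the radical: there is `s` with `X l ^ s ∈ J` for all `l` (take the maximum).
(2) Let `n ≥ (m + 1) * s + 1` and `n ≥ b i` for all `i` (only finitely many). Every monomial `μ` of degree `n` is divisible by some `X l ^ s`, so it is in `J`: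
`monomial μ 1 = ∑ i, c i * map φ (p i)`, and taking homogeneous components of degree `n` one may take `c i` homogeneous of degree `n - b i` (`homogeneousComponent` of a
product with a form: see `NSa_comp` in MP_17a322_ntU3/NSa.lean).
(3) Let `Mon = {μ : Fin (m + 1) →₀ ℕ // μ.degree = n}` (a Fintype) and for a form `w` of degree `n` over `R` let `r w : Mon → L`, `μ ↦ φ (coeff μ w)`. Let `W` be the set of the forms `w`
of degree `n` in `Ideal.span (range p)`. The `L`-span of `r '' W` is everything: it contains the basis vector of `μ`, because by (2) it is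
`∑ i, ∑ ν ∈ (c i).support, coeff ν (c i) • r (monomial ν 1 * p i)` and `monomial ν 1 * p i ∈ W` (`ν.degree = n - b i`).
(4) So there is a family `w : Mon → W` with linearly independent `r (w μ)` (`exists_linearIndependent` for the set `r '' W`; the basis has `#Mon` elements, `Module.finrank_fintype_fun_eq_card`).
Let `T : Matrix Mon Mon R`, `T μ ν = coeff ν (w μ)` and `g = T.det`: `φ g = (T.map φ).det ≠ 0` (`Matrix.linearIndependent_rows_iff_isUnit`, `RingHom.map_det`).
(5) `w μ = ∑ ν, C (T μ ν) * monomial ν 1` (form of degree `n`), so `C g * monomial ν₀ 1 = ∑ μ, C (T.adjugate ν₀ μ) * w μ ∈ Ideal.span (range p)` (`Matrix.adjugate_mul`).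
Take `ν₀ = Finsupp.single l n`.
-/

set_option autoImplicit false

universe u v

namespace UVD

open MvPolynomial

/-- Polynomials over an algebraically closed field without a common zero different from `0`: all monomials of a large degree are in the
ideal. -/
theorem E1_null {L : Type*} [Field L] [IsAlgClosed L] {m : ℕ} {ι : Type*} (P : ι → MvPolynomial (Fin (m + 1)) L)
    (h : ∀ y : Fin (m + 1) → L, (∀ i, eval y (P i) = 0) → y = 0) :
    ∃ n : ℕ, ∀ μ : Fin (m + 1) →₀ ℕ, μ.degree = n → monomial μ (1 : L) ∈ Ideal.span (Set.range P) := by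
  classical
  have h1 : ∀ l : Fin (m + 1), (X l : MvPolynomial (Fin (m + 1)) L) ∈ (Ideal.span (Set.range P)).radical := by
    intro l
    rw [← vanishingIdeal_zeroLocus_eq_radical (K := L), mem_vanishingIdeal_iff]
    intro y hy
    have h2 : y = 0 := by
      refine h y fun i => ?_
      have h3 := mem_zeroLocus_iff.1 hy (P i) (Ideal.subset_span ⟨i, rfl⟩)
      rwa [aeval_eq_eval] at h3
    rw [aeval_X, h2]
    rfl
  choose k hk using fun l => Ideal.mem_radical_iff.1 (h1 l)
  obtain ⟨a, ha⟩ : ∃ a, ∀ l, k l ≤ a := ⟨∑ l, k l, fun l => Finset.single_le_sum (f := k) (fun _ _ => Nat.zero_le _) (Finset.mem_univ l)⟩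
  refine ⟨(m + 1) * a, fun μ hμ => ?_⟩
  obtain ⟨l, hl⟩ : ∃ l, a ≤ μ l := by
    by_contra hcon
    push Not at hcon
    have h2 : μ.degree < (m + 1) * a := by
      rw [Finsupp.degree_eq_sum]
      have h3 : ∑ l, μ l < ∑ _l : Fin (m + 1), a := Finset.sum_lt_sum_of_nonempty Finset.univ_nonempty fun l _ => hcon l
      rwa [Finset.sum_const, Finset.card_univ, Fintype.card_fin, smul_eq_mul] at h3
    omega
  have h2 : (monomial μ (1 : L)) = monomial (μ - Finsupp.single l (k l)) 1 * (X l) ^ (k l) := by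
    have h3 : μ - Finsupp.single l (k l) + Finsupp.single l (k l) = μ :=
      tsub_add_cancel_of_le (by rw [Finsupp.single_le_iff]; exact (ha l).trans hl)
    rw [X_pow_eq_monomial, monomial_mul, one_mul, h3]
  rw [h2]
  exact Ideal.mul_mem_left _ _ (hk l)

/-- Let `P i` be forms over a ring `R` and let `φ : R → L` be a homomorphism to an algebraically closed field such that the forms `φ (P i)`
have no common zero except `0`. Then there is `g` in `R` with `φ g ≠ 0` such that `g` times all monomials of some degree are in the ideal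
of the `P i`. -/
theorem E1_elim {R L : Type*} [CommRing R] [Field L] [IsAlgClosed L] (φ : R →+* L) {m : ℕ} {ι : Type*} [Finite ι]
    (P : ι → MvPolynomial (Fin (m + 1)) R) (b : ι → ℕ) (hP : ∀ i, (P i).IsHomogeneous (b i))
    (h : ∀ y : Fin (m + 1) → L, (∀ i, eval y (map φ (P i)) = 0) → y = 0) :
    ∃ (n : ℕ) (g : R), φ g ≠ 0 ∧ ∀ μ : Fin (m + 1) →₀ ℕ, μ.degree = n → monomial μ g ∈ Ideal.span (Set.range P) := by
  classical
  cases nonempty_fintype ι
  obtain ⟨n, hn⟩ := E1_null (fun i => map φ (P i)) h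
  -- the columns
  have hfin : Set.Finite {μ : Fin (m + 1) →₀ ℕ | μ.degree = n} := by
    refine Set.Finite.subset (Finset.finite_toSet (Finset.finsuppAntidiag (Finset.univ : Finset (Fin (m + 1))) n)) ?_
    intro μ hμ
    rw [Finset.mem_coe, Finset.mem_finsuppAntidiag]
    refine ⟨?_, Finset.subset_univ _⟩
    rw [← Finsupp.degree_eq_sum]
    exact hμ
  obtain ⟨Col, hCol⟩ : ∃ Col : Type, Col = {μ : Fin (m + 1) →₀ ℕ // μ.degree = n} := ⟨_, rfl⟩
  subst hCol
  have hft : Fintype {μ : Fin (m + 1) →₀ ℕ // μ.degree = n} := hfin.fintype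
  -- the rows
  obtain ⟨Row, hRow⟩ : ∃ Row : Type _, Row = {p : ι × (Fin (m + 1) →₀ ℕ) // p.2.degree + b p.1 = n} := ⟨_, rfl⟩
  subst hRow
  obtain ⟨v, hv⟩ : ∃ v : {p : ι × (Fin (m + 1) →₀ ℕ) // p.2.degree + b p.1 = n} → {μ : Fin (m + 1) →₀ ℕ // μ.degree = n} → R,
    ∀ p μ, v p μ = coeff μ.1 (monomial p.1.2 (1 : R) * P p.1.1) := ⟨_, fun _ _ => rfl⟩
  -- the rows span
  obtain ⟨vec, hvec⟩ : ∃ vec : MvPolynomial (Fin (m + 1)) L →ₗ[L] ({μ : Fin (m + 1) →₀ ℕ // μ.degree = n} → L),
    ∀ F μ, vec F μ = coeff μ.1 F := ⟨LinearMap.pi fun μ => lcoeff L μ.1, fun _ _ => rfl⟩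
  have hspan : ∀ F ∈ Ideal.span (Set.range fun i => map φ (P i)), vec F ∈ Submodule.span L (Set.range fun p μ => φ (v p μ)) := by
    intro F hF
    obtain ⟨c, rfl⟩ := Ideal.mem_span_range_iff_exists_fun.1 hF
    rw [map_sum]
    refine Submodule.sum_mem _ fun i _ => ?_
    rw [(c i).as_sum, Finset.sum_mul, map_sum]
    refine Submodule.sum_mem _ fun ν _ => ?_
    have h1 : monomial ν (coeff ν (c i)) * map φ (P i) = coeff ν (c i) • (map φ (monomial ν (1 : R) * P i)) := by
      rw [map_mul, map_monomial, map_one, ← smul_mul_assoc, smul_monomial, smul_eq_mul, mul_one]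
    rw [h1, map_smul]
    refine Submodule.smul_mem _ _ ?_
    by_cases hd : ν.degree + b i = n
    · refine Submodule.subset_span ⟨⟨(i, ν), hd⟩, ?_⟩
      funext μ
      rw [hvec, coeff_map]
      show φ (v _ μ) = _
      rw [hv]
    · have h2 : vec (map φ (monomial ν (1 : R) * P i)) = 0 := by
        funext μ
        rw [hvec, coeff_map]
        have h3 : (monomial ν (1 : R) * P i).IsHomogeneous (ν.degree + b i) :=
          (isHomogeneous_monomial 1 rfl).mul (hP i)
        rw [h3.coeff_eq_zero (by rw [μ.2]; exact fun h => hd h.symm), map_zero]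
        rfl
      rw [h2]
      exact Submodule.zero_mem _
  have htop : Submodule.span L (Set.range fun p μ => φ (v p μ)) = ⊤ := by
    rw [eq_top_iff, ← (Pi.basisFun L {μ : Fin (m + 1) →₀ ℕ // μ.degree = n}).span_eq, Submodule.span_le]
    rintro _ ⟨μ, rfl⟩
    have h1 := hspan _ (hn μ.1 μ.2)
    have h2 : vec (monomial μ.1 (1 : L)) = Pi.basisFun L {μ : Fin (m + 1) →₀ ℕ // μ.degree = n} μ := by
      funext μ'
      rw [hvec, coeff_monomial, Pi.basisFun_apply, Pi.single_apply]
      by_cases h3 : μ = μ'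
      · subst h3
        rw [if_pos rfl, if_pos rfl]
      · rw [if_neg (fun h => h3 (Subtype.ext h)), if_neg (fun h => h3 h.symm)]
    rw [h2] at h1
    exact h1
  obtain ⟨κ, a, -, hsp, hli⟩ := exists_linearIndependent' L (fun p μ => φ (v p μ))
  obtain ⟨B, hB⟩ : ∃ B : Module.Basis κ L ({μ : Fin (m + 1) →₀ ℕ // μ.degree = n} → L), B = Module.Basis.mk hli (by rw [hsp, htop]) :=
    ⟨_, rfl⟩
  obtain ⟨e⟩ : Nonempty ({μ : Fin (m + 1) →₀ ℕ // μ.degree = n} ≃ κ) :=
    ⟨(Pi.basisFun L {μ : Fin (m + 1) →₀ ℕ // μ.degree = n}).indexEquiv B⟩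
  obtain ⟨A, hA⟩ : ∃ A : Matrix {μ : Fin (m + 1) →₀ ℕ // μ.degree = n} {μ : Fin (m + 1) →₀ ℕ // μ.degree = n} R,
    ∀ μ μ', A μ μ' = v (a (e μ)) μ' := ⟨fun μ μ' => v (a (e μ)) μ', fun _ _ => rfl⟩
  refine ⟨n, A.det, ?_, fun μ hμ => ?_⟩
  · rw [RingHom.map_det]
    have h1 : LinearIndependent L (φ.mapMatrix A).row := by
      have h3 : (φ.mapMatrix A).row = ((fun p μ => φ (v p μ)) ∘ a) ∘ e := by
        funext μ μ'
        show φ (A μ μ') = φ (v (a (e μ)) μ')
        rw [hA]
      rw [h3]
      exact hli.comp e e.injective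
    exact ((Matrix.isUnit_iff_isUnit_det _).1 (Matrix.linearIndependent_rows_iff_isUnit.1 h1)).ne_zero
  · have h1 : monomial μ A.det = ∑ μ', C (A.adjugate ⟨μ, hμ⟩ μ') * (monomial (a (e μ')).1.2 (1 : R) * P (a (e μ')).1.1) := by
      have h2 : ∀ μ', monomial (a (e μ')).1.2 (1 : R) * P (a (e μ')).1.1 =
          ∑ μ'' : {μ : Fin (m + 1) →₀ ℕ // μ.degree = n}, monomial μ''.1 (A μ' μ'') := by
        intro μ'
        have hom : (monomial (a (e μ')).1.2 (1 : R) * P (a (e μ')).1.1).IsHomogeneous n := by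
          have h3 := (isHomogeneous_monomial (R := R) (d := (a (e μ')).1.2) 1 rfl).mul (hP (a (e μ')).1.1)
          rwa [(a (e μ')).2] at h3
        ext ν
        rw [coeff_sum]
        simp only [coeff_monomial]
        by_cases hd : ν.degree = n
        · rw [Finset.sum_eq_single ⟨ν, hd⟩]
          · rw [if_pos rfl, hA, hv]
          · intro μ'' _ hne
            rw [if_neg fun h => hne (Subtype.ext h)]
          · intro h
            exact absurd (Finset.mem_univ _) h
        · rw [hom.coeff_eq_zero hd]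
          refine (Finset.sum_eq_zero fun μ'' _ => ?_).symm
          rw [if_neg]
          rintro rfl
          exact hd μ''.2
      simp only [h2, Finset.mul_sum, C_mul_monomial]
      rw [Finset.sum_comm]
      have h3 : ∀ μ'' : {μ : Fin (m + 1) →₀ ℕ // μ.degree = n},
          ∑ μ', monomial μ''.1 (A.adjugate ⟨μ, hμ⟩ μ' * A μ' μ'') = monomial μ''.1 (if (⟨μ, hμ⟩ : {μ : Fin (m + 1) →₀ ℕ // μ.degree = n}) = μ'' then A.det else 0) := by
        intro μ''
        rw [← map_sum]
        congr 1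
        have h4 := congrFun (congrFun (Matrix.adjugate_mul A) ⟨μ, hμ⟩) μ''
        rw [Matrix.mul_apply, Matrix.smul_apply, Matrix.one_apply, smul_eq_mul, mul_ite, mul_one, mul_zero] at h4
        exact h4
      simp only [h3]
      rw [Finset.sum_eq_single ⟨μ, hμ⟩]
      · rw [if_pos rfl]
      · intro μ'' _ hne
        rw [if_neg (Ne.symm hne), map_zero]
      · intro h
        exact absurd (Finset.mem_univ _) h
    rw [h1]
    exact Submodule.sum_mem _ fun μ' _ => Ideal.mul_mem_left _ _ (Ideal.mul_mem_left _ _ (Ideal.subset_span ⟨_, rfl⟩))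

theorem E1 {R : Type u} {L : Type v} [CommRing R] [Field L] [IsAlgClosed L] (φ : R →+* L) {m : ℕ}
    {ι : Type} [Fintype ι] (p : ι → MvPolynomial (Fin (m + 1)) R) (b : ι → ℕ)
    (hp : ∀ i, (p i).IsHomogeneous (b i))
    (h : ∀ y : Fin (m + 1) → L, (∀ i, eval₂ φ y (p i) = 0) → y = 0) :
    ∃ (g : R) (n : ℕ), φ g ≠ 0 ∧
      ∀ l, C g * (X l : MvPolynomial (Fin (m + 1)) R) ^ n ∈ Ideal.span (Set.range p) := by
  obtain ⟨n, g, h1, h2⟩ := E1_elim φ p b hp fun y hy => h y fun i => by
    have h3 := hy i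
    rwa [eval_map] at h3
  refine ⟨g, n, h1, fun l => ?_⟩
  rw [X_pow_eq_monomial, C_mul_monomial, mul_one]
  exact h2 _ (Finsupp.degree_single l n)

end UVD
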