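import Pool.Agent.Lib.MP_17a322_ntBB.Defs0

/-!
LEAF E2: the bihomogeneous components of an element of the elimination ideal.

`Bi g d d'`: all terms of `g` have degree `d` in `x` and `d'` in `t`.  `comp g d d'`: the component.

PROOF of `comp_mem`.  On `Fm K N m M` let `cmp F d d' = ∑ of the terms of F of degree d in x and d' in t` (weighted homogeneous component for the weight `(1, 0)` of the `x`, `(0, 1)` of the `t`, `(0, 0)` of the `y`;
`MvPolynomial.weightedHomogeneousComponent`, or directly by coefficients: `Finsupp` filter of the support).  It is additive, `cmp (A * P) d d' = cmp A (d - a) (d' - c) * P` if `P` is `Tri P a b c` and `a ≤ d`, `c ≤ d'`, and `0` otherwise (compare the coefficients;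
write `A = ∑ monomials`).  `cmp (rename Sum.inr g * X (Sum.inl l) ^ n) d d' = rename Sum.inr (comp g d d') * X (Sum.inl l) ^ n`.  Apply `cmp` to the relation.
-/

set_option autoImplicit false

universe u

namespace UVD

open MvPolynomial

/-- All terms have degree `d` in `x` and `d'` in `t`. -/
def Bi {K : Type u} [Field K] {N M : ℕ} (g : MvPolynomial (Fin (N + 1) ⊕ Fin (M + 1)) K)
    (d d' : ℕ) : Prop :=
  ∀ μ ∈ g.support, ∑ i, μ (Sum.inl i) = d ∧ ∑ l, μ (Sum.inr l) = d'

/-- The terms of degree `d` in `x` and `d'` in `t`. -/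
noncomputable def comp {K : Type u} [Field K] {N M : ℕ}
    (g : MvPolynomial (Fin (N + 1) ⊕ Fin (M + 1)) K) (d d' : ℕ) :
    MvPolynomial (Fin (N + 1) ⊕ Fin (M + 1)) K :=
  ∑ μ ∈ g.support.filter fun μ => ∑ i, μ (Sum.inl i) = d ∧ ∑ l, μ (Sum.inr l) = d',
    monomial μ (coeff μ g)

private theorem E2_comp_coeff {K : Type u} [Field K] {N M : ℕ}
    (g : MvPolynomial (Fin (N + 1) ⊕ Fin (M + 1)) K) (d d' : ℕ)
    (ν : Fin (N + 1) ⊕ Fin (M + 1) →₀ ℕ) : coeff ν (comp g d d') =
      if ∑ i, ν (Sum.inl i) = d ∧ ∑ l, ν (Sum.inr l) = d' then coeff ν g else 0 := by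
  classical
  unfold comp
  rw [coeff_sum]
  simp only [coeff_monomial]
  rw [Finset.sum_ite_eq']
  simp only [Finset.mem_filter, mem_support_iff]
  by_cases h : ∑ i, ν (Sum.inl i) = d ∧ ∑ l, ν (Sum.inr l) = d'
  · rw [if_pos h]
    by_cases h2 : coeff ν g = 0
    · rw [h2]
      simp
    · rw [if_pos ⟨h2, h⟩]
  · rw [if_neg h, if_neg fun h3 => h h3.2]

/-- the terms with `Q` -/
private noncomputable def E2_H {σ : Type} {K : Type u} [Field K] (Q : (σ →₀ ℕ) → Prop)
    (F : MvPolynomial σ K) : MvPolynomial σ K :=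
  open Classical in ∑ μ ∈ F.support.filter Q, monomial μ (coeff μ F)

open Classical in
private theorem E2_H_coeff {σ : Type} {K : Type u} [Field K] (Q : (σ →₀ ℕ) → Prop)
    (F : MvPolynomial σ K) (ν : σ →₀ ℕ) :
    coeff ν (E2_H Q F) = if Q ν then coeff ν F else 0 := by
  unfold E2_H
  rw [coeff_sum]
  simp only [coeff_monomial]
  rw [Finset.sum_ite_eq']
  simp only [Finset.mem_filter, mem_support_iff]
  by_cases h : Q ν
  · rw [if_pos h]
    by_cases h2 : coeff ν F = 0
    · rw [h2]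
      simp
    · rw [if_pos ⟨h2, h⟩]
  · rw [if_neg h, if_neg fun h3 => h h3.2]

private theorem E2_H_sum {σ ι : Type} {K : Type u} [Field K] (Q : (σ →₀ ℕ) → Prop)
    (s : Finset ι) (F : ι → MvPolynomial σ K) :
    E2_H Q (∑ i ∈ s, F i) = ∑ i ∈ s, E2_H Q (F i) := by
  classical
  ext ν
  rw [E2_H_coeff, coeff_sum, coeff_sum]
  simp only [E2_H_coeff]
  by_cases h : Q ν
  · simp only [if_pos h]
  · simp only [if_neg h, Finset.sum_const_zero]

private theorem E2_H_zero {σ : Type} {K : Type u} [Field K] (Q : (σ →₀ ℕ) → Prop)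
    (F : MvPolynomial σ K) (h : ∀ μ, Q μ → coeff μ F = 0) : E2_H Q F = 0 := by
  classical
  ext ν
  rw [E2_H_coeff, coeff_zero]
  by_cases h2 : Q ν
  · rw [if_pos h2, h ν h2]
  · rw [if_neg h2]

/-- product with a polynomial `P`: `Q α ↔ R (α + β)` for the exponents `β` of `P` -/
private theorem E2_H_mul {σ : Type} {K : Type u} [Field K] (Q R : (σ →₀ ℕ) → Prop)
    (A P : MvPolynomial σ K) (h : ∀ α β, coeff β P ≠ 0 → (R (α + β) ↔ Q α)) :
    E2_H R (A * P) = E2_H Q A * P := by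
  classical
  ext ν
  rw [E2_H_coeff, coeff_mul, coeff_mul]
  have h1 : ∀ z ∈ Finset.HasAntidiagonal.antidiagonal ν, coeff z.1 (E2_H Q A) * coeff z.2 P =
      if R ν then coeff z.1 A * coeff z.2 P else 0 := by
    intro z hz
    rw [Finset.HasAntidiagonal.mem_antidiagonal] at hz
    rw [E2_H_coeff]
    by_cases h2 : coeff z.2 P = 0
    · rw [h2]
      simp
    · have h3 := h z.1 z.2 h2
      rw [hz] at h3
      by_cases h4 : Q z.1
      · rw [if_pos h4, if_pos (h3.2 h4)]
      · rw [if_neg h4, if_neg fun h5 => h4 (h3.1 h5), zero_mul]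
  rw [Finset.sum_congr rfl h1]
  by_cases h2 : R ν
  · simp only [if_pos h2]
  · simp only [if_neg h2, Finset.sum_const_zero]

theorem comp_bi {K : Type u} [Field K] {N M : ℕ}
    (g : MvPolynomial (Fin (N + 1) ⊕ Fin (M + 1)) K) (d d' : ℕ) : Bi (comp g d d') d d' := by
  intro μ hμ
  rw [mem_support_iff, E2_comp_coeff] at hμ
  by_contra h
  exact hμ (if_neg h)

/-- `g` is the sum of its components. -/
theorem comp_sum {K : Type u} [Field K] {N M : ℕ}
    (g : MvPolynomial (Fin (N + 1) ⊕ Fin (M + 1)) K) :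
    ∃ T : Finset (ℕ × ℕ), g = ∑ z ∈ T, comp g z.1 z.2 := by
  classical
  refine ⟨g.support.image fun μ => (∑ i, μ (Sum.inl i), ∑ l, μ (Sum.inr l)), ?_⟩
  ext ν
  rw [coeff_sum]
  have h1 : ∀ z : ℕ × ℕ, coeff ν (comp g z.1 z.2) =
      if (∑ i, ν (Sum.inl i), ∑ l, ν (Sum.inr l)) = z then coeff ν g else 0 := by
    intro z
    rw [E2_comp_coeff]
    by_cases h2 : (∑ i, ν (Sum.inl i), ∑ l, ν (Sum.inr l)) = z
    · rw [if_pos h2, if_pos ⟨congrArg Prod.fst h2, congrArg Prod.snd h2⟩]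
    · rw [if_neg h2, if_neg fun h3 => h2 (Prod.ext h3.1 h3.2)]
  rw [Finset.sum_congr rfl fun z _ => h1 z, Finset.sum_ite_eq]
  by_cases h2 : coeff ν g = 0
  · rw [h2]
    simp
  · rw [if_pos (Finset.mem_image.2 ⟨ν, mem_support_iff.2 h2, rfl⟩)]

theorem comp_mem {K : Type u} [Field K] {N m M : ℕ} {ι : Type} [Fintype ι] (p : ι → Fm K N m M)
    (hp : ∀ i, ∃ a b c, Tri (p i) a b c) (g : MvPolynomial (Fin (N + 1) ⊕ Fin (M + 1)) K)
    (n : ℕ) (l : Fin (m + 1)) (d d' : ℕ)
    (h : rename Sum.inr g * X (Sum.inl l) ^ n ∈ Ideal.span (Set.range p)) :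
    rename Sum.inr (comp g d d') * X (Sum.inl l) ^ n ∈ Ideal.span (Set.range p) := by
  classical
  have hinj : Function.Injective
      (Sum.inr : Fin (N + 1) ⊕ Fin (M + 1) → Fin (m + 1) ⊕ (Fin (N + 1) ⊕ Fin (M + 1))) :=
    Sum.inr_injective
  -- the predicate of the component
  let Q : ℕ → ℕ → (Fin (m + 1) ⊕ (Fin (N + 1) ⊕ Fin (M + 1)) →₀ ℕ) → Prop := fun e e' μ =>
    ∑ i, μ (Sum.inr (Sum.inl i)) = e ∧ ∑ k, μ (Sum.inr (Sum.inr k)) = e'
  have hQ : ∀ e e' μ, Q e e' μ ↔ (∑ i, μ (Sum.inr (Sum.inl i)) = e ∧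
      ∑ k, μ (Sum.inr (Sum.inr k)) = e') := fun _ _ _ => Iff.rfl
  -- the ideal is stable
  have hmem : ∀ F ∈ Ideal.span (Set.range p), E2_H (Q d d') F ∈ Ideal.span (Set.range p) := by
    intro F hF
    obtain ⟨A, rfl⟩ := Ideal.mem_span_range_iff_exists_fun.1 hF
    rw [E2_H_sum]
    refine Submodule.sum_mem _ fun i _ => ?_
    obtain ⟨a, b, c, hT⟩ := hp i
    by_cases hac : a ≤ d ∧ c ≤ d'
    · rw [E2_H_mul (Q (d - a) (d' - c)) (Q d d') (A i) (p i)]
      · exact Ideal.mul_mem_left _ _ (Ideal.subset_span ⟨i, rfl⟩)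
      · intro α β hβ
        obtain ⟨h1, h2, h3⟩ := hT β (mem_support_iff.2 hβ)
        rw [hQ, hQ]
        simp only [Finsupp.add_apply, Finset.sum_add_distrib]
        omega
    · rw [E2_H_zero]
      · exact Ideal.zero_mem _
      · intro μ hμ
        rw [hQ] at hμ
        rw [coeff_mul]
        refine Finset.sum_eq_zero fun z hz => ?_
        rw [Finset.HasAntidiagonal.mem_antidiagonal] at hz
        by_cases h4 : coeff z.2 (p i) = 0
        · rw [h4, mul_zero]
        · exfalso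
          obtain ⟨h1, h2, h3⟩ := hT z.2 (mem_support_iff.2 h4)
          rw [← hz] at hμ
          simp only [Finsupp.add_apply, Finset.sum_add_distrib] at hμ
          omega
  have h1 := hmem _ h
  -- the power of the variable
  have h2 : E2_H (Q d d') (rename Sum.inr g * X (Sum.inl l) ^ n) =
      E2_H (Q d d') (rename Sum.inr g) * X (Sum.inl l) ^ n := by
    refine E2_H_mul (Q d d') (Q d d') _ _ ?_
    intro α β hβ
    have h3 : β = Finsupp.single (Sum.inl l) n := by
      by_contra h4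
      apply hβ
      rw [X_pow_eq_monomial, coeff_monomial, if_neg (Ne.symm h4)]
    rw [hQ, hQ, h3]
    simp only [Finsupp.add_apply, Finset.sum_add_distrib, Finsupp.single_apply]
    simp
  -- renaming
  have h3 : E2_H (Q d d') (rename Sum.inr g) = rename Sum.inr (comp g d d') := by
    ext ν
    rw [E2_H_coeff]
    by_cases h4 : ∃ μ, Finsupp.mapDomain Sum.inr μ = ν
    · obtain ⟨μ, rfl⟩ := h4
      rw [coeff_rename_mapDomain _ hinj, coeff_rename_mapDomain _ hinj, E2_comp_coeff]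
      have h5 : Q d d' (Finsupp.mapDomain Sum.inr μ) ↔
          (∑ i, μ (Sum.inl i) = d ∧ ∑ k, μ (Sum.inr k) = d') := by
        rw [hQ]
        simp only [Finsupp.mapDomain_apply hinj]
      by_cases h6 : Q d d' (Finsupp.mapDomain Sum.inr μ)
      · rw [if_pos h6, if_pos (h5.1 h6)]
      · rw [if_neg h6, if_neg fun h7 => h6 (h5.2 h7)]
    · have h5 : ∀ q : MvPolynomial (Fin (N + 1) ⊕ Fin (M + 1)) K,
          coeff ν (rename (Sum.inr : Fin (N + 1) ⊕ Fin (M + 1) →
            Fin (m + 1) ⊕ (Fin (N + 1) ⊕ Fin (M + 1))) q) = 0 := by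
        intro q
        exact coeff_rename_eq_zero _ _ _ fun u hu => absurd ⟨u, hu⟩ h4
      rw [h5, h5]
      simp
  rw [h2, h3] at h1
  exact h1

end UVD
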