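import Pool.Agent.Lib.MP_17a322_ntBB.E1
import Pool.Agent.Lib.MP_17a322_ntBB.E2

/-!
LEAF E3: the elimination forms.

PROOF.  Let `R = MvPolynomial (Fin (N + 1) ⊕ Fin (M + 1)) K` and let `G` be the set of the `g ∈ R` for which there is `n` with `rename Sum.inr g * X (Sum.inl l) ^ n ∈ Ideal.span (range p)` for all `l`; it is an ideal of `R`
(take the maximum, or the sum, of the exponents) and contains the components `comp g d d'` of its elements (`comp_mem`).  `R` is noetherian: `G = Ideal.span s`, `s` finite; the set `s'` of all the components of the elements of `s`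
(`comp_sum`: finitely many) is a finite subset of `G` which generates `G`.  Let `(g_j, d_j, d'_j, n_j)`, `j` in a finite type, be the elements of `s'` with `Bi g_j d_j d'_j`; let `d ≥ d_j`, `d' ≥ d'_j`, `n ≥ n_j` for all `j`; the forms
`g_j * X (inl i) ^ (d - d_j) * X (inr k) ^ (d' - d'_j)` (all `j, i, k`) are the elimination forms (reindex by `Fintype.equivFin`).
Zeros: let `x, t ≠ 0` over `L` be a common zero of the forms.  As some `x i ≠ 0`, some `t k ≠ 0`, all `g_j (x, t) = 0`, so all elements of `G` vanish at `(x, t)`.  Let `Ω = AlgebraicClosure L` and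
`φ : R →+* Ω`, `φ g = aeval (Sum.elim x t) g` mapped to `Ω`.  Let `p' i = MvPolynomial.sumAlgEquiv K _ _ (p i) : MvPolynomial (Fin (m + 1)) R` (check the direction: the outer variables are the `Sum.inl`), homogeneous of degree `b i`
(`Tri`).  If there were no `y ≠ 0` over `Ω` with `val (p i) x y t = 0` for all `i` then (`eval₂ φ y (p' i) = val (p i) x y t`) `E1` would give `g` with `φ g ≠ 0` and `C g * X l ^ n ∈ Ideal.span (range p')`, that is
`rename Sum.inr g * X (Sum.inl l) ^ n ∈ Ideal.span (range p)` (apply the inverse of `sumAlgEquiv`), so `g ∈ G`: a contradiction.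
-/

set_option autoImplicit false

universe u

namespace UVD

open MvPolynomial

private theorem E3_biX_inl {K : Type u} [Field K] {N M : ℕ} {g : MvPolynomial (Fin (N + 1) ⊕ Fin (M + 1)) K}
    {a b : ℕ} (h : Bi g a b) (i : Fin (N + 1)) : Bi (g * X (Sum.inl i)) (a + 1) b := by
  intro μ hμ
  rw [support_mul_X, Finset.mem_map] at hμ
  obtain ⟨ν, hν, rfl⟩ := hμ
  obtain ⟨h1, h2⟩ := h ν hν
  constructor
  · rw [← h1]
    have h3 : ∀ j : Fin (N + 1), (addRightEmbedding (Finsupp.single (Sum.inl i : Fin (N + 1) ⊕ Fin (M + 1)) 1) ν)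
        (Sum.inl j) = ν (Sum.inl j) + if i = j then 1 else 0 := by
      intro j
      rw [addRightEmbedding_apply, Finsupp.add_apply, Finsupp.single_apply]
      simp only [Sum.inl.injEq]
    rw [Finset.sum_congr rfl fun j _ => h3 j, Finset.sum_add_distrib, Finset.sum_ite_eq,
      if_pos (Finset.mem_univ i)]
  · rw [← h2]
    refine Finset.sum_congr rfl fun j _ => ?_
    rw [addRightEmbedding_apply, Finsupp.add_apply, Finsupp.single_eq_of_ne Sum.inr_ne_inl, add_zero]

private theorem E3_biX_inr {K : Type u} [Field K] {N M : ℕ} {g : MvPolynomial (Fin (N + 1) ⊕ Fin (M + 1)) K}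
    {a b : ℕ} (h : Bi g a b) (i : Fin (M + 1)) : Bi (g * X (Sum.inr i)) a (b + 1) := by
  intro μ hμ
  rw [support_mul_X, Finset.mem_map] at hμ
  obtain ⟨ν, hν, rfl⟩ := hμ
  obtain ⟨h1, h2⟩ := h ν hν
  constructor
  · rw [← h1]
    refine Finset.sum_congr rfl fun j _ => ?_
    rw [addRightEmbedding_apply, Finsupp.add_apply, Finsupp.single_eq_of_ne Sum.inl_ne_inr, add_zero]
  · rw [← h2]
    have h3 : ∀ j : Fin (M + 1), (addRightEmbedding (Finsupp.single (Sum.inr i : Fin (N + 1) ⊕ Fin (M + 1)) 1) ν)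
        (Sum.inr j) = ν (Sum.inr j) + if i = j then 1 else 0 := by
      intro j
      rw [addRightEmbedding_apply, Finsupp.add_apply, Finsupp.single_apply]
      simp only [Sum.inr.injEq]
    rw [Finset.sum_congr rfl fun j _ => h3 j, Finset.sum_add_distrib, Finset.sum_ite_eq,
      if_pos (Finset.mem_univ i)]

private theorem E3_bi_pow {K : Type u} [Field K] {N M : ℕ} {g : MvPolynomial (Fin (N + 1) ⊕ Fin (M + 1)) K}
    {a b : ℕ} (h : Bi g a b) (i : Fin (N + 1)) (k : Fin (M + 1)) (n n' : ℕ) :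
    Bi (g * X (Sum.inl i) ^ n * X (Sum.inr k) ^ n') (a + n) (b + n') := by
  have h1 : ∀ n, Bi (g * X (Sum.inl i) ^ n) (a + n) b := by
    intro n
    induction n with
    | zero => rw [pow_zero, mul_one]; exact h
    | succ n ih =>
      rw [pow_succ, ← mul_assoc, ← add_assoc]
      exact E3_biX_inl ih i
  induction n' with
  | zero => rw [pow_zero, mul_one]; exact h1 n
  | succ n' ih =>
    rw [pow_succ, ← mul_assoc, ← add_assoc]
    exact E3_biX_inr ih k

/-- The elimination ideal. -/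
private noncomputable def E3_G {K : Type u} [Field K] {N m M : ℕ} (I : Ideal (Fm K N m M)) :
    Ideal (MvPolynomial (Fin (N + 1) ⊕ Fin (M + 1)) K) where
  carrier := {g | ∃ n : ℕ, ∀ l : Fin (m + 1), rename Sum.inr g * X (Sum.inl l) ^ n ∈ I}
  add_mem' := by
    rintro a b ⟨n, hn⟩ ⟨n', hn'⟩
    refine ⟨n + n', fun l => ?_⟩
    have h1 : rename Sum.inr (a + b) * (X (Sum.inl l) : Fm K N m M) ^ (n + n') =
        X (Sum.inl l) ^ n' * (rename Sum.inr a * X (Sum.inl l) ^ n) +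
          X (Sum.inl l) ^ n * (rename Sum.inr b * X (Sum.inl l) ^ n') := by
      rw [map_add, pow_add]
      ring
    rw [h1]
    exact I.add_mem (I.mul_mem_left _ (hn l)) (I.mul_mem_left _ (hn' l))
  zero_mem' := by
    refine ⟨0, fun l => ?_⟩
    rw [map_zero, zero_mul]
    exact I.zero_mem
  smul_mem' := by
    rintro c a ⟨n, hn⟩
    refine ⟨n, fun l => ?_⟩
    rw [smul_eq_mul, map_mul, mul_assoc]
    exact I.mul_mem_left _ (hn l)

private theorem E3_mem {K : Type u} [Field K] {N m M : ℕ} {I : Ideal (Fm K N m M)}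
    {g : MvPolynomial (Fin (N + 1) ⊕ Fin (M + 1)) K} :
    g ∈ E3_G I ↔ ∃ n : ℕ, ∀ l : Fin (m + 1), rename Sum.inr g * X (Sum.inl l) ^ n ∈ I := Iff.rfl

private theorem E3_hom {K : Type u} [Field K] {N m M : ℕ} {F : Fm K N m M} {a b c : ℕ} (h : Tri F a b c) :
    (sumAlgEquiv K (Fin (m + 1)) (Fin (N + 1) ⊕ Fin (M + 1)) F).IsHomogeneous b := by
  conv =>
    congr
    rw [F.as_sum]
  rw [map_sum]
  refine IsHomogeneous.sum _ _ _ fun μ hμ => ?_
  rw [← (h μ hμ).2.1, monomial_eq, map_mul, Finsupp.prod_fintype _ _ (fun i => pow_zero _),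
    map_prod, Fintype.prod_sum_type, sumAlgEquiv_C_inl]
  have h1 : (∏ l : Fin (m + 1), sumAlgEquiv K (Fin (m + 1)) (Fin (N + 1) ⊕ Fin (M + 1))
      (X (Sum.inl l) ^ μ (Sum.inl l))).IsHomogeneous (∑ l, μ (Sum.inl l)) := by
    refine IsHomogeneous.prod _ _ _ fun l _ => ?_
    rw [map_pow, sumAlgEquiv_X_inl]
    have h2 := (isHomogeneous_X (MvPolynomial (Fin (N + 1) ⊕ Fin (M + 1)) K) l).pow (μ (Sum.inl l))
    rw [one_mul] at h2
    exact h2
  have h2 : (∏ q : Fin (N + 1) ⊕ Fin (M + 1), sumAlgEquiv K (Fin (m + 1)) (Fin (N + 1) ⊕ Fin (M + 1))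
      (X (Sum.inr q) ^ μ (Sum.inr q))).IsHomogeneous 0 := by
    have h3 : (∏ q : Fin (N + 1) ⊕ Fin (M + 1), sumAlgEquiv K (Fin (m + 1)) (Fin (N + 1) ⊕ Fin (M + 1))
        (X (Sum.inr q) ^ μ (Sum.inr q))) = C (∏ q, X q ^ μ (Sum.inr q)) := by
      rw [map_prod]
      refine Finset.prod_congr rfl fun q _ => ?_
      rw [map_pow, map_pow, sumAlgEquiv_X_inr]
    rw [h3]
    exact isHomogeneous_C _ _
  have h3 := (isHomogeneous_C (Fin (m + 1)) (C (coeff μ F) : MvPolynomial (Fin (N + 1) ⊕ Fin (M + 1)) K)).mul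
    (h1.mul h2)
  rw [add_zero, zero_add] at h3
  exact h3

private theorem E3_val {K : Type u} [Field K] {N m M : ℕ} (F : Fm K N m M) {L : Type u} [Field L] [Algebra K L]
    (x : Fin (N + 1) → L) (t : Fin (M + 1) → L) (y : Fin (m + 1) → AlgebraicClosure L) :
    eval₂ ((algebraMap L (AlgebraicClosure L)).comp
        (aeval (Sum.elim x t) : MvPolynomial (Fin (N + 1) ⊕ Fin (M + 1)) K →ₐ[K] L).toRingHom) y
      (sumAlgEquiv K (Fin (m + 1)) (Fin (N + 1) ⊕ Fin (M + 1)) F) =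
      val F (fun i => algebraMap L (AlgebraicClosure L) (x i)) y
        (fun k => algebraMap L (AlgebraicClosure L) (t k)) := by
  have h1 : (eval₂Hom ((algebraMap L (AlgebraicClosure L)).comp
      (aeval (Sum.elim x t) : MvPolynomial (Fin (N + 1) ⊕ Fin (M + 1)) K →ₐ[K] L).toRingHom) y).comp
      (sumAlgEquiv K (Fin (m + 1)) (Fin (N + 1) ⊕ Fin (M + 1))).toAlgHom.toRingHom =
      (aeval (Sum.elim y (Sum.elim (fun i => algebraMap L (AlgebraicClosure L) (x i))
        (fun k => algebraMap L (AlgebraicClosure L) (t k)))) : Fm K N m M →ₐ[K] AlgebraicClosure L).toRingHom := by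
    refine ringHom_ext (fun c => ?_) (fun q => ?_)
    · change eval₂Hom _ y (sumAlgEquiv K (Fin (m + 1)) (Fin (N + 1) ⊕ Fin (M + 1)) (C c)) =
        aeval _ (C c : Fm K N m M)
      rw [sumAlgEquiv_C_inl, eval₂Hom_C, aeval_C]
      change algebraMap L (AlgebraicClosure L) (aeval (Sum.elim x t) (C c)) = _
      rw [aeval_C, ← IsScalarTower.algebraMap_apply]
    · rcases q with l | q
      · change eval₂Hom _ y (sumAlgEquiv K (Fin (m + 1)) (Fin (N + 1) ⊕ Fin (M + 1)) (X (Sum.inl l))) =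
          aeval _ (X (Sum.inl l) : Fm K N m M)
        rw [sumAlgEquiv_X_inl, eval₂Hom_X', aeval_X, Sum.elim_inl]
      · change eval₂Hom _ y (sumAlgEquiv K (Fin (m + 1)) (Fin (N + 1) ⊕ Fin (M + 1)) (X (Sum.inr q))) =
          aeval _ (X (Sum.inr q) : Fm K N m M)
        rw [sumAlgEquiv_X_inr, eval₂Hom_C, aeval_X, Sum.elim_inr]
        change algebraMap L (AlgebraicClosure L) (aeval (Sum.elim x t) (X q)) = _
        rw [aeval_X]
        rcases q with i | k
        · rfl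
        · rfl
  exact RingHom.congr_fun h1 F

private theorem E3_back {K : Type u} [Field K] {N m M : ℕ} {ι : Type} (p : ι → Fm K N m M)
    (g : MvPolynomial (Fin (N + 1) ⊕ Fin (M + 1)) K) (n : ℕ) (l : Fin (m + 1))
    (h : C g * (X l : MvPolynomial (Fin (m + 1)) (MvPolynomial (Fin (N + 1) ⊕ Fin (M + 1)) K)) ^ n ∈
      Ideal.span (Set.range fun i => sumAlgEquiv K (Fin (m + 1)) (Fin (N + 1) ⊕ Fin (M + 1)) (p i))) :
    rename Sum.inr g * X (Sum.inl l) ^ n ∈ Ideal.span (Set.range p) := by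
  have h1 : (Set.range fun i => sumAlgEquiv K (Fin (m + 1)) (Fin (N + 1) ⊕ Fin (M + 1)) (p i)) =
      (sumAlgEquiv K (Fin (m + 1)) (Fin (N + 1) ⊕ Fin (M + 1))) '' Set.range p := by
    rw [← Set.range_comp]
    rfl
  rw [h1, ← Ideal.map_span, Ideal.mem_map_of_equiv] at h
  obtain ⟨z, hz, h2⟩ := h
  have h3 : sumAlgEquiv K (Fin (m + 1)) (Fin (N + 1) ⊕ Fin (M + 1)) (rename Sum.inr g) = C g :=
    AlgHom.congr_fun (sumAlgEquiv_comp_rename_inr K (Fin (m + 1)) (Fin (N + 1) ⊕ Fin (M + 1))) g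
  have h4 : z = rename Sum.inr g * X (Sum.inl l) ^ n := by
    apply (sumAlgEquiv K (Fin (m + 1)) (Fin (N + 1) ⊕ Fin (M + 1))).injective
    rw [h2, map_mul, map_pow, sumAlgEquiv_X_inl, h3]
  rw [← h4]
  exact hz

theorem E3 {K : Type u} [Field K] {N m M : ℕ} {ι : Type} [Fintype ι] (p : ι → Fm K N m M)
    (hp : ∀ i, ∃ a b c, Tri (p i) a b c) :
    ∃ (d d' n r : ℕ) (g : Fin r → MvPolynomial (Fin (N + 1) ⊕ Fin (M + 1)) K),
      (∀ j, Bi (g j) d d') ∧
      (∀ j l, rename Sum.inr (g j) * X (Sum.inl l) ^ n ∈ Ideal.span (Set.range p)) ∧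
      ∀ (L : Type u) [Field L] [Algebra K L] (x : Fin (N + 1) → L) (t : Fin (M + 1) → L),
        x ≠ 0 → t ≠ 0 → (∀ j, aeval (Sum.elim x t) (g j) = 0) →
        ∃ y : Fin (m + 1) → AlgebraicClosure L, y ≠ 0 ∧
          ∀ i, val (p i) (fun i => algebraMap L (AlgebraicClosure L) (x i)) y
            (fun k => algebraMap L (AlgebraicClosure L) (t k)) = 0 := by
  classical
  obtain ⟨s, hs⟩ : (E3_G (Ideal.span (Set.range p))).FG := IsNoetherian.noetherian _
  choose T hT using fun a : MvPolynomial (Fin (N + 1) ⊕ Fin (M + 1)) K => comp_sum a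
  have hsG : ∀ a : {a // a ∈ s}, ∃ n : ℕ, ∀ l : Fin (m + 1),
      rename Sum.inr a.1 * X (Sum.inl l) ^ n ∈ Ideal.span (Set.range p) := by
    intro a
    rw [← E3_mem, ← hs]
    exact Ideal.subset_span a.2
  choose e he using hsG
  let J := Σ a : {a // a ∈ s}, {z // z ∈ T a.1}
  let d := Finset.univ.sup fun j : J => j.2.1.1
  let d' := Finset.univ.sup fun j : J => j.2.1.2
  let n := Finset.univ.sup fun j : J => e j.1
  have hd : ∀ j : J, j.2.1.1 ≤ d := fun j => Finset.le_sup (f := fun j : J => j.2.1.1) (Finset.mem_univ j)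
  have hd' : ∀ j : J, j.2.1.2 ≤ d' := fun j => Finset.le_sup (f := fun j : J => j.2.1.2) (Finset.mem_univ j)
  have hn : ∀ j : J, e j.1 ≤ n := fun j => Finset.le_sup (f := fun j : J => e j.1) (Finset.mem_univ j)
  let Q := J × Fin (N + 1) × Fin (M + 1)
  let G : Q → MvPolynomial (Fin (N + 1) ⊕ Fin (M + 1)) K := fun q =>
    comp q.1.1.1 q.1.2.1.1 q.1.2.1.2 * X (Sum.inl q.2.1) ^ (d - q.1.2.1.1) * X (Sum.inr q.2.2) ^ (d' - q.1.2.1.2)
  refine ⟨d, d', n, Fintype.card Q, fun r => G ((Fintype.equivFin Q).symm r), fun r => ?_, fun r l => ?_, ?_⟩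
  · set q := (Fintype.equivFin Q).symm r with hq
    have h1 := E3_bi_pow (comp_bi q.1.1.1 q.1.2.1.1 q.1.2.1.2) q.2.1 q.2.2 (d - q.1.2.1.1) (d' - q.1.2.1.2)
    rw [Nat.add_sub_cancel' (hd q.1), Nat.add_sub_cancel' (hd' q.1)] at h1
    exact h1
  · set q := (Fintype.equivFin Q).symm r with hq
    have h1 := comp_mem p hp q.1.1.1 (e q.1.1) l q.1.2.1.1 q.1.2.1.2 (he q.1.1 l)
    have h2 : rename Sum.inr (G q) * (X (Sum.inl l) : Fm K N m M) ^ n =
        (rename Sum.inr (X (Sum.inl q.2.1) ^ (d - q.1.2.1.1) * X (Sum.inr q.2.2) ^ (d' - q.1.2.1.2)) *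
          X (Sum.inl l) ^ (n - e q.1.1)) *
          (rename Sum.inr (comp q.1.1.1 q.1.2.1.1 q.1.2.1.2) * X (Sum.inl l) ^ e q.1.1) := by
      have h3 : (X (Sum.inl l) : Fm K N m M) ^ n = X (Sum.inl l) ^ (n - e q.1.1) * X (Sum.inl l) ^ e q.1.1 := by
        rw [← pow_add, Nat.sub_add_cancel (hn q.1)]
      change rename Sum.inr (comp q.1.1.1 q.1.2.1.1 q.1.2.1.2 * X (Sum.inl q.2.1) ^ (d - q.1.2.1.1) *
        X (Sum.inr q.2.2) ^ (d' - q.1.2.1.2)) * (X (Sum.inl l) : Fm K N m M) ^ n = _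
      rw [h3, mul_assoc (comp q.1.1.1 q.1.2.1.1 q.1.2.1.2), map_mul]
      ring
    rw [h2]
    exact Ideal.mul_mem_left _ _ h1
  · intro L _ _ x t hx ht hz
    obtain ⟨i₀, hi₀⟩ := Function.ne_iff.1 hx
    obtain ⟨k₀, hk₀⟩ := Function.ne_iff.1 ht
    have h1 : ∀ j : J, aeval (Sum.elim x t) (comp j.1.1 j.2.1.1 j.2.1.2) = 0 := by
      intro j
      have h2 := hz (Fintype.equivFin Q (j, i₀, k₀))
      change aeval (Sum.elim x t) (G ((Fintype.equivFin Q).symm (Fintype.equivFin Q (j, i₀, k₀)))) = 0 at h2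
      rw [Equiv.symm_apply_apply] at h2
      change aeval (Sum.elim x t) (comp j.1.1 j.2.1.1 j.2.1.2 * X (Sum.inl i₀) ^ (d - j.2.1.1) *
        X (Sum.inr k₀) ^ (d' - j.2.1.2)) = 0 at h2
      rw [map_mul, map_mul, map_pow, map_pow, aeval_X, aeval_X, Sum.elim_inl, Sum.elim_inr] at h2
      exact (mul_eq_zero.1 ((mul_eq_zero.1 h2).resolve_right (pow_ne_zero _ hk₀))).resolve_right
        (pow_ne_zero _ hi₀)
    have h2 : ∀ a ∈ s, aeval (Sum.elim x t) a = 0 := by
      intro a ha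
      rw [hT a, map_sum]
      exact Finset.sum_eq_zero fun z hz => h1 ⟨⟨a, ha⟩, ⟨z, hz⟩⟩
    have h3 : ∀ g ∈ E3_G (Ideal.span (Set.range p)), aeval (Sum.elim x t) g = 0 := by
      intro g hg
      have h4 : Ideal.span (s : Set (MvPolynomial (Fin (N + 1) ⊕ Fin (M + 1)) K)) ≤
          RingHom.ker (aeval (Sum.elim x t) : MvPolynomial (Fin (N + 1) ⊕ Fin (M + 1)) K →ₐ[K] L) :=
        Ideal.span_le.2 fun a ha => h2 a ha
      rw [← hs] at hg
      exact h4 hg
    by_contra hcon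
    push Not at hcon
    choose a b c hTri using hp
    obtain ⟨g, n', hg, hg'⟩ := E1 ((algebraMap L (AlgebraicClosure L)).comp
      (aeval (Sum.elim x t) : MvPolynomial (Fin (N + 1) ⊕ Fin (M + 1)) K →ₐ[K] L).toRingHom)
      (fun i => sumAlgEquiv K (Fin (m + 1)) (Fin (N + 1) ⊕ Fin (M + 1)) (p i)) b (fun i => E3_hom (hTri i))
      (fun y hy => by
        by_contra hy0
        obtain ⟨i, hi⟩ := hcon y hy0
        apply hi
        rw [← E3_val]
        exact hy i)
    apply hg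
    change algebraMap L (AlgebraicClosure L) (aeval (Sum.elim x t) g) = 0
    rw [h3 g (E3_mem.2 ⟨n', fun l => E3_back p g n' l (hg' l)⟩), map_zero]

end UVD
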