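import Pool.Agent.Lib.MP_17a322_ntBB.Defs

/-!
The elimination forms vanish on the image.
-/

set_option autoImplicit false

universe u

namespace UVD

open MvPolynomial
open Pool.Agent.Lib.MP_17a322_nt.VA

/-- The elimination forms vanish on the image. -/
theorem Im_zero {K : Type u} [Field K] {N m M κ r n : ℕ} {q : Fin κ → Fm K N m M}
    {e : Fin r → Fm K N m M} {g : MvPolynomial (Fin (N + 1) ⊕ Fin (M + 1)) K}
    (hA : ∀ l, rename Sum.inr g * X (Sum.inl l) ^ n ∈ Ideal.span (Set.range (Sum.elim q e)))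
    {L : Type u} [Field L] [Algebra K L] {x : Fin (N + 1) → L} {t : Fin (M + 1) → L}
    (h : Im q e x t) : aeval (Sum.elim x t) g = 0 := by
  obtain ⟨y, hy, hq, he⟩ := h
  obtain ⟨l, hl⟩ := Function.ne_iff.1 hy
  obtain ⟨z, hz⟩ : ∃ z : Fin (m + 1) ⊕ (Fin (N + 1) ⊕ Fin (M + 1)) → AlgebraicClosure L,
      z = Sum.elim y (Sum.elim (fun i => algebraMap L (AlgebraicClosure L) (x i))
        fun k => algebraMap L (AlgebraicClosure L) (t k)) := ⟨_, rfl⟩
  have h1 : Ideal.span (Set.range (Sum.elim q e)) ≤ RingHom.ker (aeval (R := K) z) := by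
    rw [Ideal.span_le, hz]
    rintro _ ⟨i, rfl⟩
    rcases i with j | j
    · exact hq j
    · exact he j
  have h2 : aeval (R := K) z (rename Sum.inr g * X (Sum.inl l) ^ n) = 0 := h1 (hA l)
  rw [map_mul, map_pow, aeval_X, aeval_rename] at h2
  have h3 : z (Sum.inl l) ≠ 0 := by
    rw [hz]
    exact hl
  have h4 : aeval (R := K) (z ∘ Sum.inr) g = 0 :=
    (mul_eq_zero.1 h2).resolve_right (pow_ne_zero n h3)
  have h5 : z ∘ Sum.inr = fun s => algebraMap L (AlgebraicClosure L) (Sum.elim x t s) := by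
    rw [hz]
    funext s
    rcases s with s | s <;> rfl
  rw [h5] at h4
  have h6 : aeval (R := K) (fun s => algebraMap L (AlgebraicClosure L) (Sum.elim x t s)) g =
      algebraMap L (AlgebraicClosure L) (aeval (Sum.elim x t) g) :=
    aeval_algebraMap_apply (AlgebraicClosure L) (Sum.elim x t) g
  rw [h6] at h4
  exact (map_eq_zero (algebraMap L (AlgebraicClosure L))).1 h4

theorem TrX_Tr {K : Type u} [Field K] {N m M κ s n s' : ℕ} {A B : AV K N} (hB : IsSubAV B A)
    (P : A.Pts K) (t : Fin (M + 1) → K) {q : Fin κ → Fm K N m M} {f : Fin s → Fm K N m M}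
    {F : Fin s' → MvPolynomial (Fin (N + 1) ⊕ Fin (M + 1)) K}
    (hA : ∀ j l, rename Sum.inr (F j) * X (Sum.inl l) ^ n ∈
      Ideal.span (Set.range (Sum.elim q f)))
    (h : TrX hB P t q f) : ∀ j, Pool.Agent.Lib.MP_17a322_nt.FU.Tr hB P t (F j) :=
  fun j L _ _ b => Im_zero (hA j) (h L b)

theorem BadX_Bad {K : Type u} [Field K] {N m M κ s n s' : ℕ} {A B : AV K N} (hB : IsSubAV B A)
    (P : A.Pts K) (t : Fin (M + 1) → K) {q : Fin κ → Fm K N m M} {e : Fin s → Fm K N m M}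
    {g : Fin s' → MvPolynomial (Fin (N + 1) ⊕ Fin (M + 1)) K}
    (hA : ∀ j l, rename Sum.inr (g j) * X (Sum.inl l) ^ n ∈
      Ideal.span (Set.range (Sum.elim q e)))
    (h : BadX hB P t q e) : Pool.Agent.Lib.MP_17a322_nt.FU.Bad hB P t g := by
  obtain ⟨L, i1, i2, b, h1, h2⟩ := h
  exact ⟨L, i1, i2, b, fun j => Im_zero (hA j) h1, h2⟩

end UVD
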