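import Pool.Agent.Lib.MP_17a322_ntBB.Defs

/-!
Closures of graphs of rational maps and ramification: definitions.
-/

universe u

namespace UVD

open MvPolynomial
open Pool.Agent.Lib.MP_17a322_nt.VA

/-- The polynomial `F(x, y, t)` in `y` and `x` for the parameter `t`. -/
noncomputable def sp {K : Type u} [Field K] {N m M : ℕ} (F : Fm K N m M) (t : Fin (M + 1) → K) :
    MvPolynomial (Fin (m + 1) ⊕ Fin (N + 1)) K :=
  aeval (Sum.elim (fun l => X (Sum.inl l)) (Sum.elim (fun i => X (Sum.inr i)) fun k => C (t k))) F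

/-- The polynomial `G(x, s(x))`. -/
noncomputable def onG {K : Type u} [Field K] {N m : ℕ} (s : Fin (m + 1) → MvPolynomial (Fin (N + 1)) K)
    (G : MvPolynomial (Fin (m + 1) ⊕ Fin (N + 1)) K) : MvPolynomial (Fin (N + 1)) K :=
  aeval (Sum.elim s X) G

/-- The closed subscheme `X_t` of `A × ℙ^m` with the equations `q(x, y, t) = 0` is the closure of the
graph of the rational map `[s_0 : ... : s_m]` from `A` to `ℙ^m` (the `s_l` are forms of degree `δ`):
the `q_j` vanish on the graph, and every bihomogeneous polynomial `G(x, y)` which vanishes on the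
graph lies, after multiplication by powers of the coordinates, in the ideal of the `q_j` and `A`. -/
structure Graph {K : Type u} [Field K] {N m M : ℕ} (A : AV K N) {κ : ℕ} (q : Fin κ → Fm K N m M)
    (t : Fin (M + 1) → K) (s : Fin (m + 1) → MvPolynomial (Fin (N + 1)) K) (δ : ℕ) : Prop where
  hom : ∀ l, (s l).IsHomogeneous δ
  ne : ∃ l, s l ∉ A.I
  on : ∀ j, onG s (sp (q j) t) ∈ A.I
  all : ∀ (G : MvPolynomial (Fin (m + 1) ⊕ Fin (N + 1)) K) (a b : ℕ),
    (∀ μ ∈ G.support, ∑ i, μ (Sum.inr i) = a ∧ ∑ l, μ (Sum.inl l) = b) → onG s G ∈ A.I →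
    ∃ n : ℕ, ∀ i l, X (Sum.inr i) ^ n * X (Sum.inl l) ^ n * G ∈
      Ideal.span (Set.range fun j => sp (q j) t) ⊔
        A.I.map (rename (R := K) (σ := Fin (N + 1)) (Sum.inr : _ → Fin (m + 1) ⊕ Fin (N + 1)))

/-- All the `m × m` minors of the matrix `(∂ q_j / ∂ y_l)` vanish at `(x, y)` for the parameter `t`: the
projection of `X_t` to `ℙ^N` is ramified at the point `(x, y)`. -/
def Ram {K : Type u} [Field K] {N m M κ : ℕ} (q : Fin κ → Fm K N m M) {L : Type u} [Field L]
    [Algebra K L] (x : Fin (N + 1) → L) (y : Fin (m + 1) → L) (t : Fin (M + 1) → L) : Prop :=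
  ∀ (ρ : Fin m → Fin κ) (γ : Fin m → Fin (m + 1)),
    (Matrix.of fun i j => val (pderiv (Sum.inl (γ j)) (q (ρ i))) x y t).det = 0

/-- The projection of `X_t` to `A` is ramified at all points of `E_t`. -/
def InRam {K : Type u} [Field K] {N m M : ℕ} (A : AV K N) {κ r : ℕ} (q : Fin κ → Fm K N m M)
    (e : Fin r → Fm K N m M) (t : Fin (M + 1) → K) : Prop :=
  ∀ (L : Type u) [Field L] [Algebra K L] (P : A.Pts L) (y : Fin (m + 1) → L), y ≠ 0 →
    (∀ j, val (q j) (A.x P) y (fun k => algebraMap K L (t k)) = 0) →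
    (∀ j, val (e j) (A.x P) y (fun k => algebraMap K L (t k)) = 0) →
    Ram q (A.x P) y fun k => algebraMap K L (t k)

/-- `X_t` is the closure of the graph of a rational map from `A` to `ℙ^m`, the projection of `X_t` to
`A` is ramified at all points of `E_t`, and `D_t` does not contain `X_t`. -/
def Bir {K : Type u} [Field K] {N m M : ℕ} (A : AV K N) {κ r s : ℕ} (q : Fin κ → Fm K N m M)
    (e : Fin r → Fm K N m M) (f : Fin s → Fm K N m M) (t : Fin (M + 1) → K) : Prop :=
  ∃ (δ : ℕ) (p : Fin (m + 1) → MvPolynomial (Fin (N + 1)) K), Graph A q t p δ ∧ InRam A q e t ∧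
    ∃ j, onG p (sp (f j) t) ∉ A.I

end UVD
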