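import Pool.Agent.Lib.MP_17a322_ntBB.K0
import Pool.Agent.Lib.MP_17a322_ntZF.VP

/-!
LEAF K1: a rational map from `A` to `ℙ^m` is defined at the points of codimension at most one.

PROOF.  For `l, l'` write `l ≤ l'` if there are forms `c, d` of one degree with `aeval (A.x x) d ≠ 0` and `s l * d - s l' * c ∈ A.I`.  By `UVZ.VP` (`a = s l`, `b = s l'`) `l ≤ l'` or `l' ≤ l`; `≤` is reflexive (`c = d = 1`, degree `0`) and transitive
(`s l * d = s l' * c`, `s l' * d' = s l'' * c'`: `s l * (d d') = s l'' * (c c')` mod `A.I`; `aeval` of a product).  So a finite nonempty set of indices has a largest element; take `l0` largest in `univ` (induction on the finite set, or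
`Finset.exists_maximal` for the total preorder).  `s l0 ∉ A.I`: otherwise `s l * d ∈ A.I` for all `l` with `d ∉ A.I` (`A.x_isPt` and `aeval d ≠ 0`) and `A.I` is prime (`Z_prime`), so all `s l ∈ A.I`, contradiction.  With `c_l, d_l` for `l ≤ l0` let
`σ = ∏ l, d_l` and `c l = c_l * ∏ l' ≠ l, d_l'` (forms of degree `∑ D_l`).
-/

set_option autoImplicit false

universe u

namespace UVD

open MvPolynomial
open Pool.Agent.Lib.MP_17a322_nt.VA

/-- A finite nonempty set with a total transitive relation has a largest element. -/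
private lemma K1_max {ι : Type*} (R : ι → ι → Prop) (ht : ∀ a b, R a b ∨ R b a)
    (htr : ∀ a b c, R a b → R b c → R a c) (S : Finset ι) (hS : S.Nonempty) :
    ∃ l₀ ∈ S, ∀ l ∈ S, R l l₀ := by
  classical
  induction hS using Finset.Nonempty.cons_induction with
  | singleton a =>
    refine ⟨a, Finset.mem_singleton_self a, fun l hl => ?_⟩
    rw [Finset.mem_singleton] at hl
    subst hl
    exact (ht l l).elim id id
  | cons a s ha hs ih =>
    obtain ⟨l₀, h0, h1⟩ := ih
    rcases ht a l₀ with h | h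
    · refine ⟨l₀, Finset.mem_cons.2 (Or.inr h0), fun l hl => ?_⟩
      rcases Finset.mem_cons.1 hl with rfl | hl
      · exact h
      · exact h1 l hl
    · refine ⟨a, Finset.mem_cons.2 (Or.inl rfl), fun l hl => ?_⟩
      rcases Finset.mem_cons.1 hl with rfl | hl
      · exact (ht l l).elim id id
      · exact htr _ _ _ (h1 l hl) h

theorem K1 {K : Type u} [Field K] [NumberField K] {N m : ℕ} (A : AV K N) {L : Type u} [Field L]
    [Algebra K L] (x : A.Pts L)
    (hx : ∀ (L' : Type u) [Field L'] [Algebra K L'] (p : A.Pts L'),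
      tdeg K (A.x p) ≤ tdeg K (A.x x) + 1)
    {D : ℕ} (s : Fin (m + 1) → MvPolynomial (Fin (N + 1)) K) (hs : ∀ l, (s l).IsHomogeneous D)
    (h0 : ∃ l, s l ∉ A.I) :
    ∃ (l₀ : Fin (m + 1)) (D' : ℕ) (σ : MvPolynomial (Fin (N + 1)) K)
      (c : Fin (m + 1) → MvPolynomial (Fin (N + 1)) K), σ.IsHomogeneous D' ∧
      (∀ l, (c l).IsHomogeneous D') ∧ aeval (A.x x) σ ≠ 0 ∧ s l₀ ∉ A.I ∧
      ∀ l, s l * σ - s l₀ * c l ∈ A.I := by
  classical
  have hpr : A.I.IsPrime := by
    have h := A.prime K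
    have h1 : MvPolynomial.map (σ := Fin (N + 1)) (algebraMap K K) = RingHom.id _ := by
      refine RingHom.ext fun p => ?_
      rw [Algebra.algebraMap_self, MvPolynomial.map_id, RingHom.id_apply]
    rwa [h1, Ideal.map_id] at h
  have hxI : ∀ f ∈ A.I, aeval (A.x x) f = 0 := fun f hf => x.2 f hf
  obtain ⟨l₀, -, hmax⟩ := K1_max
    (fun l l' : Fin (m + 1) => ∃ (D' : ℕ) (c d : MvPolynomial (Fin (N + 1)) K),
      c.IsHomogeneous D' ∧ d.IsHomogeneous D' ∧ aeval (A.x x) d ≠ 0 ∧ s l * d - s l' * c ∈ A.I)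
    (by
      intro l l'
      obtain ⟨D', c, d, hc, hd, hne, h | h⟩ := UVZ.VP A x hx (s l) (s l') (hs l) (hs l')
      · exact Or.inl ⟨D', c, d, hc, hd, hne, h⟩
      · exact Or.inr ⟨D', c, d, hc, hd, hne, h⟩)
    (by
      rintro l l' l'' ⟨D₁, c, d, hc, hd, hne, h⟩ ⟨D₂, c', d', hc', hd', hne', h'⟩
      refine ⟨D₁ + D₂, c * c', d * d', hc.mul hc', hd.mul hd', ?_, ?_⟩
      · rw [map_mul]
        exact mul_ne_zero hne hne'
      · have h3 : s l * (d * d') - s l'' * (c * c') =
            (s l * d - s l' * c) * d' + (s l' * d' - s l'' * c') * c := by ring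
        rw [h3]
        exact A.I.add_mem (A.I.mul_mem_right _ h) (A.I.mul_mem_right _ h'))
    Finset.univ Finset.univ_nonempty
  have hmax' := fun l : Fin (m + 1) => hmax l (Finset.mem_univ l)
  choose Dl c d hc hd hne hmem using hmax'
  refine ⟨l₀, ∑ l, Dl l, ∏ l, d l, fun l => c l * ∏ l' ∈ Finset.univ.erase l, d l', ?_, ?_, ?_, ?_,
    ?_⟩
  · exact MvPolynomial.IsHomogeneous.prod _ _ _ fun l _ => hd l
  · intro l
    have h1 := (hc l).mul (MvPolynomial.IsHomogeneous.prod (Finset.univ.erase l) d Dl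
      fun l' _ => hd l')
    rwa [Finset.add_sum_erase Finset.univ Dl (Finset.mem_univ l)] at h1
  · rw [map_prod]
    exact Finset.prod_ne_zero_iff.2 fun l _ => hne l
  · intro hl0
    obtain ⟨l, hl⟩ := h0
    have h1 : s l * d l ∈ A.I := by
      have h2 := A.I.add_mem (hmem l) (A.I.mul_mem_right (c l) hl0)
      rwa [sub_add_cancel] at h2
    rcases hpr.mem_or_mem h1 with h2 | h2
    · exact hl h2
    · exact hne l (hxI _ h2)
  · intro l
    rw [← Finset.mul_prod_erase Finset.univ d (Finset.mem_univ l)]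
    have h3 : s l * (d l * ∏ l' ∈ Finset.univ.erase l, d l') -
        s l₀ * (c l * ∏ l' ∈ Finset.univ.erase l, d l') =
        (s l * d l - s l₀ * c l) * ∏ l' ∈ Finset.univ.erase l, d l' := by ring
    rw [h3]
    exact A.I.mul_mem_right _ (hmem l)

end UVD
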