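import Mathlib

/-!
LEAF K2: a nonzero minor.

PROOF.  The rows `r k` span `Fin m → F` (the unit vectors do, `Pi.basisFun`); a family of vectors that spans contains a basis: `exists_linearIndependent F (Set.range r)` gives `b ⊆ range r` linearly independent with the same span, so `b` is a basis
of `Fin m → F`, `b` has `m` elements (`Basis.mk`, `Module.finrank_eq_card_basis`, `Module.finrank_fin_fun`), choose a bijection `Fin m ≃ b` and preimages `ρ i` with `r (ρ i) = ` the `i`-th element of `b`.  The rows of the square matrix are linearly independent, so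
its determinant is nonzero (`Matrix.linearIndependent_rows_iff_isUnit`, `Matrix.isUnit_iff_isUnit_det`).
-/

set_option autoImplicit false

namespace UVD

theorem K2 {F : Type*} [Field F] {κ m : ℕ} (r : Fin κ → Fin m → F)
    (h : ∀ i : Fin m, (Pi.single i 1 : Fin m → F) ∈ Submodule.span F (Set.range r)) :
    ∃ ρ : Fin m → Fin κ, (Matrix.of fun i j => r (ρ i) j).det ≠ 0 := by
  classical
  have ht : Submodule.span F (Set.range r) = ⊤ := by
    rw [eq_top_iff]
    intro v _
    rw [pi_eq_sum_univ' v]
    exact Submodule.sum_mem _ fun i _ => Submodule.smul_mem _ _ (h i)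
  obtain ⟨b, hb, hs, hl⟩ := exists_linearIndependent F (Set.range r)
  rw [ht] at hs
  have hfin : b.Finite := (Set.finite_range r).subset hb
  let _ : Fintype b := hfin.fintype
  let B : Module.Basis b F (Fin m → F) := Module.Basis.mk hl (by rw [Subtype.range_coe, hs])
  have hc : Fintype.card b = m := by
    rw [← Module.finrank_eq_card_basis B, Module.finrank_fin_fun]
  let e : Fin m ≃ b := (Fintype.equivFinOfCardEq hc).symm
  choose ρ hρ using fun i : Fin m => hb (e i).2
  refine ⟨ρ, ?_⟩
  have h1 : LinearIndependent F (Matrix.of fun i j => r (ρ i) j).row := by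
    have h2 : (Matrix.of fun i j => r (ρ i) j).row = fun i => ((e i : b) : Fin m → F) := by
      funext i
      exact hρ i
    rw [h2]
    exact hl.comp e e.injective
  exact ((Matrix.isUnit_iff_isUnit_det _).1
    (Matrix.linearIndependent_rows_iff_isUnit.1 h1)).ne_zero

end UVD
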