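import Pool.Agent.Lib.MP_17a322_ntBB.K1
import Pool.Agent.Lib.MP_17a322_ntBB.K2

/-!
LEAF K3: the image of the ramification locus has codimension at least two.

PROOF.  Suppose the contrary: there are `L`, `P : A.Pts L` with `Im q e (A.x P) t` and `tdeg K (A.x Q) ≤ tdeg K (A.x P) + 1` for all points `Q` over all fields.  Let `Ω = AlgebraicClosure L`, `y : Fin (m + 1) → Ω` the point of `Im`, and `P' = A.img φ P` (`φ : L →ₐ[K] Ω`,
`IsScalarTower.toAlgHom`); its coordinates are proportional to the image of `A.x P` (`A.img_rep`), so by homogeneity (`InRam` is about `A.x P'`; use the trihomogeneity `hq`, `he` of `q`, `e`: the value at `(c x, y, t)` is `c ^ a` times the value at `(x, y, t)`) `(A.x P', y)` is a zero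
of the `q_j` and `e_j`, and `Ram q (A.x P') y t` by `hE`.  `tdeg K (A.x P) ≤ tdeg K (A.x P')`: the ratios of the coordinates of `P'` are the images of those of `P` (an isomorphism `K(P) ≅ K(P')`; `Algebra.trdeg` under an injective algebra homomorphism,
or `U_..`/`M_tdeg_..` in FU/M1, or: a transcendence basis among the ratios stays algebraically independent, `AlgebraicIndependent.map'`).  So `K1` applies to `P'` over `Ω` (its hypothesis: `tdeg Q ≤ tdeg P + 1 ≤ tdeg P' + 1`): `l₀, σ, c`.
For `l : Fin (m + 1)` let `G_l = X (inl l) * rename inr σ - X (inl l₀) * rename inr (c l)`: bihomogeneous (degree `D'` in `x`, `1` in `y`), `onG s G_l = s l * σ - s l₀ * c l ∈ A.I`.  By `Graph.all` there is `n` with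
`X (inr i) ^ n * X (inl j) ^ n * G_l ∈ span (sp q_k t) ⊔ A.I.map (rename inr)` for all `i, j`; choose `i, j` with `(A.x P') i ≠ 0`, `y j ≠ 0`.
(1) Evaluate at `(y, A.x P')`: the right side vanishes (`aeval (Sum.elim y x) (sp F t) = val F x y t`; `A.x_isPt`), so `y l * σ(x) = y l₀ * c_l(x)`; hence `y l₀ ≠ 0` (`σ(x) ≠ 0`, `y ≠ 0`).
(2) Apply `∂/∂y_{l'}` (`pderiv (inl l')`) and evaluate: the left side is `x_i ^ n * y_j ^ n * (∂ G_l / ∂ y_{l'})(x, y)` (the other term contains `G_l(x, y) = 0`), and the right side is `∑ k, a_k * (∂ q_k / ∂ y_{l'})(x, y, t)` with `a_k` independent of `l'` (write the element as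
`∑ k, a_k * sp q_k t + ∑ b_r * rename inr r`, `r ∈ A.I`: `pderiv` of a product, `pderiv (inl l') (rename inr r) = 0`, zeros at the point; `pderiv (inl l') (sp F t) = sp (pderiv (inl l') F) t`).  So the vector `(∂ G_l / ∂ y_{l'})_{l'} = σ(x) e_l - c_l(x) e_{l₀}`
is in the span of the rows `(∂ q_k / ∂ y_{l'})_{l'}`.  Restrict to the columns `γ j = l₀.succAbove j`: for `l = l₀.succAbove i` the vector is `σ(x) e_i`, `σ(x) ≠ 0`.  `K2` gives a nonzero `m × m` minor, against `Ram`.
-/

set_option autoImplicit false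

universe u

namespace UVD

open MvPolynomial
open Pool.Agent.Lib.MP_17a322_nt.VA

private theorem K3_val_mul {K : Type u} [Field K] {N m M : ℕ} {F : Fm K N m M} {a b c : ℕ}
    (hF : Tri F a b c) {L : Type u} [Field L] [Algebra K L] (d : L) (x : Fin (N + 1) → L)
    (y : Fin (m + 1) → L) (t : Fin (M + 1) → L) :
    val F (fun i => d * x i) y t = d ^ a * val F x y t := by
  unfold val
  rw [aeval_def, aeval_def, eval₂_eq', eval₂_eq', Finset.mul_sum]
  refine Finset.sum_congr rfl fun μ hμ => ?_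
  rw [Fintype.prod_sum_type, Fintype.prod_sum_type, Fintype.prod_sum_type, Fintype.prod_sum_type]
  simp only [Sum.elim_inl, Sum.elim_inr, mul_pow, Finset.prod_mul_distrib]
  rw [Finset.prod_pow_eq_pow_sum, (hF μ hμ).1]
  ring

private theorem K3_aeval_sp {K : Type u} [Field K] {N m M : ℕ} (F : Fm K N m M)
    (t : Fin (M + 1) → K) {L : Type u} [Field L] [Algebra K L] (x : Fin (N + 1) → L)
    (y : Fin (m + 1) → L) :
    aeval (Sum.elim y x) (sp F t) = val F x y fun k => algebraMap K L (t k) := by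
  unfold sp val
  rw [comp_aeval_apply]
  refine congrArg (fun f => aeval f F) ?_
  funext v
  rcases v with l | i | k
  · simp
  · simp
  · simp

private theorem K3_pderiv_sp {K : Type u} [Field K] {N m M : ℕ} (F : Fm K N m M)
    (t : Fin (M + 1) → K) (l : Fin (m + 1)) :
    pderiv (Sum.inl l) (sp F t) = sp (pderiv (Sum.inl l) F) t := by
  classical
  unfold sp
  induction F using MvPolynomial.induction_on with
  | C a => simp
  | add p q hp hq => simp only [map_add, hp, hq]
  | mul_X p v hp =>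
    simp only [map_mul, Derivation.leibniz, smul_eq_mul, hp, map_add, aeval_X, pderiv_X]
    rcases v with l' | i | k
    · simp only [Sum.elim_inl, pderiv_X, Pi.single_apply]
      by_cases h : (Sum.inl l' : Fin (m + 1) ⊕ Fin (N + 1)) = Sum.inl l
      · rw [Sum.inl.injEq] at h
        subst h
        simp
      · rw [Sum.inl.injEq] at h
        simp [h]
    · simp [pderiv_X]
    · simp

private theorem K3_pderiv_rename {K : Type u} [Field K] {N m : ℕ} (f : MvPolynomial (Fin (N + 1)) K)
    (l : Fin (m + 1)) :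
    pderiv (Sum.inl l) (rename (Sum.inr : Fin (N + 1) → Fin (m + 1) ⊕ Fin (N + 1)) f) = 0 := by
  classical
  induction f using MvPolynomial.induction_on with
  | C a => simp
  | add p q hp hq => simp only [map_add, hp, hq, add_zero]
  | mul_X p v hp =>
    simp only [map_mul, Derivation.leibniz, smul_eq_mul, hp, rename_X, pderiv_X, mul_zero, add_zero]
    simp

private theorem K3_pderiv_Xr {K : Type u} [Field K] {N m : ℕ} (f : MvPolynomial (Fin (N + 1)) K)
    (a b : Fin (m + 1)) :
    pderiv (Sum.inl a) (X (Sum.inl b) *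
      rename (Sum.inr : Fin (N + 1) → Fin (m + 1) ⊕ Fin (N + 1)) f) =
      if b = a then rename (Sum.inr : Fin (N + 1) → Fin (m + 1) ⊕ Fin (N + 1)) f else 0 := by
  classical
  rw [Derivation.leibniz, K3_pderiv_rename, smul_zero, zero_add, pderiv_X, smul_eq_mul]
  by_cases h : b = a
  · subst h
    rw [if_pos rfl, Pi.single_eq_same, mul_one]
  · rw [if_neg h, Pi.single_eq_of_ne, mul_zero]
    intro h'
    exact h (Sum.inl.inj h')

private theorem K3_onG {K : Type u} [Field K] {N m : ℕ} (s : Fin (m + 1) → MvPolynomial (Fin (N + 1)) K)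
    (σ c : MvPolynomial (Fin (N + 1)) K) (l l₀ : Fin (m + 1)) :
    onG s (X (Sum.inl l) * rename Sum.inr σ - X (Sum.inl l₀) * rename Sum.inr c) =
      s l * σ - s l₀ * c := by
  unfold onG
  rw [map_sub, map_mul, map_mul, aeval_X, aeval_X, aeval_rename, aeval_rename]
  simp [Sum.elim_comp_inr]

private theorem K3_supp {K : Type u} [Field K] {N m D : ℕ} {σ : MvPolynomial (Fin (N + 1)) K}
    (hσ : σ.IsHomogeneous D) (l : Fin (m + 1))
    (μ : Fin (m + 1) ⊕ Fin (N + 1) →₀ ℕ)
    (hμ : μ ∈ (X (Sum.inl l) * rename (Sum.inr : Fin (N + 1) → Fin (m + 1) ⊕ Fin (N + 1)) σ).support) :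
    ∑ i, μ (Sum.inr i) = D ∧ ∑ l, μ (Sum.inl l) = 1 := by
  classical
  rw [support_X_mul, Finset.mem_map] at hμ
  obtain ⟨ν, hν, rfl⟩ := hμ
  rw [support_rename_of_injective Sum.inr_injective, Finset.mem_image] at hν
  obtain ⟨ρ, hρ, rfl⟩ := hν
  have h1 : ∀ i, (addLeftEmbedding (Finsupp.single (Sum.inl l : Fin (m + 1) ⊕ Fin (N + 1)) 1)
      (Finsupp.mapDomain Sum.inr ρ)) (Sum.inr i) = ρ i := by
    intro i
    rw [addLeftEmbedding_apply, Finsupp.add_apply, Finsupp.mapDomain_apply Sum.inr_injective,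
      Finsupp.single_apply]
    simp
  have h2 : ∀ i, (addLeftEmbedding (Finsupp.single (Sum.inl l : Fin (m + 1) ⊕ Fin (N + 1)) 1)
      (Finsupp.mapDomain Sum.inr ρ)) (Sum.inl i) = if l = i then 1 else 0 := by
    intro i
    rw [addLeftEmbedding_apply, Finsupp.add_apply, Finsupp.mapDomain_of_notMem_range _ _ (by simp),
      Finsupp.single_apply]
    simp
  constructor
  · rw [Finset.sum_congr rfl fun i _ => h1 i]
    have h3 := hσ (mem_support_iff.1 hρ)
    rw [← h3, Finsupp.weight_apply, Finsupp.sum_fintype _ _ (by simp)]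
    simp
  · rw [Finset.sum_congr rfl fun i _ => h2 i]
    simp

private theorem K3_tdeg {K : Type u} [Field K] {N : ℕ} {L L' : Type u} [Field L] [Algebra K L]
    [Field L'] [Algebra K L'] (φ : L →ₐ[K] L') (x : Fin (N + 1) → L) (x' : Fin (N + 1) → L')
    {c : L'} (hc : c ≠ 0) (h : ∀ i, φ (x i) = c * x' i) : tdeg K x ≤ tdeg K x' := by
  unfold tdeg
  have h1 : (Set.range fun p : Fin (N + 1) × Fin (N + 1) => x' p.1 / x' p.2) =
      φ '' (Set.range fun p : Fin (N + 1) × Fin (N + 1) => x p.1 / x p.2) := by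
    rw [← Set.range_comp]
    refine congrArg Set.range ?_
    funext p
    rw [Function.comp_apply, map_div₀, h, h, mul_div_mul_left _ _ hc]
  rw [h1, ← IntermediateField.adjoin_map]
  exact le_of_eq (IntermediateField.equivMap _ φ).trdeg_eq

private theorem K3_ideal {K : Type u} [Field K] {N m : ℕ} {L : Type u} [Field L] [Algebra K L]
    (z : Fin (m + 1) ⊕ Fin (N + 1) → L) (S : Submodule L (Fin (m + 1) → L))
    {J : Ideal (MvPolynomial (Fin (m + 1) ⊕ Fin (N + 1)) K)}
    {s : Set (MvPolynomial (Fin (m + 1) ⊕ Fin (N + 1)) K)} (hJ : J ≤ Ideal.span s)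
    (hs : ∀ f ∈ s, aeval z f = 0 ∧ (fun l => aeval z (pderiv (Sum.inl l) f)) ∈ S) :
    ∀ f ∈ J, aeval z f = 0 ∧ (fun l => aeval z (pderiv (Sum.inl l) f)) ∈ S := by
  intro f hf
  have hf' := hJ hf
  refine Submodule.span_induction (p := fun f _ => aeval z f = 0 ∧
    (fun l => aeval z (pderiv (Sum.inl l) f)) ∈ S) hs ?_ ?_ ?_ hf'
  · refine ⟨map_zero _, ?_⟩
    have h1 : (fun l : Fin (m + 1) => aeval z (pderiv (Sum.inl l)
        (0 : MvPolynomial (Fin (m + 1) ⊕ Fin (N + 1)) K))) = 0 := by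
      funext l
      simp
    rw [h1]
    exact S.zero_mem
  · intro a b _ _ ha hb
    refine ⟨by rw [map_add, ha.1, hb.1, add_zero], ?_⟩
    have h1 : (fun l : Fin (m + 1) => aeval z (pderiv (Sum.inl l) (a + b))) =
        (fun l => aeval z (pderiv (Sum.inl l) a)) + fun l => aeval z (pderiv (Sum.inl l) b) := by
      funext l
      simp
    rw [h1]
    exact S.add_mem ha.2 hb.2
  · intro g a _ ha
    refine ⟨by rw [smul_eq_mul, map_mul, ha.1, mul_zero], ?_⟩
    have h1 : (fun l : Fin (m + 1) => aeval z (pderiv (Sum.inl l) (g • a))) =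
        aeval z g • fun l => aeval z (pderiv (Sum.inl l) a) := by
      funext l
      simp [Derivation.leibniz, ha.1]
    rw [h1]
    exact S.smul_mem _ ha.2

theorem K3 {K : Type u} [Field K] [NumberField K] {N m M : ℕ} (A : AV K N) {κ r : ℕ}
    (q : Fin κ → Fm K N m M) (hq : ∀ j, ∃ a b c, Tri (q j) a b c)
    (e : Fin r → Fm K N m M) (he : ∀ j, ∃ a b c, Tri (e j) a b c) (t : Fin (M + 1) → K)
    (s : Fin (m + 1) → MvPolynomial (Fin (N + 1)) K) (δ : ℕ) (hG : Graph A q t s δ)
    (hE : InRam A q e t) : Cod2 A q e t := by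
  classical
  intro L _ _ P hIm
  by_contra hcon
  have hle : ∀ (L' : Type u) [Field L'] [Algebra K L'] (Q : A.Pts L'),
      tdeg K (A.x Q) ≤ tdeg K (A.x P) + 1 := by
    intro L' _ _ Q
    by_contra h
    exact hcon ⟨L', inferInstance, inferInstance, Q, not_le.mp h⟩
  obtain ⟨y, hy, hqy, hey⟩ := hIm
  obtain ⟨φ, hφ⟩ : ∃ φ : L →ₐ[K] AlgebraicClosure L,
      ∀ a, φ a = algebraMap L (AlgebraicClosure L) a :=
    ⟨IsScalarTower.toAlgHom K L (AlgebraicClosure L), fun _ => rfl⟩
  obtain ⟨d, hd, hrep⟩ := A.img_rep φ P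
  obtain ⟨P', hP'⟩ : ∃ P', P' = A.img φ P := ⟨_, rfl⟩
  rw [← hP'] at hrep
  have htd : tdeg K (A.x P) ≤ tdeg K (A.x P') := K3_tdeg φ _ _ hd hrep
  have hzero : ∀ {F : Fm K N m M} {a b c : ℕ}, Tri F a b c →
      val F (fun i => algebraMap L (AlgebraicClosure L) (A.x P i)) y
        (fun k => algebraMap L (AlgebraicClosure L) (algebraMap K L (t k))) = 0 →
      val F (A.x P') y (fun k => algebraMap K (AlgebraicClosure L) (t k)) = 0 := by
    intro F a b c hF h
    have h1 : (fun i => algebraMap L (AlgebraicClosure L) (A.x P i)) = fun i => d * A.x P' i := by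
      funext i
      rw [← hφ]
      exact hrep i
    have h2 : (fun k => algebraMap L (AlgebraicClosure L) (algebraMap K L (t k))) =
        fun k => algebraMap K (AlgebraicClosure L) (t k) := by
      funext k
      rw [← IsScalarTower.algebraMap_apply]
    rw [h1, h2, K3_val_mul hF] at h
    exact (mul_eq_zero.1 h).resolve_left (pow_ne_zero _ hd)
  have hq0 : ∀ j, val (q j) (A.x P') y (fun k => algebraMap K (AlgebraicClosure L) (t k)) = 0 := by
    intro j
    obtain ⟨a, b, c, hF⟩ := hq j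
    exact hzero hF (hqy j)
  have he0 : ∀ j, val (e j) (A.x P') y (fun k => algebraMap K (AlgebraicClosure L) (t k)) = 0 := by
    intro j
    obtain ⟨a, b, c, hF⟩ := he j
    exact hzero hF (hey j)
  have hram := hE (AlgebraicClosure L) P' y hy hq0 he0
  obtain ⟨l₀, D', σ, c, hσ, hc, hσ0, -, hrel⟩ := K1 A P'
    (fun L' _ _ p => (hle L' p).trans (add_le_add_left htd 1)) s hG.hom hG.ne
  obtain ⟨z, hz⟩ : ∃ z : Fin (m + 1) ⊕ Fin (N + 1) → AlgebraicClosure L, z = Sum.elim y (A.x P') :=
    ⟨_, rfl⟩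
  obtain ⟨row, hrow⟩ : ∃ row : Fin κ → Fin (m + 1) → AlgebraicClosure L, row = fun k l =>
      val (pderiv (Sum.inl l) (q k)) (A.x P') y (fun k => algebraMap K (AlgebraicClosure L) (t k)) :=
    ⟨_, rfl⟩
  obtain ⟨S, hS⟩ : ∃ S : Submodule (AlgebraicClosure L) (Fin (m + 1) → AlgebraicClosure L),
      S = Submodule.span (AlgebraicClosure L) (Set.range row) := ⟨_, rfl⟩
  have hJ : ∀ f ∈ Ideal.span (Set.range fun j => sp (q j) t) ⊔
        A.I.map (rename (R := K) (σ := Fin (N + 1)) (Sum.inr : _ → Fin (m + 1) ⊕ Fin (N + 1))),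
      aeval z f = 0 ∧ (fun l => aeval z (pderiv (Sum.inl l) f)) ∈ S := by
    refine K3_ideal z S (s := (Set.range fun j => sp (q j) t) ∪
      (rename (R := K) (σ := Fin (N + 1)) (Sum.inr : _ → Fin (m + 1) ⊕ Fin (N + 1))) '' A.I) ?_ ?_
    · rw [Ideal.span_union]
      exact le_rfl
    · rintro f (⟨k, rfl⟩ | ⟨g, hg, rfl⟩)
      · constructor
        · rw [hz, K3_aeval_sp]
          exact hq0 k
        · rw [hS]
          refine Submodule.subset_span ⟨k, ?_⟩
          rw [hrow]
          funext l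
          show _ = aeval z (pderiv (Sum.inl l) (sp (q k) t))
          rw [K3_pderiv_sp, hz, K3_aeval_sp]
      · constructor
        · show aeval z (rename Sum.inr g) = 0
          rw [aeval_rename, hz, Sum.elim_comp_inr]
          exact A.x_isPt P' g hg
        · have h1 : (fun l : Fin (m + 1) => aeval z (pderiv (Sum.inl l)
              (rename (R := K) (σ := Fin (N + 1)) (Sum.inr : _ → Fin (m + 1) ⊕ Fin (N + 1)) g))) =
              0 := by
            funext l
            rw [K3_pderiv_rename, map_zero]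
            rfl
          rw [h1]
          exact S.zero_mem
  obtain ⟨i₀, hi₀⟩ := A.exists_x_ne P'
  obtain ⟨j₀, hj₀⟩ : ∃ j, y j ≠ 0 := Function.ne_iff.mp hy
  have hGm : ∀ l : Fin (m + 1), (fun l' : Fin (m + 1) => aeval z (pderiv (Sum.inl l')
      (X (Sum.inl l) * rename Sum.inr σ - X (Sum.inl l₀) * rename Sum.inr (c l)))) ∈ S := by
    intro l
    obtain ⟨G, hGd⟩ : ∃ G : MvPolynomial (Fin (m + 1) ⊕ Fin (N + 1)) K,
      G = X (Sum.inl l) * rename Sum.inr σ - X (Sum.inl l₀) * rename Sum.inr (c l) := ⟨_, rfl⟩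
    rw [← hGd]
    obtain ⟨n, hn⟩ := hG.all G D' 1 (by
      intro μ hμ
      rw [hGd] at hμ
      rcases Finset.mem_union.1 (support_sub _ _ _ hμ) with h | h
      · exact K3_supp hσ l μ h
      · exact K3_supp (hc l) l₀ μ h) (by rw [hGd, K3_onG]; exact hrel l)
    obtain ⟨h1, h2⟩ := hJ _ (hn i₀ j₀)
    obtain ⟨g, hg⟩ : ∃ g : MvPolynomial (Fin (m + 1) ⊕ Fin (N + 1)) K,
      g = X (Sum.inr i₀) ^ n * X (Sum.inl j₀) ^ n := ⟨_, rfl⟩
    rw [← hg] at h1 h2
    have hg0 : aeval z g ≠ 0 := by
      rw [hg, hz, map_mul, map_pow, map_pow, aeval_X, aeval_X]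
      exact mul_ne_zero (pow_ne_zero _ hi₀) (pow_ne_zero _ hj₀)
    rw [map_mul] at h1
    have hG0 : aeval z G = 0 := (mul_eq_zero.1 h1).resolve_left hg0
    have h3 : (fun l' : Fin (m + 1) => aeval z (pderiv (Sum.inl l') (g * G))) =
        aeval z g • fun l' => aeval z (pderiv (Sum.inl l') G) := by
      funext l'
      simp [Derivation.leibniz, hG0]
    rw [h3] at h2
    have h4 := S.smul_mem (aeval z g)⁻¹ h2
    rwa [smul_smul, inv_mul_cancel₀ hg0, one_smul] at h4
  have hspan : ∀ i : Fin m, (Pi.single i 1 : Fin m → AlgebraicClosure L) ∈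
      Submodule.span (AlgebraicClosure L)
        (Set.range fun (k : Fin κ) (j : Fin m) => row k (l₀.succAbove j)) := by
    intro i
    have h1 := hGm (l₀.succAbove i)
    have h2 := Submodule.mem_map_of_mem
      (f := LinearMap.funLeft (AlgebraicClosure L) (AlgebraicClosure L) l₀.succAbove) h1
    rw [hS, Submodule.map_span, ← Set.range_comp] at h2
    have h3 : LinearMap.funLeft (AlgebraicClosure L) (AlgebraicClosure L) l₀.succAbove
        (fun l' : Fin (m + 1) => aeval z (pderiv (Sum.inl l')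
          (X (Sum.inl (l₀.succAbove i)) * rename Sum.inr σ -
            X (Sum.inl l₀) * rename Sum.inr (c (l₀.succAbove i))))) =
        aeval (A.x P') σ • (Pi.single i 1 : Fin m → AlgebraicClosure L) := by
      funext j
      rw [LinearMap.funLeft_apply, map_sub, K3_pderiv_Xr, K3_pderiv_Xr,
        if_neg (Fin.succAbove_ne l₀ j).symm, sub_zero, Pi.smul_apply, Pi.single_apply, smul_eq_mul]
      by_cases hij : j = i
      · subst hij
        rw [if_pos rfl, if_pos rfl, mul_one, aeval_rename, hz, Sum.elim_comp_inr]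
      · rw [if_neg hij, if_neg, map_zero, mul_zero]
        intro h
        exact hij (Fin.succAbove_right_injective h).symm
    rw [h3] at h2
    have h4 := Submodule.smul_mem _ (aeval (A.x P') σ)⁻¹ h2
    rwa [smul_smul, inv_mul_cancel₀ hσ0, one_smul] at h4
  obtain ⟨ρ, hρ⟩ := K2 (fun (k : Fin κ) (j : Fin m) => row k (l₀.succAbove j)) hspan
  apply hρ
  rw [hrow]
  exact hram ρ l₀.succAbove

end UVD
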