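import Pool.Agent.Lib.MP_17a322_ntBB.K0
import Pool.Agent.Lib.MP_17a322_nt.VA.G29

/-!
LEAF K4: the image of a closed subset that does not contain `X_t` is not `A`.

PROOF.  Let `η` be a generic point of `A` over a field `F` over `K`: a polynomial over `K` whose homogeneous components.. a FORM `h` over `K` with `aeval (A.x η) h = 0` lies in `A.I` (`exists_generic` in VA/G29; or `Z_exists_dim` and `MWA.D1`: a point of maximal transcendence degree is generic).
Take `L = F`, `P = η` in `NotAll` and suppose `Im q f (A.x η) t`: `y ≠ 0` over `Ω = AlgebraicClosure F` with `q(x, y, t) = 0`, `f(x, y, t) = 0`, `x` = the image of `A.x η`.  Let `G = X (inl l) * rename inr (s l') - X (inl l') * rename inr (s l)`: bihomogeneous of degree `δ` in `x`, `1` in `y`, and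
`onG s G = 0 ∈ A.I`; by `Graph.all` some `X (inr i) ^ n * X (inl j) ^ n * G` is in the ideal `span (sp q_k t) ⊔ A.I.map (rename inr)`, for all `i, j`; choose `x i ≠ 0`, `y j ≠ 0` and evaluate at `(y, x)` (`aeval (Sum.elim y x) (sp F t) = val F x y t`): `y l * s_{l'}(x) = y l' * s_l(x)`.
By `Graph.ne` and genericity some `s_l(x) ≠ 0`, so `y = λ s(x)` with `λ ≠ 0`.  Let `j` be with `onG s (sp (f j) t) ∉ A.I`; it is a form (`f j` is `Tri` and the `s l` are forms of degree `δ`), so it does not vanish at `x`: `val (f j) x (s(x)) t ≠ 0`, and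
`val (f j) x y t = λ ^ b' * val (f j) x (s(x)) t ≠ 0` (homogeneity in `y`): a contradiction.
-/

set_option autoImplicit false

universe u

namespace UVD

open MvPolynomial
open Pool.Agent.Lib.MP_17a322_nt.VA

open Pool.Agent.Lib.MP_17a322_nt.VA.G Pool.Agent.Lib.MP_17a322_nt.VN in
/-- A point over an extension field at which no form outside of `A.I` vanishes. -/
private theorem K4_generic {K : Type u} [Field K] {N : ℕ} (A : AV K N) :
    ∃ (L : Type u) (_ : Field L) (_ : Algebra K L) (P : A.Pts L),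
      ∀ (f : MvPolynomial (Fin (N + 1)) K) (d : ℕ), f.IsHomogeneous d → aeval (A.x P) f = 0 → f ∈ A.I := by
  obtain ⟨M, iM, iKM, ikM, iT, y, hy⟩ := exists_generic A (AlgebraicClosure K)
  refine ⟨M, iM, iKM, y, fun f d hf h0 => ?_⟩
  have h1 : f ∈ loc K (A.x y) := (mem_loc_of_homog hf).2 h0
  have h2 : map (algebraMap K (AlgebraicClosure K)) f ∈ loc (AlgebraicClosure K) (A.x y) := map_mem_loc.2 h1
  rw [hy] at h2
  have h3 : f ∈ (A.I.map (map (σ := Fin (N + 1)) (algebraMap K (AlgebraicClosure K)))).comap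
      (map (σ := Fin (N + 1)) (algebraMap K (AlgebraicClosure K))) := h2
  rw [comap_map] at h3
  exact h3

private theorem K4_tri {K : Type u} [Field K] {N m M : ℕ} {F : Fm K N m M} {a b c : ℕ}
    (hF : Tri F a b c) (t : Fin (M + 1) → K) {s : Fin (m + 1) → MvPolynomial (Fin (N + 1)) K} {δ : ℕ}
    (hs : ∀ l, (s l).IsHomogeneous δ) : (onG s (sp F t)).IsHomogeneous (b * δ + a) := by
  have h1 : onG s (sp F t) = aeval (Sum.elim s (Sum.elim X fun k => C (t k))) F := by
    unfold onG sp
    rw [← AlgHom.comp_apply, comp_aeval]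
    refine congrArg (fun g => aeval g F) ?_
    funext z
    rcases z with l | i | k
    · simp
    · simp
    · simp
  rw [h1, aeval_def, eval₂_eq']
  refine IsHomogeneous.sum _ _ _ fun μ hμ => ?_
  obtain ⟨h2, h3, h4⟩ := hF μ hμ
  rw [Fintype.prod_sum_type, Fintype.prod_sum_type]
  have e1 : (∏ l, Sum.elim s (Sum.elim X fun k => C (t k)) (Sum.inl l) ^ μ (Sum.inl l) :
      MvPolynomial (Fin (N + 1)) K).IsHomogeneous (b * δ) := by
    rw [← h3, Finset.sum_mul]
    refine IsHomogeneous.prod _ _ _ fun l _ => ?_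
    have h5 := (hs l).pow (μ (Sum.inl l))
    rw [mul_comm] at h5
    exact h5
  have e2 : (∏ i, Sum.elim s (Sum.elim X fun k => C (t k)) (Sum.inr (Sum.inl i)) ^
      μ (Sum.inr (Sum.inl i)) : MvPolynomial (Fin (N + 1)) K).IsHomogeneous a := by
    rw [← h2]
    refine IsHomogeneous.prod _ _ _ fun i _ => ?_
    have h5 := (isHomogeneous_X K i).pow (μ (Sum.inr (Sum.inl i)))
    rw [one_mul] at h5
    exact h5
  have e3 : (∏ k, Sum.elim s (Sum.elim X fun k => C (t k)) (Sum.inr (Sum.inr k)) ^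
      μ (Sum.inr (Sum.inr k)) : MvPolynomial (Fin (N + 1)) K).IsHomogeneous 0 := by
    have h6 : (∑ _k : Fin (M + 1), 0 : ℕ) = 0 := Finset.sum_const_zero
    rw [← h6]
    refine IsHomogeneous.prod _ _ _ fun k _ => ?_
    have h5 := (isHomogeneous_C (Fin (N + 1)) (t k)).pow (μ (Sum.inr (Sum.inr k)))
    rw [zero_mul] at h5
    exact h5
  have e4 := (isHomogeneous_C (Fin (N + 1)) (coeff μ F)).mul (e1.mul (e2.mul e3))
  rw [add_zero, zero_add] at e4
  exact e4

/-- The value at `(x, λ y)`. -/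
private theorem K4_scale {K : Type u} [Field K] {N m M : ℕ} {F : Fm K N m M} {a b c : ℕ}
    (hF : Tri F a b c) {L : Type u} [Field L] [Algebra K L] (x : Fin (N + 1) → L)
    (y : Fin (m + 1) → L) (t : Fin (M + 1) → L) (r : L) :
    val F x (fun l => r * y l) t = r ^ b * val F x y t := by
  unfold val
  rw [aeval_def, aeval_def, eval₂_eq', eval₂_eq', Finset.mul_sum]
  refine Finset.sum_congr rfl fun μ hμ => ?_
  obtain ⟨h2, h3, h4⟩ := hF μ hμ
  rw [Fintype.prod_sum_type, Fintype.prod_sum_type (fun z => Sum.elim y (Sum.elim x t) z ^ μ z)]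
  have h5 : ∏ l, Sum.elim (fun l => r * y l) (Sum.elim x t) (Sum.inl l) ^ μ (Sum.inl l) =
      r ^ b * ∏ l, Sum.elim y (Sum.elim x t) (Sum.inl l) ^ μ (Sum.inl l) := by
    rw [← h3, ← Finset.prod_pow_eq_pow_sum, ← Finset.prod_mul_distrib]
    refine Finset.prod_congr rfl fun l _ => ?_
    rw [Sum.elim_inl, Sum.elim_inl, mul_pow]
  rw [h5]
  have h6 : ∏ z, Sum.elim (fun l => r * y l) (Sum.elim x t) (Sum.inr z) ^ μ (Sum.inr z) =
      ∏ z, Sum.elim y (Sum.elim x t) (Sum.inr z) ^ μ (Sum.inr z) :=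
    Finset.prod_congr rfl fun z _ => by rw [Sum.elim_inr, Sum.elim_inr]
  rw [h6]
  ring

private theorem K4_sp {K : Type u} [Field K] {N m M : ℕ} (F : Fm K N m M) (t : Fin (M + 1) → K)
    {L : Type u} [Field L] [Algebra K L] (x : Fin (N + 1) → L) (y : Fin (m + 1) → L) :
    aeval (Sum.elim y x) (sp F t) = val F x y fun k => algebraMap K L (t k) := by
  unfold sp val
  rw [← AlgHom.comp_apply, comp_aeval]
  refine congrArg (fun g => aeval g F) ?_
  funext z
  rcases z with l | i | k
  · simp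
  · simp
  · simp

private theorem K4_onG {K : Type u} [Field K] {N m : ℕ} (s : Fin (m + 1) → MvPolynomial (Fin (N + 1)) K)
    (G : MvPolynomial (Fin (m + 1) ⊕ Fin (N + 1)) K) {L : Type u} [Field L] [Algebra K L]
    (x : Fin (N + 1) → L) : aeval x (onG s G) = aeval (Sum.elim (fun l => aeval x (s l)) x) G := by
  unfold onG
  rw [← AlgHom.comp_apply, comp_aeval]
  refine congrArg (fun g => aeval g G) ?_
  funext z
  rcases z with l | i
  · simp
  · simp

/-- The bihomogeneous polynomial `X_l g(x)`. -/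
private theorem K4_bih {K : Type u} [Field K] {N m δ : ℕ} (l : Fin (m + 1))
    {g : MvPolynomial (Fin (N + 1)) K} (hg : g.IsHomogeneous δ) :
    ∀ μ ∈ (X (Sum.inl l) * rename (Sum.inr : _ → Fin (m + 1) ⊕ Fin (N + 1)) g).support,
      ∑ i, μ (Sum.inr i) = δ ∧ ∑ l, μ (Sum.inl l) = 1 := by
  classical
  intro μ hμ
  rw [support_X_mul, Finset.mem_map] at hμ
  obtain ⟨ν, hν, rfl⟩ := hμ
  rw [support_rename_of_injective Sum.inr_injective, Finset.mem_image] at hν
  obtain ⟨κ, hκ, rfl⟩ := hν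
  have h1 : ∑ i, κ i = δ := by
    have h2 := hg (mem_support_iff.1 hκ)
    have h3 : Finsupp.weight (1 : Fin (N + 1) → ℕ) κ = ∑ i, κ i := by
      rw [← Finsupp.degree_eq_sum]
      exact (DFunLike.congr_fun (Finsupp.degree_eq_weight_one (σ := Fin (N + 1)) (R := ℕ)) κ).symm
    rw [← h3]
    exact h2
  constructor
  · rw [← h1]
    refine Finset.sum_congr rfl fun i _ => ?_
    rw [addLeftEmbedding_apply, Finsupp.add_apply, Finsupp.mapDomain_apply Sum.inr_injective,
      Finsupp.single_eq_of_ne (by simp), zero_add]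
  · rw [Finset.sum_eq_single l]
    · rw [addLeftEmbedding_apply, Finsupp.add_apply, Finsupp.single_eq_same,
        Finsupp.mapDomain_of_notMem_range _ _ (by simp), add_zero]
    · intro l' _ hl'
      rw [addLeftEmbedding_apply, Finsupp.add_apply, Finsupp.single_eq_of_ne (by simpa using hl'),
        Finsupp.mapDomain_of_notMem_range _ _ (by simp), add_zero]
    · intro h
      exact absurd (Finset.mem_univ l) h

theorem K4 {K : Type u} [Field K] [NumberField K] {N m M : ℕ} (A : AV K N) {κ r : ℕ}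
    (q : Fin κ → Fm K N m M) (f : Fin r → Fm K N m M) (hf : ∀ j, ∃ a b c, Tri (f j) a b c)
    (t : Fin (M + 1) → K) (s : Fin (m + 1) → MvPolynomial (Fin (N + 1)) K) (δ : ℕ)
    (hG : Graph A q t s δ) (hD : ∃ j, onG s (sp (f j) t) ∉ A.I) : NotAll A q f t := by
  obtain ⟨L, iL, iKL, P, hP⟩ := K4_generic A
  refine ⟨L, iL, iKL, P, ?_⟩
  rintro ⟨y, hy, hq, hfz⟩
  obtain ⟨x, hx⟩ : ∃ x : Fin (N + 1) → AlgebraicClosure L,
      x = fun i => algebraMap L (AlgebraicClosure L) (A.x P i) := ⟨_, rfl⟩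
  have ht : (fun k => algebraMap L (AlgebraicClosure L) (algebraMap K L (t k))) =
      fun k => algebraMap K (AlgebraicClosure L) (t k) := by
    funext k
    rw [← IsScalarTower.algebraMap_apply]
  rw [ht] at hq hfz
  rw [← hx] at hq hfz
  have hxe : ∀ g : MvPolynomial (Fin (N + 1)) K,
      aeval x g = algebraMap L (AlgebraicClosure L) (aeval (A.x P) g) := by
    intro g
    rw [hx]
    exact (comp_aeval_apply (A.x P) (IsScalarTower.toAlgHom K L (AlgebraicClosure L)) g).symm
  have hxz : ∀ (g : MvPolynomial (Fin (N + 1)) K) (d : ℕ), g.IsHomogeneous d → aeval x g = 0 →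
      g ∈ A.I := by
    intro g d hg h0
    rw [hxe, map_eq_zero] at h0
    exact hP g d hg h0
  have hxI : ∀ g ∈ A.I, aeval x g = 0 := by
    intro g hg
    rw [hxe, Z_x_isPt A P g hg, map_zero]
  have hx0 : ∃ i, x i ≠ 0 := by
    by_contra hcon
    push Not at hcon
    apply Z_x_ne A P
    funext i
    have h1 := hcon i
    rw [hx] at h1
    exact (map_eq_zero _).1 h1
  have hy0 : ∃ l, y l ≠ 0 := by
    by_contra hcon
    push Not at hcon
    exact hy (funext hcon)
  obtain ⟨i₀, hi₀⟩ := hx0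
  obtain ⟨j₀, hj₀⟩ := hy0
  obtain ⟨S, hS⟩ : ∃ S : Fin (m + 1) → AlgebraicClosure L, S = fun l => aeval x (s l) := ⟨_, rfl⟩
  obtain ⟨l₀, hl₀⟩ := hG.ne
  have hS0 : S l₀ ≠ 0 := by
    intro h0
    rw [hS] at h0
    exact hl₀ (hxz _ δ (hG.hom l₀) h0)
  have hid : ∀ F ∈ Ideal.span (Set.range fun j => sp (q j) t) ⊔
        A.I.map (rename (R := K) (σ := Fin (N + 1)) (Sum.inr : _ → Fin (m + 1) ⊕ Fin (N + 1))),
      aeval (Sum.elim y x) F = 0 := by
    have h1 : Ideal.span (Set.range fun j => sp (q j) t) ⊔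
        A.I.map (rename (R := K) (σ := Fin (N + 1)) (Sum.inr : _ → Fin (m + 1) ⊕ Fin (N + 1))) ≤
        RingHom.ker (aeval (Sum.elim y x) :
          MvPolynomial (Fin (m + 1) ⊕ Fin (N + 1)) K →ₐ[K] AlgebraicClosure L) := by
      refine sup_le (Ideal.span_le.2 ?_) (Ideal.map_le_iff_le_comap.2 ?_)
      · rintro _ ⟨j, rfl⟩
        show aeval (Sum.elim y x) (sp (q j) t) = 0
        rw [K4_sp]
        exact hq j
      · intro g hg
        show aeval (Sum.elim y x) (rename Sum.inr g) = 0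
        rw [aeval_rename]
        exact hxI g hg
    exact fun F hF => h1 hF
  have hrel : ∀ l l', y l * S l' = y l' * S l := by
    intro l l'
    obtain ⟨n, hn⟩ := hG.all (X (Sum.inl l) * rename Sum.inr (s l') - X (Sum.inl l') * rename Sum.inr (s l))
      δ 1 (by
        classical
        intro μ hμ
        rcases Finset.mem_union.1 (support_sub _ _ _ hμ) with h1 | h1
        · exact K4_bih l (hG.hom l') μ h1
        · exact K4_bih l' (hG.hom l) μ h1) (by
        have h1 : onG s (X (Sum.inl l) * rename Sum.inr (s l') - X (Sum.inl l') * rename Sum.inr (s l)) = 0 := by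
          unfold onG
          rw [map_sub, map_mul, map_mul, aeval_X, aeval_X, aeval_rename, aeval_rename]
          have h2 : (Sum.elim s X : Fin (m + 1) ⊕ Fin (N + 1) → MvPolynomial (Fin (N + 1)) K) ∘ Sum.inr = X := rfl
          rw [h2, aeval_X_left_apply, aeval_X_left_apply, Sum.elim_inl, Sum.elim_inl]
          ring
        rw [h1]
        exact A.I.zero_mem)
    have h1 := hid _ (hn i₀ j₀)
    rw [map_mul, map_mul, map_pow, map_pow, aeval_X, aeval_X, map_sub, map_mul, map_mul, aeval_X, aeval_X,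
      aeval_rename, aeval_rename] at h1
    have h2 : (Sum.elim y x) ∘ Sum.inr = x := rfl
    rw [h2, Sum.elim_inl, Sum.elim_inl, Sum.elim_inl, Sum.elim_inr] at h1
    have h3 := (mul_eq_zero.1 h1).resolve_left (mul_ne_zero (pow_ne_zero _ hi₀) (pow_ne_zero _ hj₀))
    rw [hS]
    exact sub_eq_zero.1 h3
  have hyS : y = fun l => y l₀ / S l₀ * S l := by
    funext l
    rw [div_mul_eq_mul_div, eq_div_iff hS0]
    exact hrel l l₀
  have hr : y l₀ / S l₀ ≠ 0 := by
    intro h0
    apply hj₀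
    rw [congrFun hyS j₀, h0, zero_mul]
  obtain ⟨j, hj⟩ := hD
  obtain ⟨a, b, c, hT⟩ := hf j
  have h1 := hfz j
  rw [hyS, K4_scale hT] at h1
  have h2 := (mul_eq_zero.1 h1).resolve_left (pow_ne_zero _ hr)
  refine hj (hxz _ _ (K4_tri hT t hG.hom) ?_)
  rw [K4_onG, ← hS, K4_sp]
  exact h2

end UVD
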