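import Pool.Agent.Lib.MP_17a322_ntBB.K0

/-!
The minors of the matrix of the vertical derivatives: equations of the ramification locus (which is a canonical divisor if `X_t` is smooth).
-/

set_option autoImplicit false

universe u

namespace UVD

open MvPolynomial
open Pool.Agent.Lib.MP_17a322_nt.VA

/-- The `m × m` minors of the matrix `(∂ q_j / ∂ y_l)`: rows `p.1`, columns `p.2`. -/
noncomputable def mnr {K : Type u} [Field K] {N m M κ : ℕ} (q : Fin κ → Fm K N m M)
    (p : (Fin m → Fin κ) × (Fin m → Fin (m + 1))) : Fm K N m M :=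
  (Matrix.of fun i j => pderiv (Sum.inl (p.2 j)) (q (p.1 i))).det

/-- The values of the minors. -/
theorem val_mnr {K : Type u} [Field K] {N m M κ : ℕ} (q : Fin κ → Fm K N m M)
    (p : (Fin m → Fin κ) × (Fin m → Fin (m + 1))) {L : Type u} [Field L] [Algebra K L]
    (x : Fin (N + 1) → L) (y : Fin (m + 1) → L) (t : Fin (M + 1) → L) :
    val (mnr q p) x y t =
      (Matrix.of fun i j => val (pderiv (Sum.inl (p.2 j)) (q (p.1 i))) x y t).det := by
  rw [val, mnr, AlgHom.map_det]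
  rfl

/-- `Tri` as homogeneity for three weights. -/
theorem tri_iff {K : Type u} [Field K] {N m M : ℕ} (F : Fm K N m M) (a b c : ℕ) :
    Tri F a b c ↔ IsWeightedHomogeneous (M := ℕ) (Sum.elim (fun _ => 0) (Sum.elim (fun _ => 1) fun _ => 0)) F a ∧
      IsWeightedHomogeneous (M := ℕ) (Sum.elim (fun _ => 1) (Sum.elim (fun _ => 0) fun _ => 0)) F b ∧
      IsWeightedHomogeneous (M := ℕ) (Sum.elim (fun _ => 0) (Sum.elim (fun _ => 0) fun _ => 1)) F c := by
  have h1 : ∀ μ : (Fin (m + 1) ⊕ (Fin (N + 1) ⊕ Fin (M + 1))) →₀ ℕ,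
      Finsupp.weight (Sum.elim (fun _ => 0) (Sum.elim (fun _ => 1) fun _ => 0) :
        Fin (m + 1) ⊕ (Fin (N + 1) ⊕ Fin (M + 1)) → ℕ) μ = ∑ i, μ (Sum.inr (Sum.inl i)) := by
    intro μ
    rw [Finsupp.weight_apply, Finsupp.sum_fintype _ _ (by simp)]
    simp
  have h2 : ∀ μ : (Fin (m + 1) ⊕ (Fin (N + 1) ⊕ Fin (M + 1))) →₀ ℕ,
      Finsupp.weight (Sum.elim (fun _ => 1) (Sum.elim (fun _ => 0) fun _ => 0) :
        Fin (m + 1) ⊕ (Fin (N + 1) ⊕ Fin (M + 1)) → ℕ) μ = ∑ l, μ (Sum.inl l) := by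
    intro μ
    rw [Finsupp.weight_apply, Finsupp.sum_fintype _ _ (by simp)]
    simp
  have h3 : ∀ μ : (Fin (m + 1) ⊕ (Fin (N + 1) ⊕ Fin (M + 1))) →₀ ℕ,
      Finsupp.weight (Sum.elim (fun _ => 0) (Sum.elim (fun _ => 0) fun _ => 1) :
        Fin (m + 1) ⊕ (Fin (N + 1) ⊕ Fin (M + 1)) → ℕ) μ = ∑ k, μ (Sum.inr (Sum.inr k)) := by
    intro μ
    rw [Finsupp.weight_apply, Finsupp.sum_fintype _ _ (by simp)]
    simp
  constructor
  · intro h
    refine ⟨fun {μ} hμ => ?_, fun {μ} hμ => ?_, fun {μ} hμ => ?_⟩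
    · rw [h1]; exact (h μ (mem_support_iff.2 hμ)).1
    · rw [h2]; exact (h μ (mem_support_iff.2 hμ)).2.1
    · rw [h3]; exact (h μ (mem_support_iff.2 hμ)).2.2
  · rintro ⟨g1, g2, g3⟩ μ hμ
    have hμ' := mem_support_iff.1 hμ
    refine ⟨?_, ?_, ?_⟩
    · rw [← h1]; exact g1 hμ'
    · rw [← h2]; exact g2 hμ'
    · rw [← h3]; exact g3 hμ'

/-- A determinant of weighted homogeneous polynomials of one degree. -/
theorem isWH_det {R : Type*} [CommRing R] {σ : Type*} {w : σ → ℕ} {m n : ℕ}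
    (Q : Matrix (Fin m) (Fin m) (MvPolynomial σ R)) (hQ : ∀ i j, IsWeightedHomogeneous w (Q i j) n) :
    IsWeightedHomogeneous w Q.det (m * n) := by
  classical
  rw [Matrix.det_apply]
  refine (weightedHomogeneousSubmodule R w (m * n)).sum_mem fun g _ => ?_
  have h1 : IsWeightedHomogeneous w (∏ i, Q (g i) i) (∑ _i : Fin m, n) :=
    IsWeightedHomogeneous.prod _ _ _ fun i _ => hQ _ _
  rw [Finset.sum_const, Finset.card_univ, Fintype.card_fin, smul_eq_mul] at h1
  rcases Int.units_eq_one_or (Equiv.Perm.sign g) with h | h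
  · rw [h, one_smul]
    exact h1
  · rw [h, Units.neg_smul, one_smul]
    exact (weightedHomogeneousSubmodule R w (m * n)).neg_mem h1

/-- The degrees of a derivative with respect to a coordinate `y_l`. -/
theorem tri_pderiv {K : Type u} [Field K] {N m M : ℕ} {F : Fm K N m M} {a b c : ℕ} (h : Tri F a b c)
    (l : Fin (m + 1)) : Tri (pderiv (Sum.inl l) F) a (b - 1) c := by
  classical
  intro μ hμ
  have h1 : μ + Finsupp.single (Sum.inl l) 1 ∈ F.support := by
    rw [mem_support_iff] at hμ ⊢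
    intro h0
    apply hμ
    rw [coeff_pderiv, h0, zero_mul]
  obtain ⟨g1, g2, g3⟩ := h _ h1
  refine ⟨?_, ?_, ?_⟩
  · rw [← g1]
    exact Finset.sum_congr rfl fun i _ => by simp
  · rw [← g2]
    simp [Finsupp.single_apply, Finset.sum_add_distrib]
  · rw [← g3]
    exact Finset.sum_congr rfl fun i _ => by simp

/-- The degrees of the minors. -/
theorem tri_mnr {K : Type u} [Field K] {N m M κ : ℕ} (q : Fin κ → Fm K N m M) {a b c : ℕ}
    (hq : ∀ j, Tri (q j) a b c) (p : (Fin m → Fin κ) × (Fin m → Fin (m + 1))) :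
    Tri (mnr q p) (m * a) (m * (b - 1)) (m * c) := by
  have h := fun i j => (tri_iff _ _ _ _).1 (tri_pderiv (hq (p.1 i)) (p.2 j))
  exact (tri_iff _ _ _ _).2 ⟨isWH_det _ fun i j => (h i j).1, isWH_det _ fun i j => (h i j).2.1,
    isWH_det _ fun i j => (h i j).2.2⟩

/-- The closed subset of `X_t` given by the minors lies in the ramification locus. -/
theorem inRam_mnr {K : Type u} [Field K] {N m M κ r : ℕ} (A : AV K N) (q : Fin κ → Fm K N m M)
    (e : Fin r → Fm K N m M) (he : ∀ p, ∃ j, e j = mnr q p) (t : Fin (M + 1) → K) : InRam A q e t := by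
  intro L _ _ P y _ _ he0 ρ γ
  obtain ⟨j, hj⟩ := he (ρ, γ)
  rw [← val_mnr q (ρ, γ), ← hj]
  exact he0 j

end UVD
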