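import Pool.Agent.Lib.MP_17a322_ntBB.Defs
import Pool.Agent.Lib.MP_17a322_nt.FU.B2

/-!
LEAF L1: comparison of the local heights.

PROOF.  From `hA` choose `Q j l i`, `E j l i` with `rename Sum.inr (g j) * X (Sum.inl l) ^ n = ∑ i, Q j l i * q i + ∑ i, E j l i * e i` (`Ideal.mem_span_range_iff_exists_fun`, index type `Fin κ ⊕ Fin r`).
(1) Let `q(x, y, t) = 0`, `g j (x, t) ≠ 0` and `y l ≠ 0`: the relation gives `∑ i, E j l i (x, y, t) e_i (x, y, t) ≠ 0`, so some `e_i ≠ 0`.
(2) `kp v`: a number `≥ 1` such that `v (∑ i, E j l i (x, y, t) * w i) ≤ kp v * ⨆ i, v (w i)` for all `j, l`, all `w` and all `(x, y, t)` with all coordinates of absolute value `≤ 1` at `v`: for example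
`kp v = max 1 (cst v r * ⨆ (or ∑) j, l, i, NV v (E j l i))` (`cst`, `NV`: VJ/Defs; evaluation bound for `NV` in VJ/A2, A3), or with the size constants `SC` of VA/Defs (there are lemmas: finitely many polynomials
over `K` have one size constant `E`, `v (aeval z F) ≤ E.k v * (max 1 |z|) ^ _`).  `FS`: `FS_log_NV`, `FS_log_cst`, VJ/A4, A5 (for all but finitely many nonarchimedean `v` it is `1`).
(3) Let `v` be given (ANY absolute value of `K`; if `v` is trivial everything is fine as well) and `x i₀`, `y l₀`, `t k₀` the coordinates of the largest absolute value (nonzero).  Put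
`x' = x / x i₀`, `y' = y / y l₀`, `t' = t / t k₀`: all coordinates have absolute value `≤ 1`, `y' l₀ = 1`, `q (x', y', t') = 0`, `e (x', y', t') = e (x, y, t) / (x i₀ ^ a * y l₀ ^ b * t k₀ ^ c)`, `g (x', t') = g (x, t) / (x i₀ ^ d * t k₀ ^ d')`
(`Tri`, `Bi`: homogeneity lemma `val (F) (α x) (β y) (γ t) = α ^ a β ^ b γ ^ c val F x y t`).  The relation at `l₀`: `g j (x', t') = ∑ i, E j l₀ i (x', y', t') * e_i (x', y', t')`, so
`v (g j (x', t')) ≤ kp v * ⨆ i, v (e_i (x', y', t'))` for all `j`; take the supremum over `j` and logarithms.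
-/

set_option autoImplicit false

universe u

namespace UVD

open MvPolynomial Height
open Pool.Agent.Lib.MP_17a322_nt.VJ
open Pool.Agent.Lib.MP_17a322_nt.FU

private theorem L1_hom {σ K : Type*} [Fintype σ] [Field K] (F : MvPolynomial σ K) (c ξ : σ → K)
    (C : K) (h : ∀ μ ∈ F.support, ∏ s, c s ^ μ s = C) :
    aeval (fun s => c s * ξ s) F = C * aeval ξ F := by
  rw [aeval_def, aeval_def, eval₂_eq', eval₂_eq', Finset.mul_sum]
  refine Finset.sum_congr rfl fun μ hμ => ?_
  simp only [mul_pow, Finset.prod_mul_distrib, h μ hμ]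
  ring

private theorem L1_tri {K : Type u} [Field K] {N m M : ℕ} (F : Fm K N m M) {a b c : ℕ}
    (h : Tri F a b c) (x : Fin (N + 1) → K) (y : Fin (m + 1) → K) (t : Fin (M + 1) → K)
    (α β γ : K) :
    val F (fun i => α * x i) (fun l => β * y l) (fun k => γ * t k) =
      α ^ a * β ^ b * γ ^ c * val F x y t := by
  have h1 := L1_hom F (Sum.elim (fun _ => β) (Sum.elim (fun _ => α) (fun _ => γ)))
    (Sum.elim y (Sum.elim x t)) (α ^ a * β ^ b * γ ^ c) (fun μ hμ => by
      obtain ⟨h1, h2, h3⟩ := h μ hμ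
      rw [Fintype.prod_sum_type, Fintype.prod_sum_type]
      simp only [Sum.elim_inl, Sum.elim_inr, Finset.prod_pow_eq_pow_sum, h1, h2, h3]
      ring)
  have h2 : Sum.elim (fun l => β * y l) (Sum.elim (fun i => α * x i) fun k => γ * t k) =
      fun s => Sum.elim (fun _ => β) (Sum.elim (fun _ => α) (fun _ => γ)) s *
        Sum.elim y (Sum.elim x t) s := by
    funext s
    rcases s with l | i | k <;> rfl
  unfold val
  rw [h2]
  exact h1

private theorem L1_bi {K : Type u} [Field K] {N M : ℕ}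
    (G : MvPolynomial (Fin (N + 1) ⊕ Fin (M + 1)) K) {d d' : ℕ}
    (h : ∀ μ ∈ G.support, ∑ i, μ (Sum.inl i) = d ∧ ∑ l, μ (Sum.inr l) = d')
    (x : Fin (N + 1) → K) (t : Fin (M + 1) → K) (α γ : K) :
    aeval (Sum.elim (fun i => α * x i) fun k => γ * t k) G =
      α ^ d * γ ^ d' * aeval (Sum.elim x t) G := by
  have h1 := L1_hom G (Sum.elim (fun _ => α) (fun _ => γ))
    (Sum.elim x t) (α ^ d * γ ^ d') (fun μ hμ => by
      obtain ⟨h1, h2⟩ := h μ hμ
      rw [Fintype.prod_sum_type]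
      simp only [Sum.elim_inl, Sum.elim_inr, Finset.prod_pow_eq_pow_sum, h1, h2])
  have h2 : Sum.elim (fun i => α * x i) (fun k => γ * t k) =
      fun s => Sum.elim (fun _ => α) (fun _ => γ) s * Sum.elim x t s := by
    funext s
    rcases s with i | k <;> rfl
  rw [h2]
  exact h1

private theorem L1_bound {K : Type*} [Field K] (v : AbsoluteValue K ℝ) {σ : Type*} [Fintype σ]
    {r : ℕ} (E : Fin r → MvPolynomial σ K) (ξ : σ → K) (hξ : ∀ s, v (ξ s) ≤ 1) (w : Fin r → K)
    (B : ℝ) (hB : 1 ≤ B) (hE : ∀ i, NV v (E i) ≤ B) :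
    v (∑ i, aeval ξ (E i) * w i) ≤ max 1 (cst v r) * B * ⨆ i, v (w i) := by
  have hS : 0 ≤ ⨆ i, v (w i) := Real.iSup_nonneg fun i => v.nonneg _
  have h0 : 0 ≤ B * ⨆ i, v (w i) := mul_nonneg (by linarith) hS
  have h := (SN_self v).sum_le Finset.univ (fun i => aeval ξ (E i) * w i)
    (B := B * ⨆ i, v (w i)) h0 (fun i _ => by
      show v (aeval ξ (E i) * w i) ≤ _
      rw [map_mul]
      refine mul_le_mul ?_ (le_ciSup (Finite.bddAbove_range fun i => v (w i)) i) (v.nonneg _)
        (by linarith)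
      have h1 := (SN_self v).aeval_le (E i) (fun t => (E i).degreeOf t) (fun _ => le_rfl) ξ
      have h2 : ∏ t, (max 1 (v (ξ t))) ^ ((E i).degreeOf t) = 1 := by
        refine Finset.prod_eq_one fun t _ => ?_
        rw [max_eq_left (hξ t), one_pow]
      have h3 : v (aeval ξ (E i)) ≤ NV v (E i) * 1 := by
        rw [← h2]
        exact h1
      rw [mul_one] at h3
      exact h3.trans (hE i))
  rw [Finset.card_univ, Fintype.card_fin] at h
  refine h.trans ?_
  rw [mul_assoc]
  exact mul_le_mul_of_nonneg_right (le_max_right _ _) h0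

private theorem L1_prod {ι : Type*} (f : ι → ℝ) (hf : ∀ i, 1 ≤ f i) (s : Finset ι) :
    1 ≤ ∏ i ∈ s, f i ∧ ∀ i ∈ s, f i ≤ ∏ i ∈ s, f i := by
  classical
  induction s using Finset.induction_on with
  | empty => simp
  | insert a s ha ih =>
    rw [Finset.prod_insert ha]
    refine ⟨?_, fun i hi => ?_⟩
    · nlinarith [hf a, ih.1]
    · rcases Finset.mem_insert.1 hi with h | h
      · subst h
        nlinarith [hf i, ih.1]
      · have h1 := ih.2 i h
        nlinarith [hf a, ih.1, hf i]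

private theorem L1_FS_cst {L : Type*} [Field L] [AdmissibleAbsValues L] (n : ℕ) :
    FS (fun v : AbsoluteValue L ℝ => Real.log (max 1 (cst v n))) := by
  have h0 : ∀ v : AdmissibleAbsValues.nonarchAbsVal (K := L), cst v.val n = 1 := by
    intro v
    unfold cst
    rw [if_pos (AdmissibleAbsValues.isNonarchimedean v.val v.property)]
  simp [FS, h0]

private theorem L1_FS_NV {L : Type*} [Field L] [AdmissibleAbsValues L] {σ : Type*}
    (F : MvPolynomial σ L) : FS (fun v : AbsoluteValue L ℝ => Real.log (max 1 (NV v F))) := by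
  rcases eq_or_ne F 0 with h | h
  · subst h
    simp [FS, A2_zero]
  · refine (FS_log_NV h).subset fun v hv => ?_
    intro h1
    have h2 : NV v.val F = 1 := Real.eq_one_of_pos_of_log_eq_zero (NV_pos v.val h) h1
    exact hv (by simp only [h2, max_self, Real.log_one])

private theorem L1_top {K : Type*} [Field K] (v : AbsoluteValue K ℝ) {n : ℕ}
    (x : Fin (n + 1) → K) (hx : x ≠ 0) :
    ∃ (i₀ : Fin (n + 1)) (x' : Fin (n + 1) → K), x i₀ ≠ 0 ∧ (⨆ i, v (x i)) = v (x i₀) ∧
      (x = fun i => x i₀ * x' i) ∧ (∀ i, v (x' i) ≤ 1) ∧ x' i₀ = 1 := by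
  obtain ⟨i₀, hi₀⟩ := exists_eq_ciSup_of_finite (f := fun i => v (x i))
  have hle : ∀ i, v (x i) ≤ v (x i₀) := by
    intro i
    rw [show v (x i₀) = ⨆ i, v (x i) from hi₀]
    exact le_ciSup (Finite.bddAbove_range fun i => v (x i)) i
  have hne : x i₀ ≠ 0 := by
    intro h0
    apply hx
    funext i
    have h1 := hle i
    rw [h0, map_zero] at h1
    exact (map_eq_zero v).1 (le_antisymm h1 (v.nonneg _))
  refine ⟨i₀, fun i => x i / x i₀, hne, hi₀.symm, ?_, fun i => ?_, div_self hne⟩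
  · funext i
    show x i = x i₀ * (x i / x i₀)
    rw [mul_div_cancel₀ _ hne]
  · show v (x i / x i₀) ≤ 1
    rw [map_div₀, div_le_one (v.pos hne)]
    exact hle i

private theorem L1_rel {K : Type u} [Field K] {N m M κ r n : ℕ}
    (q : Fin κ → Fm K N m M) (e : Fin r → Fm K N m M)
    (g : MvPolynomial (Fin (N + 1) ⊕ Fin (M + 1)) K) (l : Fin (m + 1))
    (w : Fin κ ⊕ Fin r → Fm K N m M)
    (hw : ∑ i, w i * Sum.elim q e i = rename Sum.inr g * X (Sum.inl l) ^ n)
    (x : Fin (N + 1) → K) (y : Fin (m + 1) → K) (t : Fin (M + 1) → K)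
    (hq : ∀ j, val (q j) x y t = 0) :
    aeval (Sum.elim x t) g * y l ^ n =
      ∑ i, aeval (Sum.elim y (Sum.elim x t)) (w (Sum.inr i)) * val (e i) x y t := by
  have h1 := congrArg (aeval (Sum.elim y (Sum.elim x t))) hw
  rw [map_sum, Fintype.sum_sum_type, map_mul, map_pow, aeval_X, aeval_rename] at h1
  have h2 : ∑ i : Fin κ, aeval (Sum.elim y (Sum.elim x t))
      (w (Sum.inl i) * Sum.elim q e (Sum.inl i)) = 0 := by
    refine Finset.sum_eq_zero fun i _ => ?_
    rw [map_mul, Sum.elim_inl]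
    have h3 := hq i
    unfold val at h3
    rw [h3, mul_zero]
  rw [h2, zero_add, Sum.elim_inl] at h1
  have h4 : (Sum.elim y (Sum.elim x t)) ∘ Sum.inr = Sum.elim x t := by
    funext s
    rfl
  rw [h4] at h1
  rw [← h1]
  refine Finset.sum_congr rfl fun i _ => ?_
  rw [map_mul, Sum.elim_inr]
  rfl

theorem L1 {K : Type u} [Field K] [NumberField K] {N m M κ r s n : ℕ}
    (q : Fin κ → Fm K N m M) (hq : ∀ j, ∃ a b c, Tri (q j) a b c)
    {a b c : ℕ} (e : Fin r → Fm K N m M) (he : ∀ j, Tri (e j) a b c)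
    {d d' : ℕ} (g : Fin s → MvPolynomial (Fin (N + 1) ⊕ Fin (M + 1)) K)
    (hg : ∀ j, ∀ μ ∈ (g j).support, ∑ i, μ (Sum.inl i) = d ∧ ∑ l, μ (Sum.inr l) = d')
    (hA : ∀ j l, rename Sum.inr (g j) * X (Sum.inl l) ^ n ∈
      Ideal.span (Set.range (Sum.elim q e))) :
    ∃ kp : AbsoluteValue K ℝ → ℝ, (∀ v, 1 ≤ kp v) ∧ FS (fun v => Real.log (kp v)) ∧
      ∀ (x : Fin (N + 1) → K) (y : Fin (m + 1) → K) (t : Fin (M + 1) → K), x ≠ 0 → y ≠ 0 → t ≠ 0 →
        (∀ j, val (q j) x y t = 0) → (∃ j, aeval (Sum.elim x t) (g j) ≠ 0) →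
        (∃ i, val (e i) x y t ≠ 0) ∧
          ∀ v : AbsoluteValue K ℝ, lamX a b c e x y t v ≤ lamF d d' g x t v + Real.log (kp v) := by
  classical
  have hA' : ∀ j l, ∃ w : Fin κ ⊕ Fin r → Fm K N m M,
      ∑ i, w i * Sum.elim q e i = rename Sum.inr (g j) * X (Sum.inl l) ^ n := by
    intro j l
    exact Ideal.mem_span_range_iff_exists_fun.1 (hA j l)
  choose w hw using hA'
  obtain ⟨B, hBdef⟩ : ∃ B : AbsoluteValue K ℝ → ℝ, ∀ v, B v =
      ∏ p : Fin s × Fin (m + 1) × Fin r, max 1 (NV v (w p.1 p.2.1 (Sum.inr p.2.2))) :=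
    ⟨_, fun _ => rfl⟩
  have hB1 : ∀ v, 1 ≤ B v := by
    intro v
    rw [hBdef]
    exact (L1_prod _ (fun p => le_max_left _ _) _).1
  have hB2 : ∀ v j l i, NV v (w j l (Sum.inr i)) ≤ B v := by
    intro v j l i
    rw [hBdef]
    exact (le_max_right 1 _).trans ((L1_prod
      (fun p : Fin s × Fin (m + 1) × Fin r => max 1 (NV v (w p.1 p.2.1 (Sum.inr p.2.2))))
      (fun p => le_max_left _ _) Finset.univ).2 (j, l, i) (Finset.mem_univ _))
  have hc1 : ∀ v : AbsoluteValue K ℝ, (1 : ℝ) ≤ max 1 (cst v r) := fun v => le_max_left _ _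
  have hk1 : ∀ v : AbsoluteValue K ℝ, 1 ≤ max 1 (cst v r) * B v := by
    intro v
    nlinarith [hc1 v, hB1 v]
  refine ⟨fun v => max 1 (cst v r) * B v, hk1, ?_, ?_⟩
  · have h1 : (fun v : AbsoluteValue K ℝ => Real.log (max 1 (cst v r) * B v)) =
        fun v => Real.log (max 1 (cst v r)) + ∑ p : Fin s × Fin (m + 1) × Fin r,
          Real.log (max 1 (NV v (w p.1 p.2.1 (Sum.inr p.2.2)))) := by
      funext v
      rw [Real.log_mul (by linarith [hc1 v]) (by linarith [hB1 v]), hBdef,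
        Real.log_prod fun p _ => ?_]
      have h2 : (1 : ℝ) ≤ max 1 (NV v (w p.1 p.2.1 (Sum.inr p.2.2))) := le_max_left _ _
      linarith
    rw [h1]
    exact FS_add (L1_FS_cst r) (FS_sum _ fun p _ => L1_FS_NV _)
  · intro x y t hx hy ht hqz hgz
    have hez : ∃ i, val (e i) x y t ≠ 0 := by
      by_contra hc
      push Not at hc
      obtain ⟨j, hj⟩ := hgz
      obtain ⟨l, hl⟩ := Function.ne_iff.1 hy
      have h1 := L1_rel q e (g j) l (w j l) (hw j l) x y t hqz
      rw [Finset.sum_eq_zero fun i _ => by rw [hc i, mul_zero]] at h1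
      exact mul_ne_zero hj (pow_ne_zero n hl) h1
    refine ⟨hez, fun v => ?_⟩
    obtain ⟨i₀, x', hx0, hxs, hxe, hx1, -⟩ := L1_top v x hx
    obtain ⟨l₀, y', hy0, hys, hye, hy1, hyl⟩ := L1_top v y hy
    obtain ⟨k₀, t', ht0, hts, hte, ht1, -⟩ := L1_top v t ht
    obtain ⟨α, hα⟩ : ∃ α, α = x i₀ := ⟨_, rfl⟩
    obtain ⟨β, hβ⟩ : ∃ β, β = y l₀ := ⟨_, rfl⟩
    obtain ⟨γ, hγ⟩ : ∃ γ, γ = t k₀ := ⟨_, rfl⟩
    rw [← hα] at hx0 hxs hxe
    rw [← hβ] at hy0 hys hye
    rw [← hγ] at ht0 hts hte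
    have he' : ∀ i, val (e i) x y t = α ^ a * β ^ b * γ ^ c * val (e i) x' y' t' := by
      intro i
      have h1 := L1_tri (e i) (he i) x' y' t' α β γ
      rw [← hxe, ← hye, ← hte] at h1
      exact h1
    have hg' : ∀ j, aeval (Sum.elim x t) (g j) =
        α ^ d * γ ^ d' * aeval (Sum.elim x' t') (g j) := by
      intro j
      have h1 := L1_bi (g j) (hg j) x' t' α γ
      rw [← hxe, ← hte] at h1
      exact h1
    have hq' : ∀ j, val (q j) x' y' t' = 0 := by
      intro j
      obtain ⟨a1, b1, c1, h2⟩ := hq j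
      have h1 := L1_tri (q j) h2 x' y' t' α β γ
      rw [← hxe, ← hye, ← hte, hqz j] at h1
      have h3 : α ^ a1 * β ^ b1 * γ ^ c1 ≠ 0 :=
        mul_ne_zero (mul_ne_zero (pow_ne_zero _ hx0) (pow_ne_zero _ hy0)) (pow_ne_zero _ ht0)
      exact (mul_eq_zero.1 h1.symm).resolve_left h3
    have hX : 0 < v α := v.pos hx0
    have hY : 0 < v β := v.pos hy0
    have hT : 0 < v γ := v.pos ht0
    have hS1 : (⨆ i, v (val (e i) x y t)) =
        v α ^ a * v β ^ b * v γ ^ c * ⨆ i, v (val (e i) x' y' t') := by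
      rw [Real.mul_iSup_of_nonneg (by positivity)]
      refine iSup_congr fun i => ?_
      rw [he' i, map_mul, map_mul, map_mul, map_pow, map_pow, map_pow]
    have hS2 : (⨆ j, v (aeval (Sum.elim x t) (g j))) =
        v α ^ d * v γ ^ d' * ⨆ j, v (aeval (Sum.elim x' t') (g j)) := by
      rw [Real.mul_iSup_of_nonneg (by positivity)]
      refine iSup_congr fun j => ?_
      rw [hg' j, map_mul, map_mul, map_pow, map_pow]
    obtain ⟨j₁, hj₁⟩ := hgz
    obtain ⟨i₁, hi₁⟩ := hez
    have hG : 0 < ⨆ j, v (aeval (Sum.elim x' t') (g j)) := by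
      refine lt_of_lt_of_le (v.pos (x := aeval (Sum.elim x' t') (g j₁)) ?_)
        (le_ciSup (Finite.bddAbove_range fun j => v (aeval (Sum.elim x' t') (g j))) j₁)
      intro h0
      rw [hg' j₁, h0, mul_zero] at hj₁
      exact hj₁ rfl
    have hE : 0 < ⨆ i, v (val (e i) x' y' t') := by
      refine lt_of_lt_of_le (v.pos (x := val (e i₁) x' y' t') ?_)
        (le_ciSup (Finite.bddAbove_range fun i => v (val (e i) x' y' t')) i₁)
      intro h0
      rw [he' i₁, h0, mul_zero] at hi₁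
      exact hi₁ rfl
    have hGE : (⨆ j, v (aeval (Sum.elim x' t') (g j))) ≤
        max 1 (cst v r) * B v * ⨆ i, v (val (e i) x' y' t') := by
      have hne : Nonempty (Fin s) := ⟨j₁⟩
      refine ciSup_le fun j => ?_
      have h1 := L1_rel q e (g j) l₀ (w j l₀) (hw j l₀) x' y' t' hq'
      rw [hyl, one_pow, mul_one] at h1
      rw [h1]
      refine L1_bound v (fun i => w j l₀ (Sum.inr i)) _ ?_ (fun i => val (e i) x' y' t') (B v)
        (hB1 v) (fun i => hB2 v j l₀ i)
      intro s'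
      rcases s' with l | i | k
      · exact hy1 l
      · exact hx1 i
      · exact ht1 k
    have hlog := Real.log_le_log hG hGE
    rw [Real.log_mul (by linarith [hk1 v]) hE.ne'] at hlog
    unfold lamX lamF
    rw [hS1, hS2, hxs, hys, hts, Real.log_mul (by positivity) hE.ne',
      Real.log_mul (by positivity) (by positivity), Real.log_mul (by positivity) (by positivity),
      Real.log_mul (by positivity) hG.ne', Real.log_mul (by positivity) (by positivity),
      Real.log_pow, Real.log_pow, Real.log_pow, Real.log_pow, Real.log_pow]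
    linarith

end UVD
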