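import Pool.Agent.Lib.MP_17a322_ntBB.L1

/-!
LEAF L2: sums over places.

PROOF of `L2`.  Let `kp` be as in `L1` and `C = gs (fun v => Real.log (kp v))` (`≥ 0`).  For nonzero vectors `gs (fun v => Real.log (⨆ i, v (x i))) = logHeight x` and the summand is `FS` (`gs_log_iSup`, `FS_log_iSup`, VJ/A4).  So
`hE = gs (lamX ..)` and `d * logHeight x + d' * logHeight t - logHeight g(x, t) = gs (lamF ..)` (`gs_add`, `gs_sub`, `gs_const_mul`), and `gs_le` with `L1`.
PROOF of `L3`.  (1) There is `kp v ≥ 1`, `FS (log kp)`, with `v (f j (x, t)) ≤ kp v * (⨆ v (x i)) ^ D * (⨆ v (t k)) ^ D'` for all `j` (as in L1 (3) with one `NV`; it is `L1` for `m = 0`, `κ = 0`, `e = rename Sum.inr ∘ f`.. read backwards, or simply: the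
evaluation bound at the normalised point); so `0 ≤ lamF D D' f x t v + log (kp v)` for all `v`.  (2) The sum over the infinite places (with multiplicity) and the places in `S` of a nonnegative function `φ` with `FS φ` is at most `gs φ`
(`gs`, `NumberField` instance of `AdmissibleAbsValues`: archAbsVal = the multiset of the infinite places with multiplicity, nonarchAbsVal = the finite places; `finsum` of nonnegative terms with finite support `≥` the sum over a finite set).
(3) `gs (lamF + log kp) = D * logHeight x + D' * logHeight t - logHeight (f (x, t)) + gs (log kp) ≤ D * logHeight x + D' * logHeight t + C` (`logHeight_nonneg`).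
-/

set_option autoImplicit false

universe u

namespace UVD

open MvPolynomial Height
open Pool.Agent.Lib.MP_17a322_nt.VJ
open Pool.Agent.Lib.MP_17a322_nt.FU

/-- The value of a bihomogeneous polynomial. -/
private theorem L2_key {K : Type u} [Field K] {N M : ℕ} {D D' : ℕ}
    (F : MvPolynomial (Fin (N + 1) ⊕ Fin (M + 1)) K)
    (hF : ∀ μ ∈ F.support, ∑ i, μ (Sum.inl i) = D ∧ ∑ l, μ (Sum.inr l) = D')
    (v : AbsoluteValue K ℝ) (x : Fin (N + 1) → K) (t : Fin (M + 1) → K) :
    v (aeval (Sum.elim x t) F) ≤ NV v F * ((⨆ i, v (x i)) ^ D * (⨆ k, v (t k)) ^ D') := by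
  have h := SN_self v
  have hX : 0 ≤ ⨆ i, v (x i) := Real.iSup_nonneg fun i => v.nonneg _
  have hT : 0 ≤ ⨆ k, v (t k) := Real.iSup_nonneg fun i => v.nonneg _
  have hP : 0 ≤ (⨆ i, v (x i)) ^ D * (⨆ k, v (t k)) ^ D' := by positivity
  have hterm : ∀ m ∈ F.support,
      v (algebraMap K K (coeff m F) * ∏ s, (Sum.elim x t) s ^ m s) ≤
        v (coeff m F) * ((⨆ i, v (x i)) ^ D * (⨆ k, v (t k)) ^ D') := by
    intro m hm
    rw [map_mul, map_prod, Fintype.prod_sum_type]
    refine mul_le_mul_of_nonneg_left ?_ (v.nonneg _)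
    have e1 : (⨆ i, v (x i)) ^ D = ∏ i, (⨆ i, v (x i)) ^ m (Sum.inl i) := by
      rw [Finset.prod_pow_eq_pow_sum, (hF m hm).1]
    have e2 : (⨆ k, v (t k)) ^ D' = ∏ k, (⨆ k, v (t k)) ^ m (Sum.inr k) := by
      rw [Finset.prod_pow_eq_pow_sum, (hF m hm).2]
    rw [e1, e2]
    refine mul_le_mul ?_ ?_ (Finset.prod_nonneg fun _ _ => v.nonneg _)
      (Finset.prod_nonneg fun _ _ => pow_nonneg hX _)
    · refine Finset.prod_le_prod (fun _ _ => v.nonneg _) fun i _ => ?_
      rw [map_pow]
      exact pow_le_pow_left₀ (v.nonneg _) (Finite.le_ciSup (fun i => v (x i)) i) _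
    · refine Finset.prod_le_prod (fun _ _ => v.nonneg _) fun k _ => ?_
      rw [map_pow]
      exact pow_le_pow_left₀ (v.nonneg _) (Finite.le_ciSup (fun k => v (t k)) k) _
  rw [aeval_def, eval₂_eq']
  by_cases hv : IsNonarchimedean v
  · refine SN.sum_le_max hv h _ _ (mul_nonneg ((v.nonneg _).trans (coeff_le_NV v F 0)) hP)
      fun m hm => ?_
    exact (hterm m hm).trans (mul_le_mul_of_nonneg_right (coeff_le_NV v F m) hP)
  · refine (h.sum_le_sum _ _).trans ?_
    refine (Finset.sum_le_sum hterm).trans (le_of_eq ?_)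
    rw [← Finset.sum_mul]
    congr 1
    unfold NV
    rw [if_neg hv]

private theorem L2_FS {K : Type u} [Field K] [NumberField K] {σ : Type} (F : MvPolynomial σ K) :
    FS (fun v : AbsoluteValue K ℝ => Real.log (max 1 (NV v F))) := by
  by_cases hF : F = 0
  · have h0 : (fun v : AbsoluteValue K ℝ => Real.log (max 1 (NV v F))) = fun _ => 0 := by
      funext v
      have h1 : NV v F = 0 := by
        rw [hF]
        exact (SN_NV v).zero
      rw [h1, max_eq_left zero_le_one, Real.log_one]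
    rw [h0]
    simp [FS]
  · refine (FS_log_NV hF).subset fun v hv h1 => hv ?_
    have h2 : NV v.val F = 1 := Real.eq_one_of_pos_of_log_eq_zero (NV_pos v.val hF) h1
    show Real.log (max 1 (NV v.val F)) = 0
    rw [h2, max_self, Real.log_one]

private theorem L2_pos {K : Type u} [Field K] {ι : Type*} [Finite ι] {x : ι → K} (hx : x ≠ 0)
    (v : AbsoluteValue K ℝ) : 0 < ⨆ i, v (x i) := by
  obtain ⟨i, hi⟩ := Function.ne_iff.mp hx
  exact (v.pos hi).trans_le (Finite.le_ciSup_of_le i le_rfl)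

/-- The sum over some places. -/
private theorem L2_part {K : Type u} [Field K] [NumberField K] {φ : AbsoluteValue K ℝ → ℝ}
    (hφ : FS φ) (h0 : ∀ v, 0 ≤ φ v) (S : Finset (NumberField.FinitePlace K)) :
    (∑ v : NumberField.InfinitePlace K, (v.mult : ℝ) * φ v.val) + ∑ v ∈ S, φ v.val ≤ gs φ := by
  classical
  unfold gs
  rw [NumberField.sum_archAbsVal_eq, NumberField.sum_nonarchAbsVal_eq]
  refine add_le_add (le_of_eq ?_) ?_
  · exact Finset.sum_congr rfl fun v _ => (nsmul_eq_mul _ _).symm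
  · have hf : (Function.support fun v : NumberField.FinitePlace K => φ v.val).Finite := hφ
    rw [finsum_eq_sum_of_support_subset (s := hf.toFinset ∪ S) _ (fun v hv => by
      rw [Finset.coe_union]
      exact Or.inl (by simpa using hv))]
    exact Finset.sum_le_sum_of_subset_of_nonneg Finset.subset_union_right fun v _ _ => h0 _

/-- The height with respect to `e = 0` is at most the height with respect to its image. -/
theorem L2 {K : Type u} [Field K] [NumberField K] {N m M κ r s n : ℕ}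
    (q : Fin κ → Fm K N m M) (hq : ∀ j, ∃ a b c, Tri (q j) a b c)
    {a b c : ℕ} (e : Fin r → Fm K N m M) (he : ∀ j, Tri (e j) a b c)
    {d d' : ℕ} (g : Fin s → MvPolynomial (Fin (N + 1) ⊕ Fin (M + 1)) K)
    (hg : ∀ j, ∀ μ ∈ (g j).support, ∑ i, μ (Sum.inl i) = d ∧ ∑ l, μ (Sum.inr l) = d')
    (hA : ∀ j l, rename Sum.inr (g j) * X (Sum.inl l) ^ n ∈
      Ideal.span (Set.range (Sum.elim q e))) :
    ∃ C : ℝ, 0 ≤ C ∧
      ∀ (x : Fin (N + 1) → K) (y : Fin (m + 1) → K) (t : Fin (M + 1) → K), x ≠ 0 → y ≠ 0 → t ≠ 0 →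
        (∀ j, val (q j) x y t = 0) → (∃ j, aeval (Sum.elim x t) (g j) ≠ 0) →
        hE a b c e x y t ≤ d * logHeight x + d' * logHeight t -
          logHeight (fun j => aeval (Sum.elim x t) (g j)) + C := by
  obtain ⟨kp, hk1, hkF, hk⟩ := L1 q hq e he g hg hA
  refine ⟨gs (fun v => Real.log (kp v)), gs_nonneg fun v _ => Real.log_nonneg (hk1 v), ?_⟩
  intro x y t hx hy ht hq0 hg0
  obtain ⟨he0, hle⟩ := hk x y t hx hy ht hq0 hg0
  have he1 : (fun j => val (e j) x y t) ≠ 0 := by
    obtain ⟨i, hi⟩ := he0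
    exact fun h => hi (congrFun h i)
  have hg1 : (fun j => aeval (Sum.elim x t) (g j)) ≠ 0 := by
    obtain ⟨i, hi⟩ := hg0
    exact fun h => hi (congrFun h i)
  have fx := FS_log_iSup (L := K) hx
  have fy := FS_log_iSup (L := K) hy
  have ft := FS_log_iSup (L := K) ht
  have fe := FS_log_iSup (L := K) he1
  have fg := FS_log_iSup (L := K) hg1
  have e1 : gs (lamX a b c e x y t) = hE a b c e x y t := by
    unfold lamX hE
    rw [gs_sub (FS_add (FS_add (FS_const_mul _ fx) (FS_const_mul _ fy)) (FS_const_mul _ ft)) fe,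
      gs_add (FS_add (FS_const_mul _ fx) (FS_const_mul _ fy)) (FS_const_mul _ ft),
      gs_add (FS_const_mul _ fx) (FS_const_mul _ fy), gs_const_mul, gs_const_mul, gs_const_mul,
      gs_log_iSup hx, gs_log_iSup hy, gs_log_iSup ht, gs_log_iSup he1]
  have e2 : gs (lamF d d' g x t) = d * logHeight x + d' * logHeight t -
      logHeight (fun j => aeval (Sum.elim x t) (g j)) := by
    unfold lamF
    rw [gs_sub (FS_add (FS_const_mul _ fx) (FS_const_mul _ ft)) fg,
      gs_add (FS_const_mul _ fx) (FS_const_mul _ ft), gs_const_mul, gs_const_mul,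
      gs_log_iSup hx, gs_log_iSup ht, gs_log_iSup hg1]
  have f1 : FS (lamX a b c e x y t) :=
    FS_sub (FS_add (FS_add (FS_const_mul _ fx) (FS_const_mul _ fy)) (FS_const_mul _ ft)) fe
  have f2 : FS (lamF d d' g x t) := FS_sub (FS_add (FS_const_mul _ fx) (FS_const_mul _ ft)) fg
  rw [← e1, ← e2, ← gs_add f2 hkF]
  exact gs_le f1 (FS_add f2 hkF) fun v _ => hle v

/-- The proximity is at most the height. -/
theorem L3 {K : Type u} [Field K] [NumberField K] {N M s : ℕ} {D D' : ℕ}
    (f : Fin s → MvPolynomial (Fin (N + 1) ⊕ Fin (M + 1)) K)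
    (hf : ∀ j, ∀ μ ∈ (f j).support, ∑ i, μ (Sum.inl i) = D ∧ ∑ l, μ (Sum.inr l) = D')
    (S : Finset (NumberField.FinitePlace K)) :
    ∃ C : ℝ, 0 ≤ C ∧ ∀ (x : Fin (N + 1) → K) (t : Fin (M + 1) → K), x ≠ 0 → t ≠ 0 →
      (∃ j, aeval (Sum.elim x t) (f j) ≠ 0) →
      (∑ v : NumberField.InfinitePlace K, (v.mult : ℝ) * lamF D D' f x t v.val) +
        ∑ v ∈ S, lamF D D' f x t v.val ≤ D * logHeight x + D' * logHeight t + C := by
  classical
  obtain ⟨kp, hkp⟩ : ∃ kp : AbsoluteValue K ℝ → ℝ, kp = fun v => ∑ j, Real.log (max 1 (NV v (f j))) :=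
    ⟨_, rfl⟩
  have hkF : FS kp := by
    rw [hkp]
    exact FS_sum _ fun j _ => L2_FS (f j)
  have hk0 : ∀ v, 0 ≤ kp v := by
    intro v
    rw [hkp]
    exact Finset.sum_nonneg fun j _ => Real.log_nonneg (le_max_left _ _)
  refine ⟨gs kp, gs_nonneg fun v _ => hk0 v, ?_⟩
  intro x t hx ht hf0
  have hf1 : (fun j => aeval (Sum.elim x t) (f j)) ≠ 0 := by
    obtain ⟨i, hi⟩ := hf0
    exact fun h => hi (congrFun h i)
  have fx := FS_log_iSup (L := K) hx
  have ft := FS_log_iSup (L := K) ht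
  have fg := FS_log_iSup (L := K) hf1
  have f2 : FS (lamF D D' f x t) := FS_sub (FS_add (FS_const_mul _ fx) (FS_const_mul _ ft)) fg
  have e2 : gs (lamF D D' f x t) = D * logHeight x + D' * logHeight t -
      logHeight (fun j => aeval (Sum.elim x t) (f j)) := by
    unfold lamF
    rw [gs_sub (FS_add (FS_const_mul _ fx) (FS_const_mul _ ft)) fg,
      gs_add (FS_const_mul _ fx) (FS_const_mul _ ft), gs_const_mul, gs_const_mul,
      gs_log_iSup hx, gs_log_iSup ht, gs_log_iSup hf1]
  have hnn : ∀ v : AbsoluteValue K ℝ, 0 ≤ lamF D D' f x t v + kp v := by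
    intro v
    have px := L2_pos hx v
    have pt := L2_pos ht v
    have pf := L2_pos hf1 v
    obtain ⟨j₀, -⟩ := hf0
    have : Nonempty (Fin s) := ⟨j₀⟩
    have h1 : (⨆ j, v (aeval (Sum.elim x t) (f j))) ≤
        Real.exp (kp v) * ((⨆ i, v (x i)) ^ D * (⨆ k, v (t k)) ^ D') := by
      refine ciSup_le fun j => (L2_key (f j) (hf j) v x t).trans ?_
      refine mul_le_mul_of_nonneg_right ?_ (by positivity)
      have h2 : Real.log (max 1 (NV v (f j))) ≤ kp v := by
        rw [hkp]
        exact Finset.single_le_sum (f := fun j => Real.log (max 1 (NV v (f j))))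
          (fun j _ => Real.log_nonneg (le_max_left _ _)) (Finset.mem_univ j)
      refine (le_max_right 1 _).trans ?_
      rw [← Real.exp_log (lt_of_lt_of_le zero_lt_one (le_max_left 1 (NV v (f j))))]
      exact Real.exp_le_exp.2 h2
    have h3 := Real.log_le_log pf h1
    rw [Real.log_mul (Real.exp_pos _).ne' (by positivity), Real.log_exp,
      Real.log_mul (by positivity) (by positivity), Real.log_pow, Real.log_pow] at h3
    unfold lamF
    linarith
  have h4 := L2_part (FS_add f2 hkF) hnn S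
  rw [gs_add f2 hkF, e2] at h4
  have h5 : (∑ v : NumberField.InfinitePlace K, (v.mult : ℝ) * lamF D D' f x t v.val) ≤
      ∑ v : NumberField.InfinitePlace K, (v.mult : ℝ) * (lamF D D' f x t v.val + kp v.val) :=
    Finset.sum_le_sum fun v _ => mul_le_mul_of_nonneg_left
      (le_add_of_nonneg_right (hk0 _)) (Nat.cast_nonneg _)
  have h6 : ∑ v ∈ S, lamF D D' f x t v.val ≤ ∑ v ∈ S, (lamF D D' f x t v.val + kp v.val) :=
    Finset.sum_le_sum fun v _ => le_add_of_nonneg_right (hk0 _)
  have h7 : 0 ≤ logHeight (fun j => aeval (Sum.elim x t) (f j)) := logHeight_nonneg _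
  linarith

end UVD
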