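import Pool.Agent.Lib.MP_17a322_ntBB.E3
import Pool.Agent.Lib.MP_17a322_ntBB.L2
import Pool.Agent.Lib.MP_17a322_ntBB.B0
import Pool.Agent.Lib.MP_17a322_ntBB.ImZ
import Pool.Agent.Lib.MP_17a322_ntZF.T3
import Pool.Agent.Lib.MP_17a322_nt.FU.Z1
import Pool.Agent.Lib.MP_17a322_ntMW.W6

/-!
The final assembly.
-/

set_option autoImplicit false

universe u

namespace UVD

open MvPolynomial Height
open Pool.Agent.Lib.MP_17a322_nt.VA
open Pool.Agent.Lib.MP_17a322_nt.FU

/-- The sum of the local heights over the places in question is monotone. -/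
theorem Z_prox {K : Type u} [Field K] [NumberField K] (S : Finset (NumberField.FinitePlace K))
    (φ ψ : AbsoluteValue K ℝ → ℝ) (h : ∀ v, φ v ≤ ψ v) :
    (∑ v : NumberField.InfinitePlace K, (v.mult : ℝ) * φ v.val) + ∑ v ∈ S, φ v.val ≤
      (∑ v : NumberField.InfinitePlace K, (v.mult : ℝ) * ψ v.val) + ∑ v ∈ S, ψ v.val :=
  add_le_add (Finset.sum_le_sum fun _ _ => mul_le_mul_of_nonneg_left (h _) (Nat.cast_nonneg _))
    (Finset.sum_le_sum fun _ _ => h _)

theorem Z_prox_add {K : Type u} [Field K] [NumberField K] (S : Finset (NumberField.FinitePlace K))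
    (φ ψ : AbsoluteValue K ℝ → ℝ) :
    (∑ v : NumberField.InfinitePlace K, (v.mult : ℝ) * (φ v.val + ψ v.val)) +
        ∑ v ∈ S, (φ v.val + ψ v.val) =
      ((∑ v : NumberField.InfinitePlace K, (v.mult : ℝ) * φ v.val) + ∑ v ∈ S, φ v.val) +
      ((∑ v : NumberField.InfinitePlace K, (v.mult : ℝ) * ψ v.val) + ∑ v ∈ S, ψ v.val) := by
  rw [Finset.sum_add_distrib, Finset.sum_congr rfl fun v _ => mul_add _ _ _, Finset.sum_add_distrib]
  ring

/-- Zeros of bihomogeneous forms under extension of the field. -/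
theorem Z_img {K : Type u} [Field K] {N M : ℕ} {A : AV K N} {d d' : ℕ}
    {g : MvPolynomial (Fin (N + 1) ⊕ Fin (M + 1)) K} (hg : Bi g d d') (P : A.Pts K)
    (t : Fin (M + 1) → K) (h : aeval (Sum.elim (A.x P) t) g = 0)
    (L : Type u) [Field L] [Algebra K L] :
    aeval (Sum.elim (A.x (A.img (Algebra.ofId K L) P)) fun l => algebraMap K L (t l)) g = 0 := by
  obtain ⟨c, hc, h1⟩ := A.img_rep (Algebra.ofId K L) P
  have h2 : (Sum.elim (A.x (A.img (Algebra.ofId K L) P)) fun l => algebraMap K L (t l)) =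
      Sum.elim (fun i => c⁻¹ * algebraMap K L (A.x P i)) fun l => algebraMap K L (t l) := by
    funext z
    rcases z with z | z
    · show A.x _ z = c⁻¹ * algebraMap K L (A.x P z)
      have h3 : algebraMap K L (A.x P z) = c * A.x (A.img (Algebra.ofId K L) P) z := h1 z
      rw [h3, ← mul_assoc, inv_mul_cancel₀ hc, one_mul]
    · rfl
  have h4 : aeval (Sum.elim (fun i => algebraMap K L (A.x P i)) fun l => algebraMap K L (t l)) g = 0 := by
    have h5 : (Sum.elim (fun i => algebraMap K L (A.x P i)) fun l => algebraMap K L (t l)) =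
        fun z => algebraMap K L (Sum.elim (A.x P) t z) := by
      funext z
      rcases z with z | z <;> rfl
    rw [h5]
    exact (aeval_algebraMap_apply L (Sum.elim (A.x P) t) g).trans (by rw [h, map_zero])
  rw [h2]
  have h6 : aeval (Sum.elim (fun i => c⁻¹ * algebraMap K L (A.x P i))
      fun l => algebraMap K L (t l)) g =
      c⁻¹ ^ d * aeval (Sum.elim (fun i => algebraMap K L (A.x P i))
        fun l => algebraMap K L (t l)) g := by
    rw [aeval_def, aeval_def, eval₂_eq', eval₂_eq', Finset.mul_sum]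
    refine Finset.sum_congr rfl fun μ hμ => ?_
    rw [Fintype.prod_sum_type, Fintype.prod_sum_type]
    simp only [Sum.elim_inl, Sum.elim_inr, mul_pow, Finset.prod_mul_distrib]
    rw [Finset.prod_pow_eq_pow_sum, (hg μ hμ).1]
    ring
  rw [h6, h4, mul_zero]

theorem final3 {K : Type u} [Field K] [NumberField K] {N m M : ℕ} (A : AV K N)
    {κ : ℕ} (q : Fin κ → Fm K N m M) (hq : ∀ j, ∃ a b c, Tri (q j) a b c)
    {a b c r : ℕ} (e : Fin r → Fm K N m M) (he : ∀ j, Tri (e j) a b c)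
    {a' b' c' s : ℕ} (f : Fin s → Fm K N m M) (hf : ∀ j, Tri (f j) a' b' c')
    (S : Finset (NumberField.FinitePlace K)) (ε : ℝ) (hε : 0 < ε) :
    ∃ (C : ℝ) (k : ℕ) (B : Fin k → AV K N) (hB : ∀ i, IsSubAV (B i) A),
      ∀ t : Fin (M + 1) → K, t ≠ 0 →
        (∀ (P : A.Pts K) (y : Fin (m + 1) → K), y ≠ 0 → (∀ j, val (q j) (A.x P) y t = 0) →
          Exc B hB C q e f t P ∨
          ((∃ j, val (f j) (A.x P) y t ≠ 0) ∧ (∃ j, val (e j) (A.x P) y t ≠ 0) ∧
            hE a b c e (A.x P) y t + prox a' b' c' f S (A.x P) y t ≤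
              ε * logHeight (A.x P) + C * (1 + logHeight t))) ∧
        (Cod2 A q e t → NotAll A q f t → ∃ (n : ℕ) (G : MvPolynomial (Fin (N + 1)) K),
          G.IsHomogeneous n ∧ G ∉ A.I ∧
            ∀ P : A.Pts K, Exc B hB C q e f t P → aeval (A.x P) G = 0) := by
  obtain ⟨d, d', n, r', g, hg, hgm, hg0⟩ := E3 (Sum.elim q e)
    (fun i => i.casesOn (fun j => hq j) fun j => ⟨a, b, c, he j⟩)
  obtain ⟨D, D', n', s', F, hF, hFm, hF0⟩ := E3 (Sum.elim q f)
    (fun i => i.casesOn (fun j => hq j) fun j => ⟨a', b', c', hf j⟩)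
  obtain ⟨C0, k, B, hB, -, hfin⟩ := Pool.Agent.Lib.MP_17a322_nt.FU.final A ⊤ (MWA.MW A) g hg F hF S ε 1 hε one_pos
  obtain ⟨C1, hC1, h1⟩ := L2 q hq e he g hg hgm
  obtain ⟨kp, hkp, -, h2⟩ := L1 q hq f hf F hF hFm
  obtain ⟨_, _, _, h1'⟩ := L1 q hq e he g hg hgm
  obtain ⟨C3, hC3, h3⟩ := L3 F hF S
  obtain ⟨B₀, hB₀, hz, htd⟩ := B0 A
  obtain ⟨C2, hC2def⟩ : ∃ C2 : ℝ, C2 = (∑ v : NumberField.InfinitePlace K, (v.mult : ℝ) *
      Real.log (kp v.val)) + ∑ v ∈ S, Real.log (kp v.val) := ⟨_, rfl⟩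
  have hC2 : 0 ≤ C2 := by
    rw [hC2def]
    exact add_nonneg (Finset.sum_nonneg fun v _ => mul_nonneg (Nat.cast_nonneg _)
      (Real.log_nonneg (hkp _))) (Finset.sum_nonneg fun v _ => Real.log_nonneg (hkp _))
  obtain ⟨C, hC⟩ : ∃ C : ℝ, C = (d + D + 1) * |C0| + d' + D' + C1 + C2 + C3 := ⟨_, rfl⟩
  have hd : (0 : ℝ) ≤ d := Nat.cast_nonneg _
  have hD : (0 : ℝ) ≤ D := Nat.cast_nonneg _
  have hd' : (0 : ℝ) ≤ d' := Nat.cast_nonneg _
  have hD' : (0 : ℝ) ≤ D' := Nat.cast_nonneg _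
  have hC0 : |C0| ≤ C := by
    have h4 : 0 ≤ (d + D) * |C0| := mul_nonneg (by linarith) (abs_nonneg _)
    rw [hC]
    linarith
  have hCC : C1 + C2 ≤ C := by
    have h4 : 0 ≤ (d + D + 1) * |C0| := mul_nonneg (by linarith) (abs_nonneg _)
    rw [hC]
    linarith
  have hCn : 0 ≤ C := (abs_nonneg _).trans hC0
  refine ⟨C, k + 1, Fin.cons B₀ B, Fin.cases hB₀ hB, fun t ht => ⟨fun P y hy hqz => ?_, ?_⟩⟩
  swap
  · intro hc hn
    obtain ⟨L, i1, i2, P₁, hP₁⟩ := hn
    obtain ⟨n₀, G, hG, hGA, hG0⟩ := UVZ.zset A g hg F hF (C * (1 + logHeight t)) (k + 1)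
      (Fin.cons B₀ B) (Fin.cases hB₀ hB) t ht
      (fun L _ _ P hP => by
        obtain ⟨y, hy, h6⟩ := hg0 L (A.x P) (fun l => algebraMap K L (t l)) (Z_x_ne A _)
          (fun h0 => ht (funext fun l => (map_eq_zero (algebraMap K L)).1 (congrFun h0 l))) hP
        exact hc L P ⟨y, hy, fun j => h6 (Sum.inl j), fun j => h6 (Sum.inr j)⟩)
      ⟨L, i1, i2, P₁, by
        by_contra hcon
        push Not at hcon
        obtain ⟨y, hy, h6⟩ := hF0 L (A.x P₁) (fun l => algebraMap K L (t l)) (Z_x_ne A _)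
          (fun h0 => ht (funext fun l => (map_eq_zero (algebraMap K L)).1 (congrFun h0 l))) hcon
        exact hP₁ ⟨y, hy, fun j => h6 (Sum.inl j), fun j => h6 (Sum.inr j)⟩⟩
    refine ⟨n₀, G, hG, hGA, ?_⟩
    rintro P ⟨i, w, p, h4, h5, h6⟩
    refine hG0 P ⟨i, w, p, h4, h5, ?_⟩
    rcases h6 with h6 | h6
    · exact Or.inl (TrX_Tr _ P t hFm h6)
    · exact Or.inr (BadX_Bad _ P t hgm h6)
  have hht : 0 ≤ logHeight t := logHeight_nonneg _
  have hhP : 0 ≤ logHeight (A.x P) := logHeight_nonneg _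
  have hxP : A.x P ≠ 0 := Z_x_ne A P
  -- translates
  have hTr : ∀ {B : AV K N} (hB : IsSubAV B A), (∀ j, Tr hB P t (F j)) → TrX hB P t q f := by
    intro B hB h4 L _ _ b
    obtain ⟨y, hy, h5⟩ := hF0 L (A.x (A.img (Algebra.ofId K L) P + hB.inc L b))
      (fun l => algebraMap K L (t l)) (Z_x_ne A _) (fun h0 => ht (funext fun l => by
        have h6 := congrFun h0 l
        exact (map_eq_zero (algebraMap K L)).1 h6)) fun j => h4 j L b
    exact ⟨y, hy, fun j => h5 (Sum.inl j), fun j => h5 (Sum.inr j)⟩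
  have hBad : ∀ {B : AV K N} (hB : IsSubAV B A), Bad hB P t g → BadX hB P t q e := by
    rintro B hB ⟨L, i1, i2, b, h4, h5⟩
    obtain ⟨y, hy, h6⟩ := hg0 L (A.x (A.img (Algebra.ofId K L) P + hB.inc L b))
      (fun l => algebraMap K L (t l)) (Z_x_ne A _) (fun h0 => ht (funext fun l => by
        have h6 := congrFun h0 l
        exact (map_eq_zero (algebraMap K L)).1 h6)) h4
    exact ⟨L, i1, i2, b, ⟨y, hy, fun j => h6 (Sum.inl j), fun j => h6 (Sum.inr j)⟩, h5⟩
  -- the inequality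
  have hmain : (∃ j, aeval (Sum.elim (A.x P) t) (F j) ≠ 0) →
      (∃ j, aeval (Sum.elim (A.x P) t) (g j) ≠ 0) → ∀ Z : ℝ,
      (d * logHeight (A.x P) + d' * logHeight t -
            logHeight (fun j => aeval (Sum.elim (A.x P) t) (g j))) +
          ((∑ v : NumberField.InfinitePlace K, (v.mult : ℝ) * lamF D D' F (A.x P) t v.val) +
            ∑ v ∈ S, lamF D D' F (A.x P) t v.val) + (C1 + C2) ≤ Z →
      ((∃ j, val (f j) (A.x P) y t ≠ 0) ∧ (∃ j, val (e j) (A.x P) y t ≠ 0) ∧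
          hE a b c e (A.x P) y t + prox a' b' c' f S (A.x P) y t ≤ Z) := by
    intro hFz hgz Z hZ
    obtain ⟨h4, h5⟩ := h2 (A.x P) y t hxP hy ht hqz hFz
    have h6 := (h1' (A.x P) y t hxP hy ht hqz hgz).1
    have h7 := h1 (A.x P) y t hxP hy ht hqz hgz
    refine ⟨h4, h6, ?_⟩
    have h8 : prox a' b' c' f S (A.x P) y t ≤
        ((∑ v : NumberField.InfinitePlace K, (v.mult : ℝ) * lamF D D' F (A.x P) t v.val) +
            ∑ v ∈ S, lamF D D' F (A.x P) t v.val) + C2 := by
      have h9 := Z_prox S (fun v => lamX a' b' c' f (A.x P) y t v)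
        (fun v => lamF D D' F (A.x P) t v + Real.log (kp v)) h5
      rw [Z_prox_add S (fun v => lamF D D' F (A.x P) t v) fun v => Real.log (kp v), ← hC2def] at h9
      exact h9
    linarith
  by_cases hbig : C0 * (1 + logHeight t) ≤ logHeight (A.x P)
  · rcases hfin t ht P (AddSubgroup.mem_top P) hbig with ⟨i, w, p, h4, -, h5, h6⟩ | ⟨h4, h5, h6⟩
    · refine Or.inl ⟨i.succ, w, p, h4, ?_, ?_⟩
      · refine (h5 rfl).trans (mul_le_mul_of_nonneg_right ((le_abs_self _).trans hC0) (by linarith))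
      · rcases h6 with h6 | h6
        · exact Or.inl (hTr (hB i) h6)
        · exact Or.inr (hBad (hB i) h6)
    · refine Or.inr (hmain h4 h5 _ ?_)
      have h7 : C1 + C2 ≤ C * (1 + logHeight t) := by
        have h8 : C * 1 ≤ C * (1 + logHeight t) := mul_le_mul_of_nonneg_left (by linarith) hCn
        linarith
      linarith
  · push Not at hbig
    have hPs : logHeight (A.x P) ≤ |C0| * (1 + logHeight t) :=
      hbig.le.trans (mul_le_mul_of_nonneg_right (le_abs_self _) (by linarith))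
    by_cases hFz : ∀ j, aeval (Sum.elim (A.x P) t) (F j) = 0
    · refine Or.inl ⟨0, P, 0, ?_, hPs.trans (mul_le_mul_of_nonneg_right hC0 (by linarith)), Or.inl ?_⟩
      · have h4 : hB₀.inc K 0 = 0 := hz K 0
        exact (add_zero P).symm.trans (congrArg (P + ·) h4.symm)
      · refine hTr hB₀ fun j L _ _ b => ?_
        rw [hz L b, add_zero]
        exact Z_img (hF j) P t (hFz j) L
    · by_cases hgz : ∀ j, aeval (Sum.elim (A.x P) t) (g j) = 0
      · refine Or.inl ⟨0, P, 0, ?_, hPs.trans (mul_le_mul_of_nonneg_right hC0 (by linarith)), Or.inr ?_⟩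
        · have h4 : hB₀.inc K 0 = 0 := hz K 0
          exact (add_zero P).symm.trans (congrArg (P + ·) h4.symm)
        · refine hBad hB₀ ⟨K, inferInstance, inferInstance, 0, fun j => ?_, fun L' _ _ p => ?_⟩
          · rw [hz K 0, add_zero]
            exact Z_img (hg j) P t (hgz j) K
          · rw [htd L' p]
            exact zero_le
      · push Not at hFz hgz
        refine Or.inr (hmain hFz hgz _ ?_)
        have h4 := h3 (A.x P) t hxP ht hFz
        have h5 : 0 ≤ logHeight (fun j => aeval (Sum.elim (A.x P) t) (g j)) := logHeight_nonneg _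
        have h6 : d * logHeight (A.x P) ≤ d * (|C0| * (1 + logHeight t)) :=
          mul_le_mul_of_nonneg_left hPs hd
        have h7 : D * logHeight (A.x P) ≤ D * (|C0| * (1 + logHeight t)) :=
          mul_le_mul_of_nonneg_left hPs hD
        have h8 : 0 ≤ ε * logHeight (A.x P) := mul_nonneg hε.le hhP
        have h9 : d' * logHeight t ≤ d' * (1 + logHeight t) :=
          mul_le_mul_of_nonneg_left (by linarith) hd'
        have h10 : D' * logHeight t ≤ D' * (1 + logHeight t) :=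
          mul_le_mul_of_nonneg_left (by linarith) hD'
        have h11 : (C1 + C2 + C3) * 1 ≤ (C1 + C2 + C3) * (1 + logHeight t) :=
          mul_le_mul_of_nonneg_left (by linarith) (by linarith)
        have h12 : 0 ≤ |C0| * (1 + logHeight t) := mul_nonneg (abs_nonneg _) (by linarith)
        rw [hC]
        nlinarith

end UVD
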