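import Pool.Agent.Lib.MP_17a322_ntBB.Z
import Pool.Agent.Lib.MP_17a322_ntBB.K3
import Pool.Agent.Lib.MP_17a322_ntBB.K4

/-!
The final theorem with the canonical divisor.
-/

set_option autoImplicit false

universe u

namespace UVD

open MvPolynomial Height
open Pool.Agent.Lib.MP_17a322_nt.VA

theorem final4 {K : Type u} [Field K] [NumberField K] {N m M : ℕ} (A : AV K N)
    {κ : ℕ} (q : Fin κ → Fm K N m M) (hq : ∀ j, ∃ a b c, Tri (q j) a b c)
    {a b c r : ℕ} (e : Fin r → Fm K N m M) (he : ∀ j, Tri (e j) a b c)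
    {a' b' c' s : ℕ} (f : Fin s → Fm K N m M) (hf : ∀ j, Tri (f j) a' b' c')
    (S : Finset (NumberField.FinitePlace K)) (ε : ℝ) (hε : 0 < ε) :
    ∃ (C : ℝ) (k : ℕ) (B : Fin k → AV K N) (hB : ∀ i, IsSubAV (B i) A),
      ∀ t : Fin (M + 1) → K, t ≠ 0 →
        (∀ (P : A.Pts K) (y : Fin (m + 1) → K), y ≠ 0 → (∀ j, val (q j) (A.x P) y t = 0) →
          Exc B hB C q e f t P ∨
          ((∃ j, val (f j) (A.x P) y t ≠ 0) ∧ (∃ j, val (e j) (A.x P) y t ≠ 0) ∧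
            hE a b c e (A.x P) y t + prox a' b' c' f S (A.x P) y t ≤
              ε * logHeight (A.x P) + C * (1 + logHeight t))) ∧
        ((Cod2 A q e t ∧ NotAll A q f t) ∨ Bir A q e f t →
          ∃ (n : ℕ) (G : MvPolynomial (Fin (N + 1)) K), G.IsHomogeneous n ∧ G ∉ A.I ∧
            ∀ P : A.Pts K, Exc B hB C q e f t P → aeval (A.x P) G = 0) := by
  obtain ⟨C, k, B, hB, h⟩ := final3 A q hq e he f hf S ε hε
  refine ⟨C, k, B, hB, fun t ht => ⟨(h t ht).1, ?_⟩⟩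
  rintro (⟨h1, h2⟩ | ⟨δ, p, h1, h2, h3⟩)
  · exact (h t ht).2 h1 h2
  · exact (h t ht).2 (K3 A q hq e (fun j => ⟨a, b, c, he j⟩) t p δ h1 h2)
      (K4 A q f (fun j => ⟨a', b', c', hf j⟩) t p δ h1 h3)

end UVD
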